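import Mathlib
import Pool.Agent.Helper256.KM.Mertens

set_option autoImplicit false

namespace Pool.Agent.H500R2

open Finset

/-- primes up to `N` -/
def PP (N : ℕ) : Finset ℕ := (Finset.Icc 1 N).filter Nat.Prime

lemma mem_PP {N p : ℕ} : p ∈ PP N ↔ p.Prime ∧ p ≤ N := by
  unfold PP
  rw [Finset.mem_filter, Finset.mem_Icc]
  constructor
  · rintro ⟨⟨_, h⟩, hp⟩; exact ⟨hp, h⟩
  · rintro ⟨hp, h⟩; exact ⟨⟨hp.one_lt.le, h⟩, hp⟩

/-- sum of the reciprocals of the primes up to `N` -/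
noncomputable def L (N : ℕ) : ℝ := ∑ p ∈ PP N, (1 : ℝ) / p

/-- completely multiplicative weight with value `c p` at the prime `p` -/
noncomputable def W (c : ℕ → ℝ) (n : ℕ) : ℝ := n.factorization.prod (fun p k => c p ^ k)

lemma W_one (c : ℕ → ℝ) : W c 1 = 1 := by simp [W]

lemma W_mul (c : ℕ → ℝ) {m n : ℕ} (hm : m ≠ 0) (hn : n ≠ 0) : W c (m * n) = W c m * W c n := by
  unfold W
  rw [Nat.factorization_mul hm hn]
  exact Finsupp.prod_add_index' (fun _ => pow_zero _) (fun _ _ _ => pow_add _ _ _)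

lemma W_nonneg {c : ℕ → ℝ} (hc : ∀ p, 0 ≤ c p) (n : ℕ) : 0 ≤ W c n := by
  unfold W Finsupp.prod
  exact Finset.prod_nonneg fun p _ => pow_nonneg (hc p) _

lemma W_prime (c : ℕ → ℝ) {p : ℕ} (hp : p.Prime) : W c p = c p := by
  unfold W
  rw [hp.factorization, Finsupp.prod_single_index] <;> simp

lemma W_mul_fun (c c' : ℕ → ℝ) (n : ℕ) : W (fun p => c p * c' p) n = W c n * W c' n := by
  unfold W
  rw [← Finsupp.prod_mul]
  simp only [mul_pow]

lemma W_eq_prod (c : ℕ → ℝ) (n : ℕ) : W c n = ∏ p ∈ n.primeFactors, c p ^ n.factorization p := by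
  unfold W
  rw [Finsupp.prod, Nat.support_factorization]

/-- the weight is at most the product over the primes of `s` dividing `n` -/
lemma W_le_prod {c : ℕ → ℝ} (h0 : ∀ p, 0 ≤ c p) (h1 : ∀ p, c p ≤ 1) {n : ℕ} (hn : n ≠ 0)
    (s : Finset ℕ) (hs : ∀ p ∈ s, p.Prime) :
    W c n ≤ ∏ p ∈ s, (if p ∣ n then c p else 1) := by
  classical
  rw [W_eq_prod]
  have e1 : ∏ p ∈ s, (if p ∣ n then c p else 1) = ∏ p ∈ s ∩ n.primeFactors, c p := by
    rw [← Finset.prod_filter]
    apply Finset.prod_congr _ (fun _ _ => rfl)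
    ext p
    simp only [Finset.mem_filter, Finset.mem_inter, Nat.mem_primeFactors]
    constructor
    · rintro ⟨h, h'⟩; exact ⟨h, hs p h, h', hn⟩
    · rintro ⟨h, _, h', _⟩; exact ⟨h, h'⟩
  rw [e1, ← Finset.prod_sdiff (Finset.inter_subset_right (s₁ := s) (s₂ := n.primeFactors))]
  have e2 : ∏ p ∈ n.primeFactors \ (s ∩ n.primeFactors), c p ^ n.factorization p ≤ 1 :=
    Finset.prod_le_one (fun p _ => pow_nonneg (h0 p) _) (fun p _ => pow_le_one₀ (h0 p) (h1 p))
  have e3 : ∏ p ∈ s ∩ n.primeFactors, c p ^ n.factorization p ≤ ∏ p ∈ s ∩ n.primeFactors, c p := by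
    apply Finset.prod_le_prod (fun p _ => pow_nonneg (h0 p) _)
    intro p hp
    have hp' := (Finset.mem_inter.1 hp).2
    have hv : 1 ≤ n.factorization p := by
      have := Nat.mem_primeFactors.1 hp'
      exact this.1.factorization_pos_of_dvd this.2.2 this.2.1
    calc c p ^ n.factorization p ≤ c p ^ 1 := pow_le_pow_of_le_one (h0 p) (h1 p) hv
      _ = c p := pow_one _
  have e4 : 0 ≤ ∏ p ∈ s ∩ n.primeFactors, c p ^ n.factorization p :=
    Finset.prod_nonneg fun p _ => pow_nonneg (h0 p) _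
  calc _ ≤ 1 * ∏ p ∈ s ∩ n.primeFactors, c p ^ n.factorization p :=
        mul_le_mul_of_nonneg_right e2 e4
    _ ≤ _ := by rw [one_mul]; exact e3

/-- the monoid homomorphism `n ↦ W c n / n` -/
noncomputable def WH (c : ℕ → ℝ) : ℕ →* ℝ where
  toFun n := if n = 0 then 0 else W c n / n
  map_one' := by simp [W_one]
  map_mul' m n := by
    by_cases hm : m = 0
    · simp [hm]
    by_cases hn : n = 0
    · simp [hn]
    simp only [hm, hn, mul_eq_zero, or_self, if_false]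
    rw [W_mul c hm hn]
    push_cast
    field_simp

lemma WH_apply (c : ℕ → ℝ) {n : ℕ} (hn : n ≠ 0) : WH c n = W c n / n := by
  show (if n = 0 then 0 else W c n / n) = _
  simp [hn]

lemma sum_sq_PP (N : ℕ) : ∑ p ∈ PP N, 1 / (p : ℝ) ^ 2 ≤ 1 := by
  have h1 : ∀ N : ℕ, ∑ n ∈ Finset.Icc 2 N, 1 / (n : ℝ) ^ 2 ≤ 1 - 1 / ((max N 1 : ℕ) : ℝ) := by
    intro N
    induction N with
    | zero => simp
    | succ N ih =>
      rcases Nat.lt_or_ge N 1 with h | h
      · interval_cases N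
        simp
      · rw [Finset.sum_Icc_succ_top (by omega)]
        have e : max (N + 1) 1 = N + 1 := by omega
        have e' : max N 1 = N := by omega
        rw [e]; rw [e'] at ih
        have hN : (1 : ℝ) ≤ N := by exact_mod_cast h
        have : 1 / ((N + 1 : ℕ) : ℝ) ^ 2 ≤ 1 / (N : ℝ) - 1 / ((N + 1 : ℕ) : ℝ) := by
          push_cast
          rw [div_sub_div _ _ (by positivity) (by positivity),
            div_le_div_iff₀ (by positivity) (by positivity)]
          nlinarith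
        linarith
  refine le_trans (Finset.sum_le_sum_of_subset_of_nonneg (t := Finset.Icc 2 N) ?_ ?_) (le_trans (h1 N) ?_)
  · intro p hp
    rw [mem_PP] at hp
    rw [Finset.mem_Icc]
    exact ⟨hp.1.two_le, hp.2⟩
  · intro i _ _; positivity
  · have : (0 : ℝ) ≤ 1 / ((max N 1 : ℕ) : ℝ) := by positivity
    linarith

lemma one_sub_inv_le {x : ℝ} (h0 : 0 ≤ x) (h1 : x ≤ 3 / 4) : (1 - x)⁻¹ ≤ Real.exp (x + 4 * x ^ 2) := by
  have h2 : (1 - x)⁻¹ = x / (1 - x) + 1 := by
    have : 1 - x ≠ 0 := by linarith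
    field_simp
    ring
  have h3 : x / (1 - x) ≤ x + 4 * x ^ 2 := by
    rw [div_le_iff₀ (by linarith)]
    nlinarith [mul_nonneg h0 h0, mul_nonneg (mul_nonneg h0 h0) (by linarith : (0 : ℝ) ≤ 3 / 4 - x)]
  rw [h2]
  exact (Real.add_one_le_exp _).trans (Real.exp_le_exp.2 h3)

/-- Euler product upper bound for sums of weights -/
theorem euler_upper {c : ℕ → ℝ} (h0 : ∀ p, 0 ≤ c p) (h1 : ∀ p, c p ≤ 3 / 2) (Y : ℕ) :
    ∑ n ∈ Finset.Icc 1 Y, W c n / n ≤ Real.exp (∑ p ∈ PP Y, c p / p + 9) := by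
  have hlt : ∀ {p : ℕ}, p.Prime → ‖WH c p‖ < 1 := by
    intro p hp
    have hp2 : (2 : ℝ) ≤ p := by exact_mod_cast hp.two_le
    rw [WH_apply c hp.ne_zero, W_prime c hp, Real.norm_eq_abs, abs_of_nonneg (div_nonneg (h0 p) (by linarith)),
      div_lt_one (by linarith)]
    linarith [h1 p]
  obtain ⟨hs, hh⟩ := EulerProduct.summable_and_hasSum_smoothNumbers_prod_primesBelow_geometric
    (f := WH c) hlt (Y + 1)
  have hnn : ∀ m : (Y + 1).smoothNumbers, 0 ≤ WH c m := by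
    rintro ⟨m, hm⟩
    have hm0 : m ≠ 0 := Nat.ne_zero_of_mem_smoothNumbers hm
    rw [WH_apply c hm0]
    exact div_nonneg (W_nonneg h0 _) (by positivity)
  -- finite sum is at most the total
  have hle : ∑ n ∈ Finset.Icc 1 Y, W c n / n ≤ ∏ p ∈ (Y + 1).primesBelow, (1 - WH c p)⁻¹ := by
    have hmem : ∀ n ∈ Finset.Icc 1 Y, n ∈ (Y + 1).smoothNumbers := by
      intro n hn
      rw [Finset.mem_Icc] at hn
      rw [Nat.mem_smoothNumbers]
      refine ⟨by omega, fun p hp => ?_⟩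
      have := Nat.le_of_mem_primeFactorsList hp
      omega
    let φ : {n // n ∈ Finset.Icc 1 Y} → (Y + 1).smoothNumbers := fun n => ⟨n.1, hmem n.1 n.2⟩
    have hφ : Function.Injective φ := by
      intro a b hab
      have := congrArg Subtype.val hab
      exact Subtype.ext this
    have h2 := sum_le_hasSum (Finset.univ.map ⟨φ, hφ⟩) (fun i _ => hnn i) hh
    rw [Finset.sum_map] at h2
    refine le_trans (le_of_eq ?_) h2
    rw [← Finset.sum_coe_sort]
    apply Finset.sum_congr rfl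
    intro n _
    have := Finset.mem_Icc.1 n.2
    show W c n / n = WH c n
    rw [WH_apply c (by omega)]
  refine hle.trans ?_
  have e1 : (Y + 1).primesBelow = PP Y := by
    ext p
    rw [Nat.mem_primesBelow, mem_PP]
    constructor
    · rintro ⟨h, h'⟩; exact ⟨h', by omega⟩
    · rintro ⟨h, h'⟩; exact ⟨by omega, h⟩
  rw [e1]
  have h3 : ∀ p ∈ PP Y, (1 - WH c p)⁻¹ ≤ Real.exp (c p / p + 9 * (1 / (p : ℝ) ^ 2)) := by
    intro p hp
    have hpp := (mem_PP.1 hp).1
    have hp2 : (2 : ℝ) ≤ p := by exact_mod_cast hpp.two_le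
    rw [WH_apply c hpp.ne_zero, W_prime c hpp]
    have hx0 : 0 ≤ c p / p := div_nonneg (h0 p) (by linarith)
    have hx1 : c p / p ≤ 3 / 4 := by
      rw [div_le_iff₀ (by linarith)]; linarith [h1 p]
    refine (one_sub_inv_le hx0 hx1).trans (Real.exp_le_exp.2 ?_)
    have : 4 * (c p / p) ^ 2 ≤ 9 * (1 / (p : ℝ) ^ 2) := by
      rw [div_pow, ← mul_div_assoc, ← mul_div_assoc, mul_one]
      apply div_le_div_of_nonneg_right _ (by positivity)
      nlinarith [h0 p, h1 p]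
    linarith
  have h4 : ∏ p ∈ PP Y, (1 - WH c p)⁻¹ ≤ ∏ p ∈ PP Y, Real.exp (c p / p + 9 * (1 / (p : ℝ) ^ 2)) := by
    apply Finset.prod_le_prod _ h3
    intro p hp
    have := hlt (mem_PP.1 hp).1
    rw [Real.norm_eq_abs] at this
    have := (abs_lt.1 this).2
    exact inv_nonneg.2 (by linarith)
  refine h4.trans ?_
  rw [← Real.exp_sum]
  apply Real.exp_le_exp.2
  rw [Finset.sum_add_distrib, ← Finset.mul_sum]
  linarith [sum_sq_PP Y]

theorem mertens_L : ∃ C : ℝ, 0 ≤ C ∧ ∀ N : ℕ, 3 ≤ N → |L N - Real.log (Real.log N)| ≤ C := by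
  obtain ⟨C, hC⟩ := Pool.Agent.Helper256.KM.mertens_inv
  refine ⟨C, le_trans (abs_nonneg _) (hC 3 (by norm_num)), fun N hN => ?_⟩
  exact hC N hN

end Pool.Agent.H500R2
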