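import Mathlib

set_option autoImplicit false

namespace Pool.Agent.H500R2

open Finset

/-- elementary symmetric sums -/
noncomputable def EE (j : ℕ) (S : Finset ℕ) (t : ℕ → ℝ) : ℝ :=
  ∑ J ∈ S.powersetCard j, ∏ p ∈ J, t p

lemma EE_zero (S : Finset ℕ) (t : ℕ → ℝ) : EE 0 S t = 1 := by
  unfold EE; rw [Finset.powersetCard_zero]; simp

lemma EE_empty_succ (j : ℕ) (t : ℕ → ℝ) : EE (j + 1) ∅ t = 0 := by
  unfold EE
  rw [Finset.powersetCard_eq_empty.2 (by simp)]
  simp

lemma EE_insert (j : ℕ) (S : Finset ℕ) (t : ℕ → ℝ) {p : ℕ} (hp : p ∉ S) :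
    EE (j + 1) (insert p S) t = EE (j + 1) S t + t p * EE j S t := by
  classical
  unfold EE
  rw [Finset.powersetCard_succ_insert hp, Finset.sum_union, Finset.sum_image, Finset.mul_sum]
  · congr 1
    apply Finset.sum_congr rfl
    intro J hJ
    rw [Finset.prod_insert]
    intro h
    exact hp ((Finset.mem_powersetCard.1 hJ).1 h)
  · intro J hJ K hK h
    have hJ' : p ∉ J := fun h => hp ((Finset.mem_powersetCard.1 hJ).1 h)
    have hK' : p ∉ K := fun h => hp ((Finset.mem_powersetCard.1 hK).1 h)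
    rw [← Finset.erase_insert hJ', ← Finset.erase_insert hK', h]
  · rw [Finset.disjoint_left]
    intro J hJ hJ'
    rw [Finset.mem_image] at hJ'
    obtain ⟨K, _, rfl⟩ := hJ'
    exact hp ((Finset.mem_powersetCard.1 hJ).1 (Finset.mem_insert_self _ _))

lemma EE_nonneg {t : ℕ → ℝ} (h0 : ∀ p, 0 ≤ t p) (j : ℕ) (S : Finset ℕ) : 0 ≤ EE j S t :=
  Finset.sum_nonneg fun _ _ => Finset.prod_nonneg fun p _ => h0 p

/-- truncated alternating sum -/
noncomputable def BB (R : ℕ) (S : Finset ℕ) (t : ℕ → ℝ) : ℝ :=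
  ∑ j ∈ Finset.range (R + 1), (-1) ^ j * EE j S t

lemma BB_zero (S : Finset ℕ) (t : ℕ → ℝ) : BB 0 S t = 1 := by
  unfold BB; simp [EE_zero]

lemma BB_empty (R : ℕ) (t : ℕ → ℝ) : BB R ∅ t = 1 := by
  unfold BB
  rw [Finset.sum_range_succ']
  simp [EE_zero, EE_empty_succ]

lemma BB_insert (R : ℕ) (S : Finset ℕ) (t : ℕ → ℝ) {p : ℕ} (hp : p ∉ S) :
    BB (R + 1) (insert p S) t = BB (R + 1) S t - t p * BB R S t := by
  unfold BB
  rw [Finset.sum_range_succ', Finset.sum_range_succ' (fun j => (-1) ^ j * EE j S t)]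
  simp only [EE_zero, EE_insert _ _ _ hp]
  rw [Finset.mul_sum]
  have : ∀ k : ℕ, (-1 : ℝ) ^ (k + 1) * (EE (k + 1) S t + t p * EE k S t) =
      (-1) ^ (k + 1) * EE (k + 1) S t - t p * ((-1) ^ k * EE k S t) := by
    intro k; rw [pow_succ]; ring
  simp only [this, Finset.sum_sub_distrib]
  ring

lemma bonferroni {t : ℕ → ℝ} (h0 : ∀ p, 0 ≤ t p) (h1 : ∀ p, t p ≤ 1) (S : Finset ℕ) :
    ∀ R : ℕ, 0 ≤ (-1) ^ R * (BB R S t - ∏ p ∈ S, (1 - t p)) := by
  classical
  induction S using Finset.induction_on with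
  | empty => intro R; simp [BB_empty]
  | insert p S hp ih =>
    intro R
    rw [Finset.prod_insert hp]
    rcases R with _ | R
    · rw [BB_zero]
      have : ∏ q ∈ S, (1 - t q) ≤ 1 :=
        Finset.prod_le_one (fun q _ => by linarith [h1 q]) (fun q _ => by linarith [h0 q])
      have h2 : 0 ≤ ∏ q ∈ S, (1 - t q) := Finset.prod_nonneg fun q _ => by linarith [h1 q]
      have h3 : (1 - t p) * ∏ q ∈ S, (1 - t q) ≤ 1 * 1 :=
        mul_le_mul (by linarith [h0 p]) this h2 (by norm_num)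
      simp only [pow_zero, one_mul]
      linarith
    · rw [BB_insert _ _ _ hp]
      have e1 := ih (R + 1)
      have e2 := ih R
      have : (-1 : ℝ) ^ (R + 1) * (BB (R + 1) S t - t p * BB R S t -
          (1 - t p) * ∏ q ∈ S, (1 - t q)) =
          (-1) ^ (R + 1) * (BB (R + 1) S t - ∏ q ∈ S, (1 - t q)) +
          t p * ((-1) ^ R * (BB R S t - ∏ q ∈ S, (1 - t q))) := by
        rw [pow_succ]; ring
      rw [this]
      exact add_nonneg e1 (mul_nonneg (h0 p) e2)

/-- Rankin bound -/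
lemma EE_le {t : ℕ → ℝ} (h0 : ∀ p, 0 ≤ t p) (j : ℕ) (S : Finset ℕ) {lam : ℝ} (hl : 0 < lam) :
    lam ^ j * EE j S t ≤ Real.exp (lam * ∑ p ∈ S, t p) := by
  classical
  have h1 : lam ^ j * EE j S t ≤ ∏ p ∈ S, (1 + lam * t p) := by
    rw [Finset.prod_one_add]
    unfold EE
    rw [Finset.mul_sum]
    refine le_trans ?_ (Finset.sum_le_sum_of_subset_of_nonneg (s := S.powersetCard j) ?_ ?_)
    · apply Finset.sum_le_sum
      intro J hJ
      rw [Finset.prod_mul_distrib, Finset.prod_const, (Finset.mem_powersetCard.1 hJ).2]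
    · intro J hJ
      rw [Finset.mem_powerset]
      exact (Finset.mem_powersetCard.1 hJ).1
    · intro J _ _
      exact Finset.prod_nonneg fun p _ => mul_nonneg hl.le (h0 p)
  refine h1.trans ?_
  rw [Finset.mul_sum, Real.exp_sum]
  apply Finset.prod_le_prod
  · intro p _; have := mul_nonneg hl.le (h0 p); linarith
  · intro p _; rw [add_comm]; exact Real.add_one_le_exp _

lemma sum_EE_le {t : ℕ → ℝ} (h0 : ∀ p, 0 ≤ t p) (R : ℕ) (S : Finset ℕ) :
    ∑ j ∈ Finset.range (R + 1), EE j S t ≤ Real.exp (∑ p ∈ S, t p) := by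
  classical
  have h1 : ∑ j ∈ Finset.range (R + 1), EE j S t ≤ ∏ p ∈ S, (1 + t p) := by
    rw [Finset.prod_one_add]
    unfold EE
    rw [← Finset.sum_biUnion]
    · apply Finset.sum_le_sum_of_subset_of_nonneg
      · intro J hJ
        rw [Finset.mem_biUnion] at hJ
        obtain ⟨j, _, hJ⟩ := hJ
        rw [Finset.mem_powerset]
        exact (Finset.mem_powersetCard.1 hJ).1
      · intro J _ _
        exact Finset.prod_nonneg fun p _ => h0 p
    · intro a _ b _ hab
      rw [Function.onFun, Finset.disjoint_left]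
      intro J hJ hJ'
      exact hab ((Finset.mem_powersetCard.1 hJ).2.symm.trans (Finset.mem_powersetCard.1 hJ').2)
  refine h1.trans ?_
  rw [Real.exp_sum]
  apply Finset.prod_le_prod
  · intro p _; have := h0 p; linarith
  · intro p _; rw [add_comm]; exact Real.add_one_le_exp _

/-! ### periodic sums -/

lemma sum_period {g : ℕ → ℝ} {D : ℕ} (hg : ∀ m, g (m + D) = g m) (A : ℕ) :
    ∑ m ∈ Finset.Ico A (A + D), g m = ∑ m ∈ Finset.range D, g m := by
  induction A with
  | zero => simp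
  | succ A ih =>
    rcases Nat.eq_zero_or_pos D with h | h
    · subst h; simp
    rw [← ih]
    have e1 : ∑ m ∈ Finset.Ico A (A + D), g m = g A + ∑ m ∈ Finset.Ico (A + 1) (A + D), g m :=
      Finset.sum_eq_sum_Ico_succ_bot (by omega) g
    have e2 : ∑ m ∈ Finset.Ico (A + 1) (A + 1 + D), g m =
        ∑ m ∈ Finset.Ico (A + 1) (A + D), g m + g (A + D) := by
      rw [show A + 1 + D = (A + D) + 1 by omega, Finset.sum_Ico_succ_top (by omega)]
    rw [e1, e2, hg]; ring

lemma sum_periods {g : ℕ → ℝ} {D : ℕ} (hg : ∀ m, g (m + D) = g m) (A k : ℕ) :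
    ∑ m ∈ Finset.Ico A (A + k * D), g m = k * ∑ m ∈ Finset.range D, g m := by
  induction k with
  | zero => simp
  | succ k ih =>
    have : ∑ m ∈ Finset.Ico A (A + (k + 1) * D), g m =
        ∑ m ∈ Finset.Ico A (A + k * D), g m + ∑ m ∈ Finset.Ico (A + k * D) (A + k * D + D), g m := by
      rw [Finset.sum_Ico_consecutive _ (by omega) (by omega)]
      congr 2; ring
    rw [this, ih, sum_period hg]; push_cast; ring

lemma sum_interval_upper {g : ℕ → ℝ} {D : ℕ} (hD : 0 < D) (hg : ∀ m, g (m + D) = g m)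
    (h0 : ∀ m, 0 ≤ g m) (A H : ℕ) :
    ∑ m ∈ Finset.Ico A (A + H), g m ≤ ((H : ℝ) / D + 1) * ∑ m ∈ Finset.range D, g m := by
  have h1 : ∑ m ∈ Finset.Ico A (A + H), g m ≤ ∑ m ∈ Finset.Ico A (A + (H / D + 1) * D), g m := by
    apply Finset.sum_le_sum_of_subset_of_nonneg
    · apply Finset.Ico_subset_Ico_right
      have := Nat.lt_div_mul_add (a := H) hD
      have e : (H / D + 1) * D = H / D * D + D := by ring
      omega
    · intro m _ _; exact h0 m
  rw [sum_periods hg] at h1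
  refine h1.trans ?_
  apply mul_le_mul_of_nonneg_right _ (Finset.sum_nonneg fun m _ => h0 m)
  push_cast
  have : ((H / D : ℕ) : ℝ) ≤ (H : ℝ) / D := Nat.cast_div_le
  linarith

lemma sum_interval_lower {g : ℕ → ℝ} {D : ℕ} (hD : 0 < D) (hg : ∀ m, g (m + D) = g m)
    (h0 : ∀ m, 0 ≤ g m) (A H : ℕ) :
    ((H : ℝ) / D - 1) * ∑ m ∈ Finset.range D, g m ≤ ∑ m ∈ Finset.Ico A (A + H), g m := by
  have h1 : ∑ m ∈ Finset.Ico A (A + (H / D) * D), g m ≤ ∑ m ∈ Finset.Ico A (A + H), g m := by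
    apply Finset.sum_le_sum_of_subset_of_nonneg
    · apply Finset.Ico_subset_Ico_right
      have := Nat.div_mul_le_self H D
      omega
    · intro m _ _; exact h0 m
  rw [sum_periods hg] at h1
  refine le_trans ?_ h1
  apply mul_le_mul_of_nonneg_right _ (Finset.sum_nonneg fun m _ => h0 m)
  have hD' : (0 : ℝ) < D := by exact_mod_cast hD
  have h2 : (H : ℝ) < ((H / D : ℕ) : ℝ) * D + D := by
    have := Nat.lt_div_mul_add (a := H) hD
    exact_mod_cast this
  have h3 : (H : ℝ) / D < ((H / D : ℕ) : ℝ) + 1 := by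
    rw [div_lt_iff₀ hD']; linarith
  linarith

/-- two-dimensional version -/
lemma sum_box {f : ℕ → ℕ → ℝ} {D : ℕ} (hD : 0 < D) (h1 : ∀ m n, f (m + D) n = f m n)
    (h2 : ∀ m n, f m (n + D) = f m n) (h0 : ∀ m n, 0 ≤ f m n) (A H B K : ℕ) (hH : D ≤ H)
    (hK : D ≤ K) :
    |∑ m ∈ Finset.Ico A (A + H), ∑ n ∈ Finset.Ico B (B + K), f m n -
      (H : ℝ) * K * ((∑ m ∈ Finset.range D, ∑ n ∈ Finset.range D, f m n) / (D : ℝ) ^ 2)| ≤
      3 * ((D : ℝ) / H + (D : ℝ) / K) *
        ((H : ℝ) * K * ((∑ m ∈ Finset.range D, ∑ n ∈ Finset.range D, f m n) / (D : ℝ) ^ 2)) := by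
  set F := ∑ m ∈ Finset.range D, ∑ n ∈ Finset.range D, f m n with hF
  have hF0 : 0 ≤ F := Finset.sum_nonneg fun m _ => Finset.sum_nonneg fun n _ => h0 m n
  have hD' : (0 : ℝ) < D := by exact_mod_cast hD
  have hH' : (D : ℝ) ≤ H := by exact_mod_cast hH
  have hK' : (D : ℝ) ≤ K := by exact_mod_cast hK
  set G : ℕ → ℝ := fun m => ∑ n ∈ Finset.range D, f m n with hG
  have hGp : ∀ m, G (m + D) = G m := by
    intro m; rw [hG]; exact Finset.sum_congr rfl fun n _ => h1 m n
  have hG0 : ∀ m, 0 ≤ G m := fun m => Finset.sum_nonneg fun n _ => h0 m n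
  have up : ∑ m ∈ Finset.Ico A (A + H), ∑ n ∈ Finset.Ico B (B + K), f m n ≤
      ((K : ℝ) / D + 1) * (((H : ℝ) / D + 1) * F) := by
    calc _ ≤ ∑ m ∈ Finset.Ico A (A + H), ((K : ℝ) / D + 1) * G m := by
          apply Finset.sum_le_sum
          intro m _
          exact sum_interval_upper hD (h2 m) (h0 m) B K
      _ = ((K : ℝ) / D + 1) * ∑ m ∈ Finset.Ico A (A + H), G m := by rw [Finset.mul_sum]
      _ ≤ _ := by
          apply mul_le_mul_of_nonneg_left (sum_interval_upper hD hGp hG0 A H)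
          positivity
  have lo : ((K : ℝ) / D - 1) * (((H : ℝ) / D - 1) * F) ≤
      ∑ m ∈ Finset.Ico A (A + H), ∑ n ∈ Finset.Ico B (B + K), f m n := by
    have hk : 0 ≤ (K : ℝ) / D - 1 := by
      rw [sub_nonneg, le_div_iff₀ hD']; linarith
    calc _ ≤ ((K : ℝ) / D - 1) * ∑ m ∈ Finset.Ico A (A + H), G m := by
          apply mul_le_mul_of_nonneg_left (sum_interval_lower hD hGp hG0 A H) hk
      _ = ∑ m ∈ Finset.Ico A (A + H), ((K : ℝ) / D - 1) * G m := by rw [Finset.mul_sum]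
      _ ≤ _ := by
          apply Finset.sum_le_sum
          intro m _
          exact sum_interval_lower hD (h2 m) (h0 m) B K
  have hHp : (0 : ℝ) < H := by linarith
  have hKp : (0 : ℝ) < K := by linarith
  set a := (D : ℝ) / H with ha
  set b := (D : ℝ) / K with hb
  have ha0 : 0 ≤ a := by positivity
  have hb0 : 0 ≤ b := by positivity
  have ha1 : a ≤ 1 := by rw [ha, div_le_one hHp]; exact hH'
  have hb1 : b ≤ 1 := by rw [hb, div_le_one hKp]; exact hK'
  set M := (H : ℝ) * K * (F / (D : ℝ) ^ 2) with hM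
  have hM0 : 0 ≤ M := by positivity
  have e1 : ((K : ℝ) / D + 1) * (((H : ℝ) / D + 1) * F) = (1 + a) * (1 + b) * M := by
    rw [hM, ha, hb]; field_simp
  have e2 : ((K : ℝ) / D - 1) * (((H : ℝ) / D - 1) * F) = (1 - a) * (1 - b) * M := by
    rw [hM, ha, hb]; field_simp
  rw [e1] at up
  rw [e2] at lo
  rw [abs_le]
  constructor
  · nlinarith [mul_nonneg ha0 hM0, mul_nonneg hb0 hM0, mul_nonneg (mul_nonneg ha0 hb0) hM0]
  · have : a * b ≤ a := by nlinarith
    nlinarith [mul_nonneg ha0 hM0, mul_nonneg hb0 hM0, mul_le_mul_of_nonneg_right this hM0]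

/-! ### Chinese remainder sums -/

lemma sum_crt {p D : ℕ} (hp : 0 < p) (hD : 0 < D) (h : Nat.Coprime p D) (g : ℕ → ℕ → ℝ) :
    ∑ a ∈ Finset.range (p * D), g (a % p) (a % D) =
      ∑ a ∈ Finset.range p, ∑ b ∈ Finset.range D, g a b := by
  rw [← Finset.sum_product']
  symm
  refine Finset.sum_nbij' (fun x => (Nat.chineseRemainder h x.1 x.2 : ℕ)) (fun a => (a % p, a % D))
    ?_ ?_ ?_ ?_ ?_
  · intro x _
    rw [Finset.mem_range]
    exact Nat.chineseRemainder_lt_mul h _ _ (by omega) (by omega)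
  · intro a _
    rw [Finset.mem_product, Finset.mem_range, Finset.mem_range]
    exact ⟨Nat.mod_lt _ hp, Nat.mod_lt _ hD⟩
  · intro x hx
    rw [Finset.mem_product, Finset.mem_range, Finset.mem_range] at hx
    have h1 := (Nat.chineseRemainder h x.1 x.2).2
    ext
    · have := h1.1
      unfold Nat.ModEq at this
      simpa [Nat.mod_eq_of_lt hx.1] using this
    · have := h1.2
      unfold Nat.ModEq at this
      simpa [Nat.mod_eq_of_lt hx.2] using this
  · intro a ha
    rw [Finset.mem_range] at ha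
    have h1 : a ≡ a % p [MOD p] := (Nat.mod_modEq a p).symm
    have h2 : a ≡ a % D [MOD D] := (Nat.mod_modEq a D).symm
    have h3 := Nat.chineseRemainder_modEq_unique h h1 h2
    have h4 := Nat.chineseRemainder_lt_mul h (a % p) (a % D) (by omega) (by omega)
    unfold Nat.ModEq at h3
    rw [Nat.mod_eq_of_lt ha, Nat.mod_eq_of_lt h4] at h3
    exact h3.symm
  · intro x hx
    rw [Finset.mem_product, Finset.mem_range, Finset.mem_range] at hx
    have h1 := (Nat.chineseRemainder h x.1 x.2).2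
    have e1 : (Nat.chineseRemainder h x.1 x.2 : ℕ) % p = x.1 := by
      have := h1.1
      unfold Nat.ModEq at this
      simpa [Nat.mod_eq_of_lt hx.1] using this
    have e2 : (Nat.chineseRemainder h x.1 x.2 : ℕ) % D = x.2 := by
      have := h1.2
      unfold Nat.ModEq at this
      simpa [Nat.mod_eq_of_lt hx.2] using this
    rw [e1, e2]

end Pool.Agent.H500R2
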