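import Mathlib
import Pool.Agent.H500R2.Brun

set_option autoImplicit false

namespace Pool.Agent.H500R2

open Finset

lemma crt_prod (t : ℕ → ℕ → ℕ → ℝ) (hper : ∀ p m n, t p (m % p) (n % p) = t p m n)
    (τ : ℕ → ℝ) (J : Finset ℕ) (hJ : ∀ p ∈ J, p.Prime)
    (hτ : ∀ p ∈ J, ∑ a ∈ Finset.range p, ∑ b ∈ Finset.range p, t p a b = τ p * (p : ℝ) ^ 2) :
    ∑ a ∈ Finset.range (∏ p ∈ J, p), ∑ b ∈ Finset.range (∏ p ∈ J, p), ∏ p ∈ J, t p a b =
      (((∏ p ∈ J, p : ℕ) : ℝ)) ^ 2 * ∏ p ∈ J, τ p := by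
  classical
  induction J using Finset.induction_on with
  | empty => simp
  | insert p J hp ih =>
    have ihJ := ih (fun q hq => hJ q (Finset.mem_insert_of_mem hq))
      (fun q hq => hτ q (Finset.mem_insert_of_mem hq))
    have hpp : p.Prime := hJ p (Finset.mem_insert_self _ _)
    set D := ∏ q ∈ J, q with hD
    have hD0 : 0 < D := Finset.prod_pos fun q hq => (hJ q (Finset.mem_insert_of_mem hq)).pos
    have hcop : Nat.Coprime p D := by
      rw [hD]
      apply Nat.Coprime.prod_right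
      intro q hq
      exact (Nat.coprime_primes hpp (hJ q (Finset.mem_insert_of_mem hq))).2
        (fun h => hp (h ▸ hq))
    set T : ℕ → ℕ → ℝ := fun a b => ∏ q ∈ J, t q a b with hT
    have hTper : ∀ a b, T (a % D) (b % D) = T a b := by
      intro a b
      rw [hT]
      apply Finset.prod_congr rfl
      intro q hq
      have hqD : q ∣ D := by rw [hD]; exact Finset.dvd_prod_of_mem _ hq
      rw [← hper q (a % D) (b % D), Nat.mod_mod_of_dvd _ hqD, Nat.mod_mod_of_dvd _ hqD, hper]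
    rw [Finset.prod_insert hp, Finset.prod_insert hp]
    have e1 : ∑ a ∈ Finset.range (p * D), ∑ b ∈ Finset.range (p * D), ∏ q ∈ insert p J, t q a b =
        ∑ a ∈ Finset.range (p * D), ∑ b ∈ Finset.range (p * D),
          t p (a % p) (b % p) * T (a % D) (b % D) := by
      apply Finset.sum_congr rfl; intro a _
      apply Finset.sum_congr rfl; intro b _
      rw [Finset.prod_insert hp, hper, hTper]
    rw [e1]
    have e2 : ∀ a, ∑ b ∈ Finset.range (p * D), t p (a % p) (b % p) * T (a % D) (b % D) =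
        ∑ b1 ∈ Finset.range p, ∑ b2 ∈ Finset.range D, t p (a % p) b1 * T (a % D) b2 := by
      intro a
      exact sum_crt hpp.pos hD0 hcop (fun b1 b2 => t p (a % p) b1 * T (a % D) b2)
    simp only [e2]
    rw [sum_crt hpp.pos hD0 hcop
      (fun a1 a2 => ∑ b1 ∈ Finset.range p, ∑ b2 ∈ Finset.range D, t p a1 b1 * T a2 b2)]
    have e3 : ∀ a1 a2, ∑ b1 ∈ Finset.range p, ∑ b2 ∈ Finset.range D, t p a1 b1 * T a2 b2 =
        (∑ b1 ∈ Finset.range p, t p a1 b1) * ∑ b2 ∈ Finset.range D, T a2 b2 := by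
      intro a1 a2; rw [Finset.sum_mul_sum]
    simp only [e3]
    rw [← Finset.sum_mul_sum, hτ p (Finset.mem_insert_self _ _), ihJ, Nat.cast_mul]
    ring

theorem brun (t : ℕ → ℕ → ℕ → ℝ) (ht0 : ∀ p m n, 0 ≤ t p m n) (ht1 : ∀ p m n, t p m n ≤ 1)
    (hper : ∀ p m n, t p (m % p) (n % p) = t p m n)
    (τ : ℕ → ℝ) (hτ0 : ∀ p, 0 ≤ τ p) (hτ1 : ∀ p, τ p ≤ 1) (S : Finset ℕ) (hS : ∀ p ∈ S, p.Prime)
    (hτ : ∀ p ∈ S, ∑ a ∈ Finset.range p, ∑ b ∈ Finset.range p, t p a b = τ p * (p : ℝ) ^ 2)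
    (P R : ℕ) (hR : Even R) (hP : ∀ p ∈ S, p ≤ P) (hP1 : 1 ≤ P) (A H B K : ℕ) (hH : P ^ R ≤ H)
    (hK : P ^ R ≤ K) :
    ∑ m ∈ Finset.Ico A (A + H), ∑ n ∈ Finset.Ico B (B + K), ∏ p ∈ S, (1 - t p m n) ≤
      (H : ℝ) * K * (Real.exp (-∑ p ∈ S, τ p) +
        Real.exp (Real.exp 1 * (∑ p ∈ S, τ p) - (R + 1)) +
        3 * ((P : ℝ) ^ R / H + (P : ℝ) ^ R / K) * Real.exp (∑ p ∈ S, τ p)) := by
  classical
  set T := ∑ p ∈ S, τ p with hT
  have hPR : 1 ≤ P ^ R := Nat.one_le_pow _ _ hP1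
  have hHp : (0 : ℝ) < H := by exact_mod_cast (lt_of_lt_of_le hPR hH)
  have hKp : (0 : ℝ) < K := by exact_mod_cast (lt_of_lt_of_le hPR hK)
  -- pointwise Bonferroni
  have h1 : ∀ m n, ∏ p ∈ S, (1 - t p m n) ≤ BB R S (fun p => t p m n) := by
    intro m n
    have := bonferroni (t := fun p => t p m n) (fun p => ht0 p m n) (fun p => ht1 p m n) S R
    rw [hR.neg_one_pow, one_mul] at this
    linarith
  -- box sums of products
  have h2 : ∀ j ≤ R, ∀ J ∈ S.powersetCard j,
      |∑ m ∈ Finset.Ico A (A + H), ∑ n ∈ Finset.Ico B (B + K), ∏ p ∈ J, t p m n -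
        (H : ℝ) * K * ∏ p ∈ J, τ p| ≤
        3 * ((P : ℝ) ^ R / H + (P : ℝ) ^ R / K) * ((H : ℝ) * K * ∏ p ∈ J, τ p) := by
    intro j hj J hJ
    rw [Finset.mem_powersetCard] at hJ
    set D := ∏ p ∈ J, p with hD
    have hJp : ∀ p ∈ J, p.Prime := fun p hp => hS p (hJ.1 hp)
    have hD0 : 0 < D := Finset.prod_pos fun q hq => (hJp q hq).pos
    have hDP : D ≤ P ^ R := by
      calc D ≤ ∏ _p ∈ J, P := Finset.prod_le_prod' fun p hp => hP p (hJ.1 hp)
        _ = P ^ j := by rw [Finset.prod_const, hJ.2]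
        _ ≤ P ^ R := Nat.pow_le_pow_right hP1 hj
    have hper1 : ∀ m n, ∏ p ∈ J, t p (m + D) n = ∏ p ∈ J, t p m n := by
      intro m n
      apply Finset.prod_congr rfl
      intro q hq
      obtain ⟨c, hc⟩ : q ∣ D := by rw [hD]; exact Finset.dvd_prod_of_mem _ hq
      rw [← hper q (m + D) n, ← hper q m n, hc, Nat.add_mul_mod_self_left]
    have hper2 : ∀ m n, ∏ p ∈ J, t p m (n + D) = ∏ p ∈ J, t p m n := by
      intro m n
      apply Finset.prod_congr rfl
      intro q hq
      obtain ⟨c, hc⟩ : q ∣ D := by rw [hD]; exact Finset.dvd_prod_of_mem _ hq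
      rw [← hper q m (n + D), ← hper q m n, hc, Nat.add_mul_mod_self_left]
    have hb := sum_box hD0 hper1 hper2
      (fun m n => Finset.prod_nonneg fun p _ => ht0 p m n) A H B K (hDP.trans hH) (hDP.trans hK)
    have hcrt := crt_prod t hper τ J hJp (fun p hp => hτ p (hJ.1 hp))
    rw [← hD] at hcrt
    rw [hcrt] at hb
    have hDr : (0 : ℝ) < D := by exact_mod_cast hD0
    have e1 : (D : ℝ) ^ 2 * (∏ p ∈ J, τ p) / (D : ℝ) ^ 2 = ∏ p ∈ J, τ p := by
      field_simp
    rw [e1] at hb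
    refine hb.trans ?_
    apply mul_le_mul_of_nonneg_right
    · have hDP' : (D : ℝ) ≤ (P : ℝ) ^ R := by exact_mod_cast hDP
      have := div_le_div_of_nonneg_right hDP' hHp.le
      have := div_le_div_of_nonneg_right hDP' hKp.le
      linarith
    · have : 0 ≤ ∏ p ∈ J, τ p := Finset.prod_nonneg fun p _ => hτ0 p
      positivity
  set δ := 3 * ((P : ℝ) ^ R / H + (P : ℝ) ^ R / K) with hδ
  have hδ0 : 0 ≤ δ := by positivity
  calc ∑ m ∈ Finset.Ico A (A + H), ∑ n ∈ Finset.Ico B (B + K), ∏ p ∈ S, (1 - t p m n)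
      ≤ ∑ m ∈ Finset.Ico A (A + H), ∑ n ∈ Finset.Ico B (B + K), BB R S (fun p => t p m n) :=
        Finset.sum_le_sum fun m _ => Finset.sum_le_sum fun n _ => h1 m n
    _ = ∑ j ∈ Finset.range (R + 1), (-1) ^ j * ∑ J ∈ S.powersetCard j,
          ∑ m ∈ Finset.Ico A (A + H), ∑ n ∈ Finset.Ico B (B + K), ∏ p ∈ J, t p m n := by
        unfold BB EE
        simp only [Finset.mul_sum]
        have e1 : ∀ m ∈ Finset.Ico A (A + H), ∑ n ∈ Finset.Ico B (B + K),
            ∑ j ∈ Finset.range (R + 1), ∑ J ∈ S.powersetCard j, (-1 : ℝ) ^ j * ∏ p ∈ J, t p m n =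
            ∑ j ∈ Finset.range (R + 1), ∑ J ∈ S.powersetCard j, ∑ n ∈ Finset.Ico B (B + K),
              (-1 : ℝ) ^ j * ∏ p ∈ J, t p m n := by
          intro m _
          rw [Finset.sum_comm]
          apply Finset.sum_congr rfl; intro j _
          rw [Finset.sum_comm]
        rw [Finset.sum_congr rfl e1, Finset.sum_comm]
        apply Finset.sum_congr rfl; intro j _
        rw [Finset.sum_comm]
    _ ≤ ∑ j ∈ Finset.range (R + 1), (-1) ^ j * ∑ J ∈ S.powersetCard j, ((H : ℝ) * K * ∏ p ∈ J, τ p) +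
        ∑ j ∈ Finset.range (R + 1), ∑ J ∈ S.powersetCard j, δ * ((H : ℝ) * K * ∏ p ∈ J, τ p) := by
        rw [← Finset.sum_add_distrib]
        apply Finset.sum_le_sum
        intro j hj
        have hj' : j ≤ R := by have := Finset.mem_range.1 hj; omega
        rw [Finset.mul_sum, Finset.mul_sum, ← Finset.sum_add_distrib]
        apply Finset.sum_le_sum
        intro J hJ
        have hab := abs_le.1 (h2 j hj' J hJ)
        rcases Nat.even_or_odd j with h | h
        · rw [h.neg_one_pow]; linarith [hab.2]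
        · rw [h.neg_one_pow]; linarith [hab.1]
    _ = (H : ℝ) * K * (BB R S τ + δ * ∑ j ∈ Finset.range (R + 1), EE j S τ) := by
        unfold BB EE
        simp only [Finset.mul_sum, mul_add]
        congr 1
        · apply Finset.sum_congr rfl; intro j _
          apply Finset.sum_congr rfl; intro J _; ring
        · apply Finset.sum_congr rfl; intro j _
          apply Finset.sum_congr rfl; intro J _; ring
    _ ≤ _ := by
        apply mul_le_mul_of_nonneg_left _ (by positivity)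
        have hb := bonferroni hτ0 hτ1 S (R + 1)
        have hR1 : Odd (R + 1) := hR.add_one
        rw [hR1.neg_one_pow] at hb
        have hbb : BB (R + 1) S τ = BB R S τ - EE (R + 1) S τ := by
          unfold BB
          rw [Finset.sum_range_succ (fun j => (-1 : ℝ) ^ j * EE j S τ) (R + 1), hR1.neg_one_pow]
          ring
        rw [hbb] at hb
        have h3 : ∏ p ∈ S, (1 - τ p) ≤ Real.exp (-T) := by
          rw [hT, ← Finset.sum_neg_distrib, Real.exp_sum]
          apply Finset.prod_le_prod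
          · intro p _; linarith [hτ1 p]
          · intro p _
            have := Real.add_one_le_exp (-τ p)
            linarith
        have h4 : EE (R + 1) S τ ≤ Real.exp (Real.exp 1 * T - (R + 1)) := by
          have := EE_le hτ0 (R + 1) S (Real.exp_pos 1)
          rw [Real.exp_sub, le_div_iff₀ (Real.exp_pos _), mul_comm]
          have e : Real.exp ((R : ℝ) + 1) = Real.exp 1 ^ (R + 1) := by
            rw [← Real.exp_nat_mul]; push_cast; ring_nf
          rw [e]; exact this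
        have h5 : δ * ∑ j ∈ Finset.range (R + 1), EE j S τ ≤ δ * Real.exp T :=
          mul_le_mul_of_nonneg_left (sum_EE_le hτ0 R S) hδ0
        linarith

end Pool.Agent.H500R2
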