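import Mathlib
import Pool.Agent.H500R2.Base
import Pool.Agent.H500R2.Brun2

set_option autoImplicit false
set_option linter.unusedSectionVars false
set_option linter.unnecessarySeqFocus false

namespace Pool.Agent.H500R2

open Finset

/-- weight for the even number -/
noncomputable def ye (Z P : ℕ) (y : ℝ) (p : ℕ) : ℝ :=
  if p = 2 then 1 else if p ≤ Z then 0 else if p ≤ P then y else 1

/-- weight for the partner -/
noncomputable def zb (Z P : ℕ) (z : ℝ) (p : ℕ) : ℝ :=
  if p ≤ Z then 1 else if p ≤ P then z else 1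

lemma ye_nonneg {Z P : ℕ} {y : ℝ} (h0 : 0 ≤ y) (p : ℕ) : 0 ≤ ye Z P y p := by
  unfold ye; split_ifs <;> norm_num <;> exact h0

lemma ye_le_one {Z P : ℕ} {y : ℝ} (h1 : y ≤ 1) (p : ℕ) : ye Z P y p ≤ 1 := by
  unfold ye; split_ifs <;> norm_num <;> exact h1

lemma zb_nonneg {Z P : ℕ} {z : ℝ} (h0 : 0 ≤ z) (p : ℕ) : 0 ≤ zb Z P z p := by
  unfold zb; split_ifs <;> norm_num <;> exact h0

lemma zb_le_one {Z P : ℕ} {z : ℝ} (h1 : z ≤ 1) (p : ℕ) : zb Z P z p ≤ 1 := by
  unfold zb; split_ifs <;> norm_num <;> exact h1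

/-- reciprocal sum over primes in `(Z, P]` -/
noncomputable def SS (Z P : ℕ) : ℝ := ∑ p ∈ (PP P).filter (fun p => Z < p), (1 : ℝ) / p

/-- reciprocal sum over primes `≤ min Z P` -/
noncomputable def LM (Z P : ℕ) : ℝ := ∑ p ∈ (PP P).filter (fun p => ¬ Z < p), (1 : ℝ) / p

lemma SS_add_LM (Z P : ℕ) : SS Z P + LM Z P = L P :=
  Finset.sum_filter_add_sum_filter_not _ _ _

lemma SS_nonneg (Z P : ℕ) : 0 ≤ SS Z P := Finset.sum_nonneg fun p _ => by positivity

lemma LM_nonneg (Z P : ℕ) : 0 ≤ LM Z P := Finset.sum_nonneg fun p _ => by positivity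

/-- local defect -/
noncomputable def tt (Z P : ℕ) (y z : ℝ) (p m n : ℕ) : ℝ :=
  if p ∣ m ∧ p ∣ n then 0 else if p ∣ m then 1 - ye Z P y p else if p ∣ n then 1 - zb Z P z p
    else if p ∣ m + n then 1 - ye Z P y p * zb Z P z p else 0

noncomputable def kap (Z P : ℕ) (y z : ℝ) (p : ℕ) : ℝ :=
  3 - ye Z P y p - zb Z P z p - ye Z P y p * zb Z P z p

section
variable {Z P : ℕ} {y z : ℝ} (hy0 : 0 ≤ y) (hy1 : y ≤ 1) (hz0 : 0 ≤ z) (hz1 : z ≤ 1)
include hy0 hy1 hz0 hz1

lemma tt_nonneg (p m n : ℕ) : 0 ≤ tt Z P y z p m n := by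
  have a1 := ye_nonneg (Z := Z) (P := P) hy0 p
  have a2 := ye_le_one (Z := Z) (P := P) hy1 p
  have a3 := zb_nonneg (Z := Z) (P := P) hz0 p
  have a4 := zb_le_one (Z := Z) (P := P) hz1 p
  unfold tt
  split_ifs
  · exact le_rfl
  · linarith
  · linarith
  · nlinarith
  · exact le_rfl

lemma tt_le_one (p m n : ℕ) : tt Z P y z p m n ≤ 1 := by
  have a1 := ye_nonneg (Z := Z) (P := P) hy0 p
  have a2 := ye_le_one (Z := Z) (P := P) hy1 p
  have a3 := zb_nonneg (Z := Z) (P := P) hz0 p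
  have a4 := zb_le_one (Z := Z) (P := P) hz1 p
  unfold tt
  split_ifs
  · norm_num
  · linarith
  · linarith
  · nlinarith [mul_nonneg a1 a3]
  · norm_num

lemma kap_nonneg (p : ℕ) : 0 ≤ kap Z P y z p := by
  have a1 := ye_nonneg (Z := Z) (P := P) hy0 p
  have a2 := ye_le_one (Z := Z) (P := P) hy1 p
  have a3 := zb_nonneg (Z := Z) (P := P) hz0 p
  have a4 := zb_le_one (Z := Z) (P := P) hz1 p
  unfold kap; nlinarith

lemma kap_le (p : ℕ) : kap Z P y z p ≤ 3 := by
  have a1 := ye_nonneg (Z := Z) (P := P) hy0 p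
  have a3 := zb_nonneg (Z := Z) (P := P) hz0 p
  unfold kap; nlinarith [mul_nonneg a1 a3]

end

lemma tt_per (Z P : ℕ) (y z : ℝ) (p m n : ℕ) :
    tt Z P y z p (m % p) (n % p) = tt Z P y z p m n := by
  have h1 : p ∣ m % p ↔ p ∣ m := by
    rw [Nat.dvd_mod_iff (dvd_refl p)]
  have h2 : p ∣ n % p ↔ p ∣ n := by
    rw [Nat.dvd_mod_iff (dvd_refl p)]
  have h3 : p ∣ m % p + n % p ↔ p ∣ m + n := by
    rw [Nat.dvd_iff_mod_eq_zero, Nat.dvd_iff_mod_eq_zero, ← Nat.add_mod]
  unfold tt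
  simp only [h1, h2, h3]

lemma tt_sum (Z P : ℕ) (y z : ℝ) {p : ℕ} (hp : p.Prime) :
    ∑ a ∈ Finset.range p, ∑ b ∈ Finset.range p, tt Z P y z p a b =
      (kap Z P y z p * ((p : ℝ) - 1) / (p : ℝ) ^ 2) * (p : ℝ) ^ 2 := by
  have hp2 := hp.two_le
  set A := ye Z P y p with hA
  set B := zb Z P z p with hB
  have hdvd : ∀ a, a < p → (p ∣ a ↔ a = 0) := by
    intro a ha
    constructor
    · intro h; exact Nat.eq_zero_of_dvd_of_lt h ha
    · rintro rfl; exact dvd_zero p
  have e : ∀ a ∈ Finset.range p, ∑ b ∈ Finset.range p, tt Z P y z p a b =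
      (if a = 0 then ((p : ℝ) - 1) * (1 - A) else (1 - B) + (1 - A * B)) := by
    intro a ha
    rw [Finset.mem_range] at ha
    split_ifs with h0
    · subst h0
      have e1 : ∀ b ∈ Finset.range p, tt Z P y z p 0 b = (1 - A) - (if b = 0 then (1 - A) else 0) := by
        intro b hb
        rw [Finset.mem_range] at hb
        unfold tt
        have hpb := hdvd b hb
        by_cases hb0 : b = 0
        · simp [hb0]
        · have hpb' : ¬ p ∣ b := fun h => hb0 (hpb.1 h)
          simp only [hb0, hpb', dvd_zero, and_false, if_false, if_true, sub_zero]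
          rfl
      rw [Finset.sum_congr rfl e1, Finset.sum_sub_distrib, Finset.sum_ite_eq',
        if_pos (Finset.mem_range.2 (by omega)), Finset.sum_const, Finset.card_range, nsmul_eq_mul]
      ring
    · have hna : ¬ p ∣ a := by rw [hdvd a ha]; exact h0
      have e1 : ∀ b ∈ Finset.range p, tt Z P y z p a b =
          (if b = 0 then (1 - B) else 0) + (if b = p - a then (1 - A * B) else 0) := by
        intro b hb
        rw [Finset.mem_range] at hb
        unfold tt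
        have hpb := hdvd b hb
        by_cases hb0 : b = 0
        · have : ¬ (b = p - a) := by omega
          have hpb' : p ∣ b := hpb.2 hb0
          rw [if_neg (fun h => hna h.1), if_neg hna, if_pos hpb', if_pos hb0, if_neg this, add_zero]
        · have h3 : p ∣ a + b ↔ b = p - a := by
            constructor
            · rintro ⟨c, hc⟩
              have hc1 : c < 2 := by
                by_contra hcc
                have : p * 2 ≤ p * c := Nat.mul_le_mul_left p (by omega)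
                omega
              have hc0 : 0 < c := by
                rcases Nat.eq_zero_or_pos c with h | h
                · subst h; omega
                · exact h
              have : c = 1 := by omega
              subst this; omega
            · intro h; exact ⟨1, by omega⟩
          have hpb' : ¬ p ∣ b := fun h => hb0 (hpb.1 h)
          rw [if_neg (fun h => hna h.1), if_neg hna, if_neg hpb', if_neg hb0, zero_add]
          by_cases h4 : b = p - a
          · rw [if_pos (h3.2 h4), if_pos h4]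
          · rw [if_neg (fun h => h4 (h3.1 h)), if_neg h4]
      rw [Finset.sum_congr rfl e1, Finset.sum_add_distrib, Finset.sum_ite_eq', Finset.sum_ite_eq',
        if_pos (Finset.mem_range.2 (by omega)), if_pos (Finset.mem_range.2 (by omega))]
  rw [Finset.sum_congr rfl e]
  have e2 : ∀ a ∈ Finset.range p, (if a = 0 then ((p : ℝ) - 1) * (1 - A) else (1 - B) + (1 - A * B)) =
      ((1 - B) + (1 - A * B)) + (if a = 0 then ((p : ℝ) - 1) * (1 - A) - ((1 - B) + (1 - A * B)) else 0) := by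
    intro a _
    split_ifs <;> ring
  rw [Finset.sum_congr rfl e2, Finset.sum_add_distrib, Finset.sum_ite_eq',
    if_pos (Finset.mem_range.2 (by omega)), Finset.sum_const, Finset.card_range, nsmul_eq_mul]
  have hp0 : (p : ℝ) ≠ 0 := by exact_mod_cast hp.ne_zero
  rw [div_mul_cancel₀ _ (pow_ne_zero 2 hp0)]
  unfold kap
  rw [← hA, ← hB]
  ring

/-- expected defect -/
noncomputable def tau (Z P : ℕ) (y z : ℝ) (p : ℕ) : ℝ :=
  kap Z P y z p * ((p : ℝ) - 1) / (p : ℝ) ^ 2

section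
variable {Z P : ℕ} {y z : ℝ} (hy0 : 0 ≤ y) (hy1 : y ≤ 1) (hz0 : 0 ≤ z) (hz1 : z ≤ 1)
include hy0 hy1 hz0 hz1

lemma tau_nonneg (p : ℕ) : 0 ≤ tau Z P y z p := by
  unfold tau
  rcases Nat.eq_zero_or_pos p with h | h
  · subst h; simp
  · have : (1 : ℝ) ≤ p := by exact_mod_cast h
    have h1 := kap_nonneg (Z := Z) (P := P) hy0 hy1 hz0 hz1 p
    apply div_nonneg (mul_nonneg h1 (by linarith)) (by positivity)

lemma tau_le_one (p : ℕ) : tau Z P y z p ≤ 1 := by
  unfold tau
  rcases Nat.eq_zero_or_pos p with h | h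
  · subst h; simp
  · have : (1 : ℝ) ≤ p := by exact_mod_cast h
    have h1 := kap_nonneg (Z := Z) (P := P) hy0 hy1 hz0 hz1 p
    have h2 := kap_le (Z := Z) (P := P) hy0 hy1 hz0 hz1 p
    rw [div_le_one (by positivity)]
    nlinarith [mul_nonneg h1 (by linarith : (0 : ℝ) ≤ (p : ℝ) - 1), sq_nonneg ((p : ℝ) - 3 / 2)]

lemma tau_le (p : ℕ) : tau Z P y z p ≤ 3 * (1 / (p : ℝ)) := by
  unfold tau
  rcases Nat.eq_zero_or_pos p with h | h
  · subst h; simp
  · have hp1 : (1 : ℝ) ≤ p := by exact_mod_cast h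
    have h1 := kap_nonneg (Z := Z) (P := P) hy0 hy1 hz0 hz1 p
    have h2 := kap_le (Z := Z) (P := P) hy0 hy1 hz0 hz1 p
    rw [mul_one_div, div_le_div_iff₀ (by positivity) (by linarith)]
    have h3 : kap Z P y z p * ((p : ℝ) - 1) ≤ 3 * p := by
      nlinarith
    nlinarith [mul_le_mul_of_nonneg_right h3 (by linarith : (0 : ℝ) ≤ p)]

lemma tau_ge (p : ℕ) : kap Z P y z p / p - 3 * (1 / (p : ℝ) ^ 2) ≤ tau Z P y z p := by
  unfold tau
  rcases Nat.eq_zero_or_pos p with h | h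
  · subst h; simp
  · have hp1 : (1 : ℝ) ≤ p := by exact_mod_cast h
    have h2 := kap_le (Z := Z) (P := P) hy0 hy1 hz0 hz1 p
    have e : kap Z P y z p * ((p : ℝ) - 1) / (p : ℝ) ^ 2 =
        kap Z P y z p / p - kap Z P y z p * (1 / (p : ℝ) ^ 2) := by
      field_simp
    rw [e]
    have := mul_le_mul_of_nonneg_right h2 (by positivity : (0 : ℝ) ≤ 1 / (p : ℝ) ^ 2)
    linarith

lemma sum_tau_le : ∑ p ∈ PP P, tau Z P y z p ≤ 3 * L P := by
  unfold L
  rw [Finset.mul_sum]
  exact Finset.sum_le_sum fun p _ => tau_le hy0 hy1 hz0 hz1 p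

lemma sum_tau_ge (hZ : 2 ≤ Z) :
    2 * LM Z P + (3 - y - z - y * z) * SS Z P - 4 ≤ ∑ p ∈ PP P, tau Z P y z p := by
  have h1 : ∑ p ∈ PP P, (kap Z P y z p / p - 3 * (1 / (p : ℝ) ^ 2)) ≤ ∑ p ∈ PP P, tau Z P y z p :=
    Finset.sum_le_sum fun p _ => tau_ge hy0 hy1 hz0 hz1 p
  rw [Finset.sum_sub_distrib, ← Finset.mul_sum] at h1
  have h2 := sum_sq_PP P
  have h3 : 2 * LM Z P + (3 - y - z - y * z) * SS Z P - 1 ≤ ∑ p ∈ PP P, kap Z P y z p / p := by
    rw [← Finset.sum_filter_add_sum_filter_not (PP P) (fun p => Z < p)]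
    have e1 : ∑ p ∈ (PP P).filter (fun p => Z < p), kap Z P y z p / p =
        (3 - y - z - y * z) * SS Z P := by
      unfold SS
      rw [Finset.mul_sum]
      apply Finset.sum_congr rfl
      intro p hp
      rw [Finset.mem_filter, mem_PP] at hp
      unfold kap ye zb
      rw [if_neg (by omega), if_neg (by omega), if_pos hp.1.2, if_neg (by omega), if_pos hp.1.2]
      ring
    have e2 : 2 * LM Z P - 1 ≤ ∑ p ∈ (PP P).filter (fun p => ¬ Z < p), kap Z P y z p / p := by
      unfold LM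
      have e3 : ∀ p ∈ (PP P).filter (fun p => ¬ Z < p), kap Z P y z p / p =
          2 * ((1 : ℝ) / p) - (if p = 2 then 1 else 0) := by
        intro p hp
        rw [Finset.mem_filter, mem_PP] at hp
        unfold kap ye zb
        by_cases h : p = 2
        · rw [if_pos h, if_pos (by omega), if_pos h, h]; norm_num
        · rw [if_neg h, if_pos (by omega), if_pos (by omega), if_neg h]; ring
      rw [Finset.sum_congr rfl e3, Finset.sum_sub_distrib, ← Finset.mul_sum, Finset.sum_ite_eq']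
      have : (if (2 : ℕ) ∈ (PP P).filter (fun p => ¬ Z < p) then (1 : ℝ) else 0) ≤ 1 := by
        split_ifs <;> norm_num
      linarith
    linarith
  linarith

/-- weights of a coprime pair are bounded by the product of local factors -/
lemma weights_le {m n : ℕ} (hm : m ≠ 0) (hn : n ≠ 0) (hmn : Nat.Coprime m n) :
    W (ye Z P y) m * W (zb Z P z) n * W (fun p => ye Z P y p * zb Z P z p) (m + n) ≤
      ∏ p ∈ PP P, (1 - tt Z P y z p m n) := by
  have a1 := ye_nonneg (Z := Z) (P := P) hy0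
  have a2 := ye_le_one (Z := Z) (P := P) hy1
  have a3 := zb_nonneg (Z := Z) (P := P) hz0
  have a4 := zb_le_one (Z := Z) (P := P) hz1
  have hS : ∀ p ∈ PP P, p.Prime := fun p hp => (mem_PP.1 hp).1
  have b1 := W_le_prod a1 a2 hm (PP P) hS
  have b2 := W_le_prod a3 a4 hn (PP P) hS
  have b3 := W_le_prod (c := fun p => ye Z P y p * zb Z P z p)
    (fun p => mul_nonneg (a1 p) (a3 p)) (fun p => mul_le_one₀ (a2 p) (a3 p) (a4 p))
    (n := m + n) (by omega) (PP P) hS
  have c1 : 0 ≤ W (ye Z P y) m := W_nonneg a1 _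
  have c2 : 0 ≤ W (zb Z P z) n := W_nonneg a3 _
  have c3 : 0 ≤ W (fun p => ye Z P y p * zb Z P z p) (m + n) :=
    W_nonneg (fun p => mul_nonneg (a1 p) (a3 p)) _
  calc _ ≤ (∏ p ∈ PP P, (if p ∣ m then ye Z P y p else 1)) *
        (∏ p ∈ PP P, (if p ∣ n then zb Z P z p else 1)) *
        ∏ p ∈ PP P, (if p ∣ m + n then ye Z P y p * zb Z P z p else 1) :=
        mul_le_mul (mul_le_mul b1 b2 c2 (c1.trans b1)) b3 c3
          (mul_nonneg (c1.trans b1) (c2.trans b2))
    _ = ∏ p ∈ PP P, (1 - tt Z P y z p m n) := by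
        rw [← Finset.prod_mul_distrib, ← Finset.prod_mul_distrib]
        apply Finset.prod_congr rfl
        intro p hp
        have hpp := hS p hp
        unfold tt
        by_cases h1 : p ∣ m
        · have h2 : ¬ p ∣ n := by
            intro h2
            exact hpp.one_lt.ne' (Nat.dvd_one.1 (hmn ▸ Nat.dvd_gcd h1 h2))
          have h3 : ¬ p ∣ m + n := by
            rw [Nat.dvd_add_right h1]; exact h2
          simp only [h1, h2, h3, and_false, if_false, if_true]; ring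
        · by_cases h2 : p ∣ n
          · have h3 : ¬ p ∣ m + n := by
              rw [Nat.dvd_add_left h2]; exact h1
            simp only [h1, h2, h3, false_and, if_false, if_true]; ring
          · by_cases h3 : p ∣ m + n
            · simp only [h1, h2, h3, false_and, if_false, if_true]; ring
            · simp only [h1, h2, h3, false_and, if_false]; ring

theorem box_bound (hZ : 2 ≤ Z) (hP : 1 ≤ P) (R i : ℕ) (hR : Even R)
    (h1 : (Real.exp 1 + 1) * (3 * L P) ≤ R + 1)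
    (h2 : 6 * (P : ℝ) ^ R * Real.exp (6 * L P) ≤ (2 : ℝ) ^ i) :
    ∑ m ∈ Finset.Ico (2 ^ i) (2 ^ (i + 1)), ∑ n ∈ Finset.Ico 0 (2 ^ (i + 2)),
      ∏ p ∈ PP P, (1 - tt Z P y z p m n) ≤
      12 * (4 : ℝ) ^ i * Real.exp (4 - 2 * LM Z P - (3 - y - z - y * z) * SS Z P) := by
  set T := ∑ p ∈ PP P, tau Z P y z p with hT
  have hT0 : 0 ≤ T := Finset.sum_nonneg fun p _ => tau_nonneg hy0 hy1 hz0 hz1 p
  have hT3 : T ≤ 3 * L P := sum_tau_le hy0 hy1 hz0 hz1
  have hL0 : 0 ≤ L P := Finset.sum_nonneg fun p _ => by positivity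
  have hexp1 : 1 ≤ Real.exp (6 * L P) := Real.one_le_exp (by linarith)
  have hPRr : 0 < (P : ℝ) ^ R := by
    have : (0 : ℝ) < P := by exact_mod_cast hP
    positivity
  have hPi : (P : ℝ) ^ R ≤ (2 : ℝ) ^ i := by nlinarith
  have hPi' : P ^ R ≤ 2 ^ i := by exact_mod_cast hPi
  have hb := brun (tt Z P y z) (tt_nonneg hy0 hy1 hz0 hz1) (tt_le_one hy0 hy1 hz0 hz1)
    (tt_per Z P y z) (tau Z P y z) (tau_nonneg hy0 hy1 hz0 hz1) (tau_le_one hy0 hy1 hz0 hz1)
    (PP P) (fun p hp => (mem_PP.1 hp).1)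
    (fun p hp => tt_sum Z P y z (mem_PP.1 hp).1) P R hR (fun p hp => (mem_PP.1 hp).2) hP
    (2 ^ i) (2 ^ i) 0 (2 ^ (i + 2)) hPi' (hPi'.trans (Nat.pow_le_pow_right (by norm_num) (by omega)))
  rw [← hT] at hb
  have e0 : 2 ^ i + 2 ^ i = 2 ^ (i + 1) := by rw [pow_succ]; ring
  rw [e0, zero_add] at hb
  refine hb.trans ?_
  have hi0 : (0 : ℝ) < 2 ^ i := by positivity
  have a1 : Real.exp (Real.exp 1 * T - (R + 1)) ≤ Real.exp (-T) := by
    apply Real.exp_le_exp.2
    have := Real.exp_pos 1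
    nlinarith
  have a2 : 3 * ((P : ℝ) ^ R / ((2 ^ i : ℕ) : ℝ) + (P : ℝ) ^ R / ((2 ^ (i + 2) : ℕ) : ℝ)) * Real.exp T ≤
      Real.exp (-T) := by
    have b1 : (P : ℝ) ^ R / ((2 ^ (i + 2) : ℕ) : ℝ) ≤ (P : ℝ) ^ R / (2 : ℝ) ^ i := by
      apply div_le_div_of_nonneg_left hPRr.le hi0
      push_cast
      exact pow_le_pow_right₀ (by norm_num) (by omega)
    have b2 : ((2 ^ i : ℕ) : ℝ) = (2 : ℝ) ^ i := by push_cast; rfl
    rw [b2]
    have b3 : 3 * ((P : ℝ) ^ R / (2 : ℝ) ^ i + (P : ℝ) ^ R / ((2 ^ (i + 2) : ℕ) : ℝ)) ≤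
        6 * ((P : ℝ) ^ R / (2 : ℝ) ^ i) := by linarith
    have b4 : 6 * ((P : ℝ) ^ R / (2 : ℝ) ^ i) ≤ Real.exp (-(6 * L P)) := by
      rw [Real.exp_neg, ← mul_div_assoc, div_le_iff₀ hi0, ← div_eq_inv_mul,
        le_div_iff₀ (Real.exp_pos _)]
      exact h2
    calc _ ≤ Real.exp (-(6 * L P)) * Real.exp T :=
          mul_le_mul_of_nonneg_right (b3.trans b4) (Real.exp_pos _).le
      _ = Real.exp (-(6 * L P) + T) := (Real.exp_add _ _).symm
      _ ≤ _ := Real.exp_le_exp.2 (by linarith)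
  have a3 : Real.exp (-T) ≤ Real.exp (4 - 2 * LM Z P - (3 - y - z - y * z) * SS Z P) := by
    apply Real.exp_le_exp.2
    have := sum_tau_ge (Z := Z) (P := P) hy0 hy1 hz0 hz1 hZ
    rw [← hT] at this
    linarith
  have e1 : ((2 ^ i : ℕ) : ℝ) * ((2 ^ (i + 2) : ℕ) : ℝ) = 4 * (4 : ℝ) ^ i := by
    push_cast
    have : (4 : ℝ) ^ i = 2 ^ i * 2 ^ i := by rw [← mul_pow]; norm_num
    rw [this, pow_add]; ring
  rw [e1]
  have h4 : (0 : ℝ) < 4 ^ i := by positivity
  calc _ ≤ 4 * (4 : ℝ) ^ i * (Real.exp (-T) + Real.exp (-T) + Real.exp (-T)) := by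
        apply mul_le_mul_of_nonneg_left _ (by positivity)
        linarith
    _ = 12 * (4 : ℝ) ^ i * Real.exp (-T) := by ring
    _ ≤ _ := mul_le_mul_of_nonneg_left a3 (by positivity)

end

end Pool.Agent.H500R2
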