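import Mathlib
import Pool.Agent.H500R2.Base

set_option autoImplicit false

namespace Pool.Agent.H500R2

open Finset

/-- all prime factors exceed `Z` -/
def Rough (Z u : ℕ) : Prop := ∀ p : ℕ, p.Prime → p ∣ u → Z < p

lemma W_eq_one_of {c : ℕ → ℝ} {n : ℕ} (h : ∀ p, p.Prime → p ∣ n → c p = 1) : W c n = 1 := by
  rw [W_eq_prod]
  apply Finset.prod_eq_one
  intro p hp
  rw [Nat.mem_primeFactors] at hp
  rw [h p hp.1 hp.2.1, one_pow]

lemma W_eq_zero_of {c : ℕ → ℝ} {n p : ℕ} (hn : n ≠ 0) (hp : p.Prime) (hpn : p ∣ n) (hc : c p = 0) :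
    W c n = 0 := by
  rw [W_eq_prod]
  apply Finset.prod_eq_zero (i := p)
  · rw [Nat.mem_primeFactors]; exact ⟨hp, hpn, hn⟩
  · rw [hc]
    apply zero_pow
    have := hp.factorization_pos_of_dvd hn hpn
    omega

open scoped Classical in
/-- the `Z`-rough numbers up to `X` -/
noncomputable def RS (Z X : ℕ) : Finset ℕ := (Finset.Icc 1 X).filter (fun u => Rough Z u)

lemma mem_RS {Z X u : ℕ} : u ∈ RS Z X ↔ (1 ≤ u ∧ u ≤ X) ∧ Rough Z u := by
  classical
  unfold RS
  rw [Finset.mem_filter, Finset.mem_Icc]

theorem rough_lower (Z X : ℕ) :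
    Real.log X ≤ Real.exp (L Z + 9) * ∑ u ∈ RS Z X, (1 : ℝ) / u := by
  classical
  set cs : ℕ → ℝ := fun p => if p ≤ Z then 1 else 0 with hcs
  set R := RS Z X with hR
  -- smooth and rough parts
  let sp : ℕ → ℕ := fun n => (n.factorization.filter (fun p => p ≤ Z)).prod (fun p k => p ^ k)
  let rp : ℕ → ℕ := fun n => (n.factorization.filter (fun p => ¬ p ≤ Z)).prod (fun p k => p ^ k)
  have hmul : ∀ n, n ≠ 0 → sp n * rp n = n := by
    intro n hn
    show (n.factorization.filter (fun p => p ≤ Z)).prod (fun p k => p ^ k) *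
      (n.factorization.filter (fun p => ¬ p ≤ Z)).prod (fun p k => p ^ k) = n
    rw [Finsupp.prod_filter_mul_prod_filter_not]
    exact Nat.prod_factorization_pow_eq_self hn
  have hsf : ∀ n, (sp n).factorization = n.factorization.filter (fun p => p ≤ Z) := by
    intro n
    apply Nat.prod_pow_factorization_eq_self
    intro p hp
    rw [Finsupp.support_filter, Finset.mem_filter] at hp
    exact Nat.prime_of_mem_primeFactors (Nat.support_factorization n ▸ hp.1)
  have hrf : ∀ n, (rp n).factorization = n.factorization.filter (fun p => ¬ p ≤ Z) := by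
    intro n
    apply Nat.prod_pow_factorization_eq_self
    intro p hp
    rw [Finsupp.support_filter, Finset.mem_filter] at hp
    exact Nat.prime_of_mem_primeFactors (Nat.support_factorization n ▸ hp.1)
  have hs1 : ∀ n, W cs (sp n) = 1 := by
    intro n
    rw [W_eq_prod]
    apply Finset.prod_eq_one
    intro p hp
    rw [← Nat.support_factorization, hsf, Finsupp.support_filter, Finset.mem_filter] at hp
    rw [hcs]
    simp only [if_pos hp.2, one_pow]
  have hr1 : ∀ n p, p.Prime → p ∣ rp n → n ≠ 0 → Z < p := by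
    intro n p hp hpn hn
    have h0 : rp n ≠ 0 := by
      intro h
      have := hmul n hn
      rw [h, mul_zero] at this
      exact hn this.symm
    have : p ∈ (rp n).factorization.support := by
      rw [Nat.support_factorization, Nat.mem_primeFactors]
      exact ⟨hp, hpn, h0⟩
    rw [hrf, Finsupp.support_filter, Finset.mem_filter] at this
    omega
  -- main inequality
  have hmain : ∑ n ∈ Finset.Icc 1 X, (1 : ℝ) / n ≤
      (∑ t ∈ Finset.Icc 1 X, W cs t / t) * ∑ u ∈ R, (1 : ℝ) / u := by
    rw [Finset.sum_mul_sum, ← Finset.sum_product']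
    have hinj : Set.InjOn (fun n => (sp n, rp n)) (Finset.Icc 1 X : Finset ℕ) := by
      intro a ha b hb hab
      rw [Finset.coe_Icc, Set.mem_Icc] at ha hb
      have h1 := congrArg Prod.fst hab
      have h2 := congrArg Prod.snd hab
      simp only at h1 h2
      rw [← hmul a (by omega), ← hmul b (by omega), h1, h2]
    have hsub : (Finset.Icc 1 X).image (fun n => (sp n, rp n)) ⊆ Finset.Icc 1 X ×ˢ R := by
      intro x hx
      rw [Finset.mem_image] at hx
      obtain ⟨n, hn, rfl⟩ := hx
      rw [Finset.mem_Icc] at hn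
      have hm := hmul n (by omega)
      have hsp : sp n ≠ 0 := by
        intro h; rw [h, zero_mul] at hm; omega
      have hrp : rp n ≠ 0 := by
        intro h; rw [h, mul_zero] at hm; omega
      have hle1 : sp n ≤ n := Nat.le_of_dvd (by omega) ⟨_, hm.symm⟩
      have hle2 : rp n ≤ n := Nat.le_of_dvd (by omega) ⟨_, by rw [mul_comm]; exact hm.symm⟩
      rw [Finset.mem_product, hR, mem_RS, Finset.mem_Icc]
      refine ⟨⟨by show 1 ≤ sp n; omega, by show sp n ≤ X; omega⟩,
        ⟨by show 1 ≤ rp n; omega, by show rp n ≤ X; omega⟩, ?_⟩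
      intro p hp hpn
      exact hr1 n p hp hpn (by omega)
    refine le_trans ?_ (Finset.sum_le_sum_of_subset_of_nonneg hsub ?_)
    · rw [Finset.sum_image hinj]
      apply Finset.sum_le_sum
      intro n hn
      rw [Finset.mem_Icc] at hn
      show (1 : ℝ) / n ≤ W cs (sp n) / (sp n : ℝ) * (1 / (rp n : ℝ))
      rw [hs1, one_div_mul_one_div]
      have : ((sp n : ℝ)) * (rp n : ℝ) = n := by exact_mod_cast hmul n (by omega)
      rw [this]
    · intro x _ _
      apply mul_nonneg
      · exact div_nonneg (W_nonneg (by intro p; rw [hcs]; dsimp only; split_ifs <;> norm_num) _) (by positivity)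
      · positivity
  have hharm : Real.log X ≤ ∑ n ∈ Finset.Icc 1 X, (1 : ℝ) / n := by
    rcases Nat.eq_zero_or_pos X with h | h
    · subst h; simp
    have h1 := log_add_one_le_harmonic X
    have h2 : ((harmonic X : ℚ) : ℝ) = ∑ n ∈ Finset.Icc 1 X, (1 : ℝ) / n := by
      rw [harmonic_eq_sum_Icc]; push_cast
      apply Finset.sum_congr rfl
      intro n _; rw [one_div]
    rw [← h2]
    refine le_trans ?_ h1
    apply Real.log_le_log (by exact_mod_cast h)
    push_cast
    linarith
  have hup : ∑ t ∈ Finset.Icc 1 X, W cs t / t ≤ Real.exp (L Z + 9) := by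
    have h1 := euler_upper (c := cs) (by intro p; rw [hcs]; dsimp only; split_ifs <;> norm_num)
      (by intro p; rw [hcs]; dsimp only; split_ifs <;> norm_num) X
    refine h1.trans (Real.exp_le_exp.2 ?_)
    have h2 : ∑ p ∈ PP X, cs p / p ≤ L Z := by
      unfold L
      rw [← Finset.sum_filter_add_sum_filter_not (PP X) (fun p => p ≤ Z)]
      have e2 : ∑ p ∈ (PP X).filter (fun p => ¬ p ≤ Z), cs p / p = 0 := by
        apply Finset.sum_eq_zero
        intro p hp
        rw [Finset.mem_filter] at hp
        rw [hcs]; simp only [if_neg hp.2, zero_div]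
      rw [e2, add_zero]
      refine le_trans (Finset.sum_le_sum_of_subset_of_nonneg (t := PP Z) ?_ ?_) ?_
      · intro p hp
        rw [Finset.mem_filter, mem_PP] at hp
        rw [mem_PP]; exact ⟨hp.1.1, hp.2⟩
      · intro p _ _
        apply div_nonneg _ (by positivity)
        rw [hcs]; dsimp only; split_ifs <;> norm_num
      · apply Finset.sum_le_sum
        intro p hp
        rw [mem_PP] at hp
        rw [hcs]; simp only [if_pos hp.2]; exact le_rfl
    linarith
  refine hharm.trans (hmain.trans ?_)
  exact mul_le_mul_of_nonneg_right hup (Finset.sum_nonneg fun u _ => by positivity)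

end Pool.Agent.H500R2
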