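import Mathlib
import Pool.Agent.H500R2.Box
import Pool.Agent.H500R2.Rough

set_option autoImplicit false

namespace Pool.Agent.H500R2

open Finset

/-- if `a + b ∣ a * b` then `a = k m (m+n)`, `b = k n (m+n)` with `m, n` coprime -/
lemma param {a b : ℕ} (ha : 0 < a) (hb : 0 < b) (h : a + b ∣ a * b) :
    ∃ k m n : ℕ, 0 < k ∧ 0 < m ∧ 0 < n ∧ Nat.Coprime m n ∧ a = k * m * (m + n) ∧
      b = k * n * (m + n) := by
  obtain ⟨g, m, n, hg, hmn, rfl, rfl⟩ := Nat.exists_coprime' (Nat.gcd_pos_of_pos_left b ha)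
  have hm : 0 < m := Nat.pos_of_ne_zero (by rintro rfl; simp at ha)
  have hn : 0 < n := Nat.pos_of_ne_zero (by rintro rfl; simp at hb)
  have h1 : (m + n) ∣ g * (m * n) := by
    have e1 : m * g + n * g = g * (m + n) := by ring
    have e2 : m * g * (n * g) = g * (g * (m * n)) := by ring
    rw [e1, e2] at h
    exact Nat.dvd_of_mul_dvd_mul_left hg h
  have h2 : Nat.Coprime (m + n) (m * n) := by
    apply Nat.Coprime.mul_right
    · rw [Nat.add_comm]
      exact (Nat.coprime_add_self_left).2 hmn.symm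
    · exact (Nat.coprime_add_self_left).2 hmn
  obtain ⟨k, rfl⟩ := h2.dvd_of_dvd_mul_right h1
  have hk : 0 < k := Nat.pos_of_ne_zero (by rintro rfl; simp at hg)
  exact ⟨k, m, n, hk, hm, hn, hmn, by ring, by ring⟩

/-- number of prime factors in `(Z, P]` with multiplicity -/
def Om (Z P n : ℕ) : ℕ := ∑ p ∈ (PP P).filter (fun p => Z < p), n.factorization p

/-- twice an odd number whose prime factors all exceed `Z` -/
def RE (Z n : ℕ) : Prop := n.factorization 2 = 1 ∧ ∀ p, p.Prime → p ∣ n → p = 2 ∨ Z < p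

/-- few prime factors at all scales -/
def Con (Z : ℕ) (P : ℕ → ℕ) (q J : ℕ) (a b : ℝ) (n : ℕ) : Prop :=
  ∀ j, q ≤ j → j ≤ J → (Om Z (P j) n : ℝ) ≤ a * SS Z (P j) + b

/-- killed elements -/
def Kill (T : ℕ → Prop) (e : ℕ) : Prop :=
  ∃ k m n : ℕ, 0 < k ∧ 0 < m ∧ 0 < n ∧ Nat.Coprime m n ∧ n ≠ m ∧ n < 2 * m ∧
    e = k * m * (m + n) ∧ T (k * n * (m + n))

lemma kill_of (T : ℕ → Prop) {a b : ℕ} (ha : 0 < a) (hb : 0 < b) (hab : a ≠ b)
    (h : a + b ∣ a * b) (h2 : b < 2 * a) (hT : T b) : Kill T a := by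
  obtain ⟨k, m, n, hk, hm, hn, hmn, rfl, rfl⟩ := param ha hb h
  refine ⟨k, m, n, hk, hm, hn, hmn, ?_, ?_, rfl, hT⟩
  · rintro rfl; exact hab rfl
  · by_contra hc
    have : k * (2 * m) * (m + n) ≤ k * n * (m + n) :=
      Nat.mul_le_mul_right _ (Nat.mul_le_mul_left _ (by omega))
    have e : k * (2 * m) * (m + n) = 2 * (k * m * (m + n)) := by ring
    omega

lemma not_both_odd {a b : ℕ} (ha : 0 < a) (hb : 0 < b) (h : a + b ∣ a * b) :
    ¬ (Odd a ∧ Odd b) := by
  obtain ⟨k, m, n, hk, hm, hn, hmn, rfl, rfl⟩ := param ha hb h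
  rintro ⟨h1, h2⟩
  rw [Nat.odd_mul, Nat.odd_mul] at h1 h2
  have h3 := h1.1.2.add_odd h2.1.2
  exact (Nat.not_even_iff_odd.2 h1.2) h3

open scoped Classical in
/-- the set used for `X` -/
noncomputable def AX (T E : ℕ → Prop) (X : ℕ) : Finset ℕ :=
  (Finset.Icc 1 X).filter (fun n => (Odd n ∧ T n) ∨ (¬ Odd n ∧ X < 2 * n ∧ E n ∧ ¬ Kill T n))

lemma mem_AX {T E : ℕ → Prop} {X n : ℕ} : n ∈ AX T E X ↔ (1 ≤ n ∧ n ≤ X) ∧
    ((Odd n ∧ T n) ∨ (¬ Odd n ∧ X < 2 * n ∧ E n ∧ ¬ Kill T n)) := by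
  classical
  unfold AX
  rw [Finset.mem_filter, Finset.mem_Icc]

lemma AX_adm {T E : ℕ → Prop} (hET : ∀ n, E n → T n) (X : ℕ) :
    ∀ a ∈ AX T E X, ∀ b ∈ AX T E X, a ≠ b → ¬ (a + b ∣ a * b) := by
  intro a ha b hb hab h
  rw [mem_AX] at ha hb
  have hTa : T a := by
    rcases ha.2 with h' | h'
    · exact h'.2
    · exact hET _ h'.2.2.1
  have hTb : T b := by
    rcases hb.2 with h' | h'
    · exact h'.2
    · exact hET _ h'.2.2.1
  rcases ha.2 with h1 | h1
  · rcases hb.2 with h2 | h2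
    · exact not_both_odd (by omega) (by omega) h ⟨h1.1, h2.1⟩
    · apply h2.2.2.2
      apply kill_of T (by omega) (by omega) (Ne.symm hab) _ (by omega) hTa
      rw [add_comm, mul_comm]; exact h
  · apply h1.2.2.2
    exact kill_of T (by omega) (by omega) hab h (by omega) hTb

lemma card_odd (X : ℕ) : (X : ℝ) / 2 ≤ ((Finset.Icc 1 X).filter (fun n => Odd n)).card := by
  have : ∀ X : ℕ, ((Finset.Icc 1 X).filter (fun n => Odd n)).card = (X + 1) / 2 := by
    intro X
    induction X with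
    | zero => simp
    | succ X ih =>
      have e : Finset.Icc 1 (X + 1) = insert (X + 1) (Finset.Icc 1 X) := by
        ext n; simp only [Finset.mem_Icc, Finset.mem_insert]; omega
      rw [e, Finset.filter_insert]
      split_ifs with h
      · rw [Finset.card_insert_of_notMem (by simp), ih]
        have : Odd (X + 1) := h
        rw [Nat.odd_iff] at this
        omega
      · rw [ih]
        rw [Nat.not_odd_iff_even, Nat.even_iff] at h
        omega
  rw [this X]
  have h2 : X ≤ 2 * ((X + 1) / 2) := by omega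
  have h3 : (X : ℝ) ≤ 2 * (((X + 1) / 2 : ℕ) : ℝ) := by exact_mod_cast h2
  linarith

open scoped Classical in
lemma card_AX (T E : ℕ → Prop) (hE : ∀ n, E n → ¬ Odd n) (X : ℕ) :
    (X : ℝ) / 2 + ((Finset.Icc 1 X).filter (fun n => X < 2 * n ∧ E n)).card ≤
      (AX T E X).card + ((Finset.Icc 1 X).filter (fun n => X < 2 * n ∧ E n ∧ Kill T n)).card +
        ((Finset.Icc 1 X).filter (fun n => ¬ T n)).card := by
  have h1 := card_odd X
  have h2 : ((Finset.Icc 1 X).filter (fun n => Odd n)).card ≤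
      ((Finset.Icc 1 X).filter (fun n => Odd n ∧ T n)).card +
        ((Finset.Icc 1 X).filter (fun n => ¬ T n)).card := by
    refine le_trans (Finset.card_le_card ?_) (Finset.card_union_le _ _)
    intro n hn
    rw [Finset.mem_filter] at hn
    rw [Finset.mem_union, Finset.mem_filter, Finset.mem_filter]
    by_cases h : T n
    · exact Or.inl ⟨hn.1, hn.2, h⟩
    · exact Or.inr ⟨hn.1, h⟩
  have h3 : ((Finset.Icc 1 X).filter (fun n => X < 2 * n ∧ E n)).card ≤
      ((Finset.Icc 1 X).filter (fun n => ¬ Odd n ∧ X < 2 * n ∧ E n ∧ ¬ Kill T n)).card +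
        ((Finset.Icc 1 X).filter (fun n => X < 2 * n ∧ E n ∧ Kill T n)).card := by
    refine le_trans (Finset.card_le_card ?_) (Finset.card_union_le _ _)
    intro n hn
    rw [Finset.mem_filter] at hn
    rw [Finset.mem_union, Finset.mem_filter, Finset.mem_filter]
    by_cases h : Kill T n
    · exact Or.inr ⟨hn.1, hn.2.1, hn.2.2, h⟩
    · exact Or.inl ⟨hn.1, hE n hn.2.2, hn.2.1, hn.2.2, h⟩
  have h4 : ((Finset.Icc 1 X).filter (fun n => Odd n ∧ T n)).card +
      ((Finset.Icc 1 X).filter (fun n => ¬ Odd n ∧ X < 2 * n ∧ E n ∧ ¬ Kill T n)).card =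
      (AX T E X).card := by
    rw [← Finset.card_union_of_disjoint]
    · congr 1
      ext n
      rw [Finset.mem_union, Finset.mem_filter, Finset.mem_filter, mem_AX, Finset.mem_Icc]
      tauto
    · rw [Finset.disjoint_left]
      intro n hn hn'
      rw [Finset.mem_filter] at hn hn'
      exact hn'.2.1 hn.2.1
  have h2' : (((Finset.Icc 1 X).filter (fun n => Odd n)).card : ℝ) ≤
      ((Finset.Icc 1 X).filter (fun n => Odd n ∧ T n)).card +
        ((Finset.Icc 1 X).filter (fun n => ¬ T n)).card := by exact_mod_cast h2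
  have h3' : (((Finset.Icc 1 X).filter (fun n => X < 2 * n ∧ E n)).card : ℝ) ≤
      ((Finset.Icc 1 X).filter (fun n => ¬ Odd n ∧ X < 2 * n ∧ E n ∧ ¬ Kill T n)).card +
        ((Finset.Icc 1 X).filter (fun n => X < 2 * n ∧ E n ∧ Kill T n)).card := by exact_mod_cast h3
  have h4' : (((Finset.Icc 1 X).filter (fun n => Odd n ∧ T n)).card : ℝ) +
      ((Finset.Icc 1 X).filter (fun n => ¬ Odd n ∧ X < 2 * n ∧ E n ∧ ¬ Kill T n)).card =
      (AX T E X).card := by exact_mod_cast h4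
  linarith

/-! ### sums over `X` -/

lemma sum_inv_sq_lower (e : ℕ) (he : 0 < e) :
    1 / (2 * (e : ℝ)) ≤ ∑ X ∈ Finset.Ico e (2 * e), 1 / (X : ℝ) ^ 2 := by
  have h : ∀ k : ℕ, 1 / (e : ℝ) - 1 / ((e + k : ℕ) : ℝ) ≤ ∑ X ∈ Finset.Ico e (e + k), 1 / (X : ℝ) ^ 2 := by
    intro k
    induction k with
    | zero => simp
    | succ k ih =>
      rw [← add_assoc, Finset.sum_Ico_succ_top (by omega)]
      have he' : (0 : ℝ) < e := by exact_mod_cast he
      have : 1 / ((e + k : ℕ) : ℝ) - 1 / ((e + k + 1 : ℕ) : ℝ) ≤ 1 / ((e + k : ℕ) : ℝ) ^ 2 := by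
        push_cast
        rw [div_sub_div _ _ (by positivity) (by positivity),
          div_le_div_iff₀ (by positivity) (by positivity)]
        nlinarith [sq_nonneg ((e : ℝ) + k)]
      linarith
  have := h e
  rw [← two_mul] at this
  refine le_trans (le_of_eq ?_) this
  have he' : (0 : ℝ) < e := by exact_mod_cast he
  push_cast
  field_simp
  norm_num

lemma sum_inv_sq_upper (e Y : ℕ) (he : 0 < e) :
    ∑ X ∈ Finset.Icc e Y, 1 / (X : ℝ) ^ 2 ≤ 2 / (e : ℝ) := by
  have he' : (1 : ℝ) ≤ e := by exact_mod_cast he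
  have h : ∀ k : ℕ, ∑ X ∈ Finset.Icc e (e + k), 1 / (X : ℝ) ^ 2 ≤
      1 / (e : ℝ) ^ 2 + 1 / (e : ℝ) - 1 / ((e + k : ℕ) : ℝ) := by
    intro k
    induction k with
    | zero => simp
    | succ k ih =>
      rw [← add_assoc, Finset.sum_Icc_succ_top (by omega)]
      have : 1 / ((e + k + 1 : ℕ) : ℝ) ^ 2 ≤ 1 / ((e + k : ℕ) : ℝ) - 1 / ((e + k + 1 : ℕ) : ℝ) := by
        push_cast
        rw [div_sub_div _ _ (by positivity) (by positivity),
          div_le_div_iff₀ (by positivity) (by positivity)]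
        nlinarith [sq_nonneg ((e : ℝ) + k)]
      linarith
  have h1 : 1 / (e : ℝ) ^ 2 ≤ 1 / (e : ℝ) := by
    apply one_div_le_one_div_of_le (by linarith)
    nlinarith
  have e2 : 2 / (e : ℝ) = 1 / e + 1 / e := by ring
  rcases Nat.lt_or_ge Y e with hY | hY
  · rw [Finset.Icc_eq_empty (by omega), Finset.sum_empty]
    positivity
  · obtain ⟨k, rfl⟩ := Nat.exists_eq_add_of_le hY
    have := h k
    have h3 : 0 ≤ 1 / ((e + k : ℕ) : ℝ) := by positivity
    linarith

open scoped Classical in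
/-- if all the sets are small then the main sum is small -/
theorem combin (T E : ℕ → Prop) (hE : ∀ n, E n → ¬ Odd n) (ε : ℝ) (hε : 0 ≤ ε) (M Y : ℕ)
    (h : ∀ X, M ≤ X → X ≤ Y → ((AX T E X).card : ℝ) ≤ (1 / 2 + ε) * X) :
    ∑ e ∈ (Finset.Icc 1 Y).filter (fun e => 2 * e ≤ Y ∧ E e), 1 / (2 * (e : ℝ)) ≤
      ∑ e ∈ (Finset.Icc 1 Y).filter (fun e => E e ∧ Kill T e), 2 / (e : ℝ) +
      ∑ b ∈ (Finset.Icc 1 Y).filter (fun b => ¬ T b), 2 / (b : ℝ) +
      (∑ X ∈ Finset.Icc 1 M, 1 / (X : ℝ) + ε * ∑ X ∈ Finset.Icc 1 Y, 1 / (X : ℝ)) := by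
  -- the pointwise inequality
  have hpt : ∀ X ∈ Finset.Icc 1 Y,
      (1 / (X : ℝ) ^ 2) * ((Finset.Icc 1 X).filter (fun n => X < 2 * n ∧ E n)).card ≤
      (1 / (X : ℝ) ^ 2) * ((Finset.Icc 1 X).filter (fun n => X < 2 * n ∧ E n ∧ Kill T n)).card +
      (1 / (X : ℝ) ^ 2) * ((Finset.Icc 1 X).filter (fun n => ¬ T n)).card +
      ((if X ≤ M then 1 / (X : ℝ) else 0) + ε * (1 / (X : ℝ))) := by
    intro X hX
    rw [Finset.mem_Icc] at hX
    have h1 := card_AX T E hE X
    have hX0 : (1 : ℝ) ≤ X := by exact_mod_cast hX.1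
    have h2 : ((AX T E X).card : ℝ) - X / 2 ≤ (if X ≤ M then (X : ℝ) else 0) + ε * X := by
      split_ifs with hc
      · have : ((AX T E X).card : ℝ) ≤ X := by
          have h3 : (AX T E X).card ≤ X := by
            refine (Finset.card_le_card (t := Finset.Icc 1 X) ?_).trans (by simp)
            intro n hn; rw [mem_AX] at hn; rw [Finset.mem_Icc]; exact hn.1
          exact_mod_cast h3
        have : 0 ≤ ε * X := by positivity
        linarith
      · have := h X (by omega) hX.2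
        linarith
    have h4 : (1 / (X : ℝ) ^ 2) * (((Finset.Icc 1 X).filter (fun n => X < 2 * n ∧ E n)).card : ℝ) ≤
        (1 / (X : ℝ) ^ 2) * (((Finset.Icc 1 X).filter (fun n => X < 2 * n ∧ E n ∧ Kill T n)).card +
        ((Finset.Icc 1 X).filter (fun n => ¬ T n)).card + ((if X ≤ M then (X : ℝ) else 0) + ε * X)) := by
      apply mul_le_mul_of_nonneg_left _ (by positivity)
      linarith
    refine h4.trans (le_of_eq ?_)
    rw [mul_add, mul_add, mul_add]
    congr 2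
    · split_ifs
      · field_simp
      · simp
    · field_simp
  -- swap sums, lower
  have hlow : ∑ e ∈ (Finset.Icc 1 Y).filter (fun e => 2 * e ≤ Y ∧ E e), 1 / (2 * (e : ℝ)) ≤
      ∑ X ∈ Finset.Icc 1 Y, (1 / (X : ℝ) ^ 2) *
        ((Finset.Icc 1 X).filter (fun n => X < 2 * n ∧ E n)).card := by
    have e1 : ∀ X ∈ Finset.Icc 1 Y, (1 / (X : ℝ) ^ 2) *
        ((Finset.Icc 1 X).filter (fun n => X < 2 * n ∧ E n)).card =
        ∑ n ∈ (Finset.Icc 1 Y).filter (fun n => E n), if n ≤ X ∧ X < 2 * n then 1 / (X : ℝ) ^ 2 else 0 := by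
      intro X hX
      rw [Finset.mem_Icc] at hX
      rw [← Finset.sum_filter, Finset.sum_const, nsmul_eq_mul, mul_comm]
      congr 3
      ext n
      simp only [Finset.mem_filter, Finset.mem_Icc]
      constructor
      · rintro ⟨⟨a, b⟩, c, d⟩; exact ⟨⟨⟨a, by omega⟩, d⟩, b, c⟩
      · rintro ⟨⟨⟨a, _⟩, d⟩, b, c⟩; exact ⟨⟨a, b⟩, c, d⟩
    rw [Finset.sum_congr rfl e1, Finset.sum_comm]
    have hsub : (Finset.Icc 1 Y).filter (fun e => 2 * e ≤ Y ∧ E e) ⊆ (Finset.Icc 1 Y).filter (fun n => E n) := by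
      intro n hn
      rw [Finset.mem_filter] at hn ⊢
      exact ⟨hn.1, hn.2.2⟩
    refine le_trans ?_ (Finset.sum_le_sum_of_subset_of_nonneg hsub ?_)
    · apply Finset.sum_le_sum
      intro e he
      rw [Finset.mem_filter, Finset.mem_Icc] at he
      refine (sum_inv_sq_lower e (by omega)).trans ?_
      rw [← Finset.sum_filter]
      apply Finset.sum_le_sum_of_subset_of_nonneg
      · intro X hX
        rw [Finset.mem_Ico] at hX
        rw [Finset.mem_filter, Finset.mem_Icc]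
        exact ⟨⟨by omega, by omega⟩, hX⟩
      · intro X _ _; positivity
    · intro n _ _
      apply Finset.sum_nonneg; intro X _
      split_ifs <;> positivity
  have hup1 : ∑ X ∈ Finset.Icc 1 Y, (1 / (X : ℝ) ^ 2) *
        ((Finset.Icc 1 X).filter (fun n => X < 2 * n ∧ E n ∧ Kill T n)).card ≤
      ∑ e ∈ (Finset.Icc 1 Y).filter (fun e => E e ∧ Kill T e), 2 / (e : ℝ) := by
    have e1 : ∀ X ∈ Finset.Icc 1 Y, (1 / (X : ℝ) ^ 2) *
        ((Finset.Icc 1 X).filter (fun n => X < 2 * n ∧ E n ∧ Kill T n)).card =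
        ∑ n ∈ (Finset.Icc 1 Y).filter (fun n => E n ∧ Kill T n),
          if n ≤ X ∧ X < 2 * n then 1 / (X : ℝ) ^ 2 else 0 := by
      intro X hX
      rw [Finset.mem_Icc] at hX
      rw [← Finset.sum_filter, Finset.sum_const, nsmul_eq_mul, mul_comm]
      congr 3
      ext n
      simp only [Finset.mem_filter, Finset.mem_Icc]
      constructor
      · rintro ⟨⟨a, b⟩, c, d⟩; exact ⟨⟨⟨a, by omega⟩, d⟩, b, c⟩
      · rintro ⟨⟨⟨a, _⟩, d⟩, b, c⟩; exact ⟨⟨a, b⟩, c, d⟩
    rw [Finset.sum_congr rfl e1, Finset.sum_comm]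
    apply Finset.sum_le_sum
    intro e he
    rw [Finset.mem_filter, Finset.mem_Icc] at he
    refine le_trans ?_ (sum_inv_sq_upper e Y (by omega))
    rw [← Finset.sum_filter]
    apply Finset.sum_le_sum_of_subset_of_nonneg
    · intro X hX
      rw [Finset.mem_filter, Finset.mem_Icc] at hX
      rw [Finset.mem_Icc]
      exact ⟨hX.2.1, hX.1.2⟩
    · intro X _ _; positivity
  have hup2 : ∑ X ∈ Finset.Icc 1 Y, (1 / (X : ℝ) ^ 2) *
        ((Finset.Icc 1 X).filter (fun n => ¬ T n)).card ≤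
      ∑ b ∈ (Finset.Icc 1 Y).filter (fun b => ¬ T b), 2 / (b : ℝ) := by
    have e1 : ∀ X ∈ Finset.Icc 1 Y, (1 / (X : ℝ) ^ 2) *
        ((Finset.Icc 1 X).filter (fun n => ¬ T n)).card =
        ∑ n ∈ (Finset.Icc 1 Y).filter (fun n => ¬ T n),
          if n ≤ X then 1 / (X : ℝ) ^ 2 else 0 := by
      intro X hX
      rw [Finset.mem_Icc] at hX
      rw [← Finset.sum_filter, Finset.sum_const, nsmul_eq_mul, mul_comm]
      congr 3
      ext n
      simp only [Finset.mem_filter, Finset.mem_Icc]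
      constructor
      · rintro ⟨⟨a, b⟩, c⟩; exact ⟨⟨⟨a, by omega⟩, c⟩, b⟩
      · rintro ⟨⟨⟨a, _⟩, c⟩, b⟩; exact ⟨⟨a, b⟩, c⟩
    rw [Finset.sum_congr rfl e1, Finset.sum_comm]
    apply Finset.sum_le_sum
    intro e he
    rw [Finset.mem_filter, Finset.mem_Icc] at he
    refine le_trans ?_ (sum_inv_sq_upper e Y (by omega))
    rw [← Finset.sum_filter]
    apply Finset.sum_le_sum_of_subset_of_nonneg
    · intro X hX
      rw [Finset.mem_filter, Finset.mem_Icc] at hX
      rw [Finset.mem_Icc]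
      exact ⟨hX.2, hX.1.2⟩
    · intro X _ _; positivity
  have hup3 : ∑ X ∈ Finset.Icc 1 Y, ((if X ≤ M then 1 / (X : ℝ) else 0) + ε * (1 / (X : ℝ))) ≤
      ∑ X ∈ Finset.Icc 1 M, 1 / (X : ℝ) + ε * ∑ X ∈ Finset.Icc 1 Y, 1 / (X : ℝ) := by
    rw [Finset.sum_add_distrib, ← Finset.mul_sum, ← Finset.sum_filter]
    apply add_le_add_left
    apply Finset.sum_le_sum_of_subset_of_nonneg
    · intro X hX
      rw [Finset.mem_filter, Finset.mem_Icc] at hX
      rw [Finset.mem_Icc]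
      exact ⟨hX.1.1, hX.2⟩
    · intro X _ _; positivity
  have hsum := Finset.sum_le_sum hpt
  rw [Finset.sum_add_distrib, Finset.sum_add_distrib] at hsum
  linarith

end Pool.Agent.H500R2
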