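import Mathlib
import Pool.Agent.H500R2.Comb

set_option autoImplicit false

namespace Pool.Agent.H500R2

open Finset

lemma W_eq_pow_Om {c : ℕ → ℝ} {w : ℝ} {Z P n : ℕ}
    (h1 : ∀ p, p.Prime → p ∣ n → Z < p → p ≤ P → c p = w)
    (h2 : ∀ p, p.Prime → p ∣ n → (p ≤ Z ∨ P < p) → c p = 1) : W c n = w ^ Om Z P n := by
  classical
  rw [W_eq_prod]
  unfold Om
  rw [← Finset.prod_pow_eq_pow_sum]
  have e1 : ∏ p ∈ (PP P).filter (fun p => Z < p), w ^ n.factorization p =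
      ∏ p ∈ n.primeFactors.filter (fun p => Z < p ∧ p ≤ P), w ^ n.factorization p := by
    symm
    apply Finset.prod_subset
    · intro p hp
      rw [Finset.mem_filter, Nat.mem_primeFactors] at hp
      rw [Finset.mem_filter, mem_PP]
      exact ⟨⟨hp.1.1, hp.2.2⟩, hp.2.1⟩
    · intro p hp hp'
      rw [Finset.mem_filter, mem_PP] at hp
      have : p ∉ n.primeFactors := by
        intro h
        apply hp'
        rw [Finset.mem_filter]
        exact ⟨h, hp.2, hp.1.2⟩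
      rw [← Nat.support_factorization, Finsupp.notMem_support_iff] at this
      rw [this, pow_zero]
  rw [e1, ← Finset.prod_filter_mul_prod_filter_not n.primeFactors (fun p => Z < p ∧ p ≤ P)]
  have e2 : ∏ p ∈ n.primeFactors.filter (fun p => ¬ (Z < p ∧ p ≤ P)), c p ^ n.factorization p = 1 := by
    apply Finset.prod_eq_one
    intro p hp
    rw [Finset.mem_filter, Nat.mem_primeFactors] at hp
    rw [h2 p hp.1.1 hp.1.2.1 (by omega), one_pow]
  rw [e2, mul_one]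
  apply Finset.prod_congr rfl
  intro p hp
  rw [Finset.mem_filter, Nat.mem_primeFactors] at hp
  rw [h1 p hp.1.1 hp.1.2.1 hp.2.1 hp.2.2]

lemma pow_ge_exp {w t : ℝ} {k : ℕ} (hw0 : 0 < w) (hw1 : w ≤ 1) (h : (k : ℝ) ≤ t) :
    Real.exp (t * Real.log w) ≤ w ^ k := by
  have h1 : w ^ k = Real.exp (k * Real.log w) := by
    rw [Real.exp_nat_mul, Real.exp_log hw0]
  rw [h1]
  apply Real.exp_le_exp.2
  have : Real.log w ≤ 0 := Real.log_nonpos hw0.le hw1
  nlinarith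

lemma ye_weight {Z P e : ℕ} {y t : ℝ} (hZ : 2 ≤ Z) (hy0 : 0 < y) (hy1 : y ≤ 1) (hRE : RE Z e)
    (h : (Om Z P e : ℝ) ≤ t) : Real.exp (t * Real.log y) ≤ W (ye Z P y) e := by
  have : W (ye Z P y) e = y ^ Om Z P e := by
    apply W_eq_pow_Om
    · intro p _ _ h1 h2
      unfold ye
      rw [if_neg (by omega), if_neg (by omega), if_pos h2]
    · intro p hp hpe h1
      unfold ye
      by_cases h2 : p = 2
      · rw [if_pos h2]
      · have h3 : Z < p := by
          rcases hRE.2 p hp hpe with h | h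
          · exact absurd h h2
          · exact h
        rw [if_neg h2, if_neg (by omega), if_neg (by omega)]
  rw [this]
  exact pow_ge_exp hy0 hy1 h

lemma zb_weight {Z P b : ℕ} {z t : ℝ} (hz0 : 0 < z) (hz1 : z ≤ 1)
    (h : (Om Z P b : ℝ) ≤ t) : Real.exp (t * Real.log z) ≤ W (zb Z P z) b := by
  have : W (zb Z P z) b = z ^ Om Z P b := by
    apply W_eq_pow_Om
    · intro p _ _ h1 h2
      unfold zb
      rw [if_neg (by omega), if_pos h2]
    · intro p hp hpe h1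
      unfold zb
      rcases h1 with h1 | h1
      · rw [if_pos h1]
      · by_cases h2 : p ≤ Z
        · rw [if_pos h2]
        · rw [if_neg h2, if_neg (by omega)]
  rw [this]
  exact pow_ge_exp hz0 hz1 h

lemma sum_yezb_le {Z P Y : ℕ} {y z : ℝ} (hZ : 2 ≤ Z) (hZY : Z ≤ Y) (hPY : P ≤ Y) :
    ∑ p ∈ PP Y, ye Z P y p * zb Z P z p / p ≤ 1 + L Y - L Z - (1 - y * z) * SS Z P := by
  classical
  have e1 : ∀ p ∈ PP Y, ye Z P y p * zb Z P z p / p = 1 / (p : ℝ) - (if p ≤ Z then 1 / (p : ℝ) else 0)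
      + (if p = 2 then 1 / (p : ℝ) else 0) -
      (1 - y * z) * (if Z < p ∧ p ≤ P then 1 / (p : ℝ) else 0) := by
    intro p _
    unfold ye zb
    by_cases h2 : p = 2
    · rw [if_pos h2, if_pos (by omega), if_pos (by omega), if_pos h2, if_neg (by omega)]; ring
    · rw [if_neg h2, if_neg h2]
      by_cases h3 : p ≤ Z
      · rw [if_pos h3, if_pos h3, if_pos h3, if_neg (by omega)]; ring
      · rw [if_neg h3, if_neg h3, if_neg h3]
        by_cases h4 : p ≤ P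
        · rw [if_pos h4, if_pos h4, if_pos (by omega)]; ring
        · rw [if_neg h4, if_neg h4, if_neg (by omega)]; ring
  rw [Finset.sum_congr rfl e1, Finset.sum_sub_distrib, Finset.sum_add_distrib, Finset.sum_sub_distrib,
    ← Finset.mul_sum, ← Finset.sum_filter, ← Finset.sum_filter (fun p => Z < p ∧ p ≤ P),
    Finset.sum_ite_eq']
  have f1 : (PP Y).filter (fun p => p ≤ Z) = PP Z := by
    ext p; rw [Finset.mem_filter, mem_PP, mem_PP]
    constructor
    · rintro ⟨⟨a, _⟩, b⟩; exact ⟨a, b⟩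
    · rintro ⟨a, b⟩; exact ⟨⟨a, by omega⟩, b⟩
  have f2 : (PP Y).filter (fun p => Z < p ∧ p ≤ P) = (PP P).filter (fun p => Z < p) := by
    ext p; rw [Finset.mem_filter, mem_PP, Finset.mem_filter, mem_PP]
    constructor
    · rintro ⟨⟨a, _⟩, b, c⟩; exact ⟨⟨a, c⟩, b⟩
    · rintro ⟨⟨a, b⟩, c⟩; exact ⟨⟨a, by omega⟩, c, b⟩
  rw [f1, f2]
  have f3 : (if (2 : ℕ) ∈ PP Y then 1 / ((2 : ℕ) : ℝ) else 0) ≤ 1 := by
    split_ifs <;> norm_num
  unfold L SS
  linarith

/-- size of the sum `m + n` -/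
lemma big_of_RE {Z k m n : ℕ} (hk : 0 < k) (hm : 0 < m) (hn : 0 < n) (hne : n ≠ m)
    (hRE : RE Z (k * m * (m + n))) : Z < m + n := by
  have hd : m + n ∣ k * m * (m + n) := Dvd.intro_left _ rfl
  have he0 : k * m * (m + n) ≠ 0 := by positivity
  by_contra hc
  have hpow : ∀ p, p.Prime → p ∣ m + n → p = 2 := by
    intro p hp hpd
    rcases hRE.2 p hp (hpd.trans hd) with h | h
    · exact h
    · have := Nat.le_of_dvd (by omega) hpd
      omega
  have h1 : m + n = 2 ^ (m + n).primeFactorsList.length :=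
    Nat.eq_prime_pow_of_unique_prime_dvd (by omega) (fun {d} hd1 hd2 => hpow d hd1 hd2)
  have h2 : 2 ^ (m + n).primeFactorsList.length ∣ k * m * (m + n) := h1 ▸ hd
  have h3 : (m + n).primeFactorsList.length ≤ (k * m * (m + n)).factorization 2 :=
    (Nat.prime_two.pow_dvd_iff_le_factorization he0).1 h2
  rw [hRE.1] at h3
  have h4 : 2 ^ (m + n).primeFactorsList.length ≤ 2 ^ 1 := Nat.pow_le_pow_right (by norm_num) h3
  omega

lemma sum_biUnion_le {ι α : Type*} [DecidableEq α] (s : Finset ι) (t : ι → Finset α)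
    (f : α → ℝ) (hf : ∀ x, 0 ≤ f x) : ∑ x ∈ s.biUnion t, f x ≤ ∑ i ∈ s, ∑ x ∈ t i, f x := by
  classical
  induction s using Finset.induction_on with
  | empty => simp
  | insert i s hi ih =>
    rw [Finset.biUnion_insert, Finset.sum_insert hi]
    have h1 := Finset.sum_union_inter (s₁ := t i) (s₂ := s.biUnion t) (f := f)
    have h2 : 0 ≤ ∑ x ∈ t i ∩ s.biUnion t, f x := Finset.sum_nonneg fun x _ => hf x
    linarith

open scoped Classical in
theorem kill_sum (Z : ℕ) (P : ℕ → ℕ) (q J Y : ℕ) (y z a1 b1 a2 b2 : ℝ)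
    (hy0 : 0 < y) (hy1 : y ≤ 1) (hz0 : 0 < z) (hz1 : z ≤ 1) (hZ : 3 * 2 ^ 2 ^ q ≤ Z) (hZY : Z ≤ Y)
    (hY : Y < 2 ^ 2 ^ (J + 1)) (R : ℕ → ℕ)
    (hP1 : ∀ j, q ≤ j → j ≤ J → 1 ≤ P j ∧ P j ≤ Y)
    (hR : ∀ j, q ≤ j → j ≤ J → Even (R j))
    (h1 : ∀ j, q ≤ j → j ≤ J → (Real.exp 1 + 1) * (3 * L (P j)) ≤ R j + 1)
    (h2 : ∀ j, q ≤ j → j ≤ J → 6 * (P j : ℝ) ^ (R j) * Real.exp (6 * L (P j)) ≤ (2 : ℝ) ^ 2 ^ j) :
    ∑ e ∈ (Finset.Icc 1 Y).filter (fun e => (RE Z e ∧ Con Z P q J a1 b1 e) ∧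
      Kill (Con Z P q J a2 b2) e), 2 / (e : ℝ) ≤
    ∑ j ∈ Finset.Icc q J, 24 * (2 : ℝ) ^ j * Real.exp (14 + L Y - L Z - 2 * LM Z (P j) -
      (4 - y - z - 2 * (y * z)) * SS Z (P j) - (a1 * SS Z (P j) + b1) * Real.log y -
      (a2 * SS Z (P j) + b2) * Real.log z) := by
  have hZ2 : 2 ≤ Z := by
    have : 1 ≤ 2 ^ 2 ^ q := Nat.one_le_two_pow
    omega
  -- triples
  set TT : Finset (ℕ × ℕ × ℕ) := ((Finset.Icc 1 Y) ×ˢ ((Finset.Icc 1 Y) ×ˢ (Finset.Icc 1 (2 * Y)))).filter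
    (fun x => Nat.Coprime x.2.1 x.2.2 ∧ x.2.2 ≠ x.2.1 ∧ x.2.2 < 2 * x.2.1 ∧
      (RE Z (x.1 * x.2.1 * (x.2.1 + x.2.2)) ∧ Con Z P q J a1 b1 (x.1 * x.2.1 * (x.2.1 + x.2.2))) ∧
      Con Z P q J a2 b2 (x.1 * x.2.2 * (x.2.1 + x.2.2))) with hTT
  have s1 : ∑ e ∈ (Finset.Icc 1 Y).filter (fun e => (RE Z e ∧ Con Z P q J a1 b1 e) ∧
      Kill (Con Z P q J a2 b2) e), 2 / (e : ℝ) ≤
      ∑ x ∈ TT, 2 / ((x.1 * x.2.1 * (x.2.1 + x.2.2) : ℕ) : ℝ) := by
    refine le_trans ?_ (Finset.sum_image_le_of_nonneg (s := TT)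
      (g := fun x : ℕ × ℕ × ℕ => x.1 * x.2.1 * (x.2.1 + x.2.2))
      (f := fun e : ℕ => 2 / (e : ℝ)) (fun u _ => by positivity))
    apply Finset.sum_le_sum_of_subset_of_nonneg
    · intro e he
      rw [Finset.mem_filter, Finset.mem_Icc] at he
      obtain ⟨⟨he1, heY⟩, hE, k, m, n, hk, hm, hn, hmn, hne, hlt, rfl, hT⟩ := he
      rw [Finset.mem_image]
      refine ⟨(k, m, n), ?_, rfl⟩
      rw [hTT, Finset.mem_filter]
      refine ⟨?_, hmn, hne, hlt, hE, hT⟩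
      have hkm : k ≤ k * m * (m + n) := by
        calc k = k * 1 * 1 := by ring
          _ ≤ k * m * (m + n) := Nat.mul_le_mul (Nat.mul_le_mul_left _ hm) (by omega)
      have hmm : m ≤ k * m * (m + n) := by
        calc m = 1 * m * 1 := by ring
          _ ≤ k * m * (m + n) := Nat.mul_le_mul (Nat.mul_le_mul_right _ hk) (by omega)
      rw [Finset.mem_product, Finset.mem_product, Finset.mem_Icc, Finset.mem_Icc, Finset.mem_Icc]
      refine ⟨⟨hk, by show k ≤ Y; omega⟩, ⟨hm, by show m ≤ Y; omega⟩, ⟨hn, by show n ≤ 2 * Y; omega⟩⟩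
    · intro e _ _; positivity
  refine s1.trans ?_
  -- cover by scales
  set SC : ℕ → ℕ → Finset (ℕ × ℕ × ℕ) := fun j i => TT.filter (fun x => 2 ^ i ≤ x.2.1 ∧ x.2.1 < 2 ^ (i + 1))
    with hSC
  have s2 : ∑ x ∈ TT, 2 / ((x.1 * x.2.1 * (x.2.1 + x.2.2) : ℕ) : ℝ) ≤
      ∑ j ∈ Finset.Icc q J, ∑ i ∈ Finset.Ico (2 ^ j) (2 ^ (j + 1)),
        ∑ x ∈ SC j i, 2 / ((x.1 * x.2.1 * (x.2.1 + x.2.2) : ℕ) : ℝ) := by
    have hcov : ∀ x ∈ TT, ∃ j ∈ Finset.Icc q J, ∃ i ∈ Finset.Ico (2 ^ j) (2 ^ (j + 1)), x ∈ SC j i := by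
      rintro ⟨k, m, n⟩ hx
      rw [hTT, Finset.mem_filter, Finset.mem_product, Finset.mem_product, Finset.mem_Icc,
        Finset.mem_Icc, Finset.mem_Icc] at hx
      obtain ⟨⟨⟨hk, hkY⟩, ⟨hm, hmY⟩, ⟨hn, hnY⟩⟩, hmn, hne, hlt, hE, hT⟩ := hx
      simp only at hk hkY hm hmY hn hnY hmn hne hlt hE hT
      have hbig := big_of_RE hk hm hn hne hE.1
      have hm3 : 2 ^ 2 ^ q ≤ m := by omega
      have hm0 : m ≠ 0 := by omega
      have hi1 : 2 ^ q ≤ Nat.log 2 m := by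
        rw [Nat.le_log_iff_pow_le (by norm_num) hm0]; exact hm3
      have hi2 : Nat.log 2 m < 2 ^ (J + 1) := by
        rw [Nat.log_lt_iff_lt_pow (by norm_num) hm0]; omega
      have hi0 : Nat.log 2 m ≠ 0 := by
        have : 1 ≤ 2 ^ q := Nat.one_le_two_pow
        omega
      have hj1 : q ≤ Nat.log 2 (Nat.log 2 m) := by
        rw [Nat.le_log_iff_pow_le (by norm_num) hi0]; exact hi1
      have hj2 : Nat.log 2 (Nat.log 2 m) < J + 1 := by
        rw [Nat.log_lt_iff_lt_pow (by norm_num) hi0]; exact hi2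
      refine ⟨Nat.log 2 (Nat.log 2 m), Finset.mem_Icc.2 ⟨hj1, by omega⟩, Nat.log 2 m,
        Finset.mem_Ico.2 ⟨Nat.pow_log_le_self 2 hi0, Nat.lt_pow_succ_log_self (by norm_num) _⟩, ?_⟩
      rw [hSC, Finset.mem_filter]
      refine ⟨?_, Nat.pow_log_le_self 2 hm0, Nat.lt_pow_succ_log_self (by norm_num) _⟩
      rw [hTT, Finset.mem_filter, Finset.mem_product, Finset.mem_product, Finset.mem_Icc,
        Finset.mem_Icc, Finset.mem_Icc]
      exact ⟨⟨⟨hk, hkY⟩, ⟨hm, hmY⟩, ⟨hn, hnY⟩⟩, hmn, hne, hlt, hE, hT⟩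
    have hsub : TT ⊆ (Finset.Icc q J).biUnion (fun j => (Finset.Ico (2 ^ j) (2 ^ (j + 1))).biUnion
        (fun i => SC j i)) := by
      intro x hx
      obtain ⟨j, hj, i, hi, hx'⟩ := hcov x hx
      rw [Finset.mem_biUnion]
      exact ⟨j, hj, Finset.mem_biUnion.2 ⟨i, hi, hx'⟩⟩
    refine (Finset.sum_le_sum_of_subset_of_nonneg hsub (fun x _ _ => by positivity)).trans ?_
    refine (sum_biUnion_le _ _ _ (fun x => by positivity)).trans ?_
    apply Finset.sum_le_sum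
    intro j _
    exact sum_biUnion_le _ _ _ (fun x => by positivity)
  refine s2.trans ?_
  apply Finset.sum_le_sum
  intro j hj
  rw [Finset.mem_Icc] at hj
  set D := Real.exp (14 + L Y - L Z - 2 * LM Z (P j) -
      (4 - y - z - 2 * (y * z)) * SS Z (P j) - (a1 * SS Z (P j) + b1) * Real.log y -
      (a2 * SS Z (P j) + b2) * Real.log z) with hD
  have hmain : ∀ i ∈ Finset.Ico (2 ^ j) (2 ^ (j + 1)),
      ∑ x ∈ SC j i, 2 / ((x.1 * x.2.1 * (x.2.1 + x.2.2) : ℕ) : ℝ) ≤ 24 * D := by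
    intro i hi
    rw [Finset.mem_Ico] at hi
    set C := Real.exp (-(a1 * SS Z (P j) + b1) * Real.log y - (a2 * SS Z (P j) + b2) * Real.log z)
      with hC
    set cw : ℕ → ℝ := fun p => ye Z (P j) y p * zb Z (P j) z p with hcw
    have hcw0 : ∀ p, 0 ≤ cw p := fun p => mul_nonneg (ye_nonneg hy0.le p) (zb_nonneg hz0.le p)
    have hcw1 : ∀ p, cw p ≤ 1 := fun p =>
      mul_le_one₀ (ye_le_one hy1 p) (zb_nonneg hz0.le p) (zb_le_one hz1 p)
    set G : ℕ × ℕ × ℕ → ℝ := fun x => C * (W cw x.1 / x.1) * (2 / (4 : ℝ) ^ i *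
      ∏ p ∈ PP (P j), (1 - tt Z (P j) y z p x.2.1 x.2.2)) with hG
    have hprod0 : ∀ m n, 0 ≤ ∏ p ∈ PP (P j), (1 - tt Z (P j) y z p m n) := fun m n =>
      Finset.prod_nonneg fun p _ => by
        have := tt_le_one (Z := Z) (P := P j) hy0.le hy1 hz0.le hz1 p m n
        linarith
    have hG0 : ∀ x, 0 ≤ G x := by
      intro x
      rw [hG]
      have := W_nonneg hcw0 x.1
      have := hprod0 x.2.1 x.2.2
      dsimp only
      positivity
    have hle : ∀ x ∈ SC j i, 2 / ((x.1 * x.2.1 * (x.2.1 + x.2.2) : ℕ) : ℝ) ≤ G x := by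
      rintro ⟨k, m, n⟩ hx
      rw [hSC, Finset.mem_filter, hTT, Finset.mem_filter, Finset.mem_product, Finset.mem_product,
        Finset.mem_Icc, Finset.mem_Icc, Finset.mem_Icc] at hx
      obtain ⟨⟨⟨⟨hk, hkY⟩, ⟨hm, hmY⟩, ⟨hn, hnY⟩⟩, hmn, hne, hlt, hE, hT⟩, hmi, hmi'⟩ := hx
      simp only at hk hkY hm hmY hn hnY hmn hne hlt hE hT hmi hmi'
      have w1 := ye_weight (t := a1 * SS Z (P j) + b1) hZ2 hy0 hy1 hE.1 (hE.2 j hj.1 hj.2)
      have w2 := zb_weight (t := a2 * SS Z (P j) + b2) hz0 hz1 (hT j hj.1 hj.2)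
      have hk0 : k ≠ 0 := by omega
      have hm0 : m ≠ 0 := by omega
      have hn0 : n ≠ 0 := by omega
      have hd0 : m + n ≠ 0 := by omega
      rw [W_mul _ (by positivity) hd0, W_mul _ hk0 hm0] at w1
      rw [W_mul _ (by positivity) hd0, W_mul _ hk0 hn0] at w2
      have w3 := weights_le (Z := Z) (P := P j) hy0.le hy1 hz0.le hz1 hm0 hn0 hmn
      have w4 : W cw k = W (ye Z (P j) y) k * W (zb Z (P j) z) k := W_mul_fun _ _ _
      have w5 : W cw (m + n) = W (ye Z (P j) y) (m + n) * W (zb Z (P j) z) (m + n) := W_mul_fun _ _ _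
      have w6 : (1 : ℝ) ≤ C * (W cw k * ∏ p ∈ PP (P j), (1 - tt Z (P j) y z p m n)) := by
        have hprod : Real.exp ((a1 * SS Z (P j) + b1) * Real.log y) *
            Real.exp ((a2 * SS Z (P j) + b2) * Real.log z) ≤
            W cw k * ∏ p ∈ PP (P j), (1 - tt Z (P j) y z p m n) := by
          calc _ ≤ (W (ye Z (P j) y) k * W (ye Z (P j) y) m * W (ye Z (P j) y) (m + n)) *
              (W (zb Z (P j) z) k * W (zb Z (P j) z) n * W (zb Z (P j) z) (m + n)) :=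
                mul_le_mul w1 w2 (Real.exp_pos _).le ((Real.exp_pos _).le.trans w1)
            _ = W cw k * (W (ye Z (P j) y) m * W (zb Z (P j) z) n * W cw (m + n)) := by
                rw [w4, w5]; ring
            _ ≤ _ := mul_le_mul_of_nonneg_left w3 (W_nonneg hcw0 _)
        have hCC : C * (Real.exp ((a1 * SS Z (P j) + b1) * Real.log y) *
            Real.exp ((a2 * SS Z (P j) + b2) * Real.log z)) = 1 := by
          rw [hC, ← Real.exp_add, ← Real.exp_add]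
          have : -(a1 * SS Z (P j) + b1) * Real.log y - (a2 * SS Z (P j) + b2) * Real.log z +
            ((a1 * SS Z (P j) + b1) * Real.log y + (a2 * SS Z (P j) + b2) * Real.log z) = 0 := by ring
          rw [this, Real.exp_zero]
        exact hCC.symm.le.trans (mul_le_mul_of_nonneg_left hprod (Real.exp_pos _).le)
      have hkr : (0 : ℝ) < k := by exact_mod_cast hk
      have hmr : (2 : ℝ) ^ i ≤ m := by exact_mod_cast hmi
      have hnr : (0 : ℝ) < n := by exact_mod_cast hn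
      have h4 : (4 : ℝ) ^ i ≤ (m : ℝ) * (m + n) := by
        have e4 : (4 : ℝ) ^ i = 2 ^ i * 2 ^ i := by rw [← mul_pow]; norm_num
        have : (0 : ℝ) < 2 ^ i := by positivity
        rw [e4]
        exact mul_le_mul hmr (by linarith) this.le (by linarith)
      have h5 : 2 / ((k * m * (m + n) : ℕ) : ℝ) ≤ (1 / k) * (2 / (4 : ℝ) ^ i) := by
        push_cast
        rw [one_div_mul_eq_div, div_div, mul_assoc, mul_comm ((4 : ℝ) ^ i) (k : ℝ)]
        apply div_le_div_of_nonneg_left (by norm_num) (by positivity)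
        exact mul_le_mul_of_nonneg_left h4 hkr.le
      have h6 : (0 : ℝ) ≤ (1 / k) * (2 / (4 : ℝ) ^ i) := by positivity
      calc _ ≤ (1 / (k : ℝ)) * (2 / (4 : ℝ) ^ i) := h5
        _ = (1 / (k : ℝ)) * (2 / (4 : ℝ) ^ i) * 1 := by ring
        _ ≤ (1 / (k : ℝ)) * (2 / (4 : ℝ) ^ i) *
            (C * (W cw k * ∏ p ∈ PP (P j), (1 - tt Z (P j) y z p m n))) :=
            mul_le_mul_of_nonneg_left w6 h6
        _ = G (k, m, n) := by rw [hG]; ring
    have hsubset : SC j i ⊆ (Finset.Icc 1 Y) ×ˢ ((Finset.Ico (2 ^ i) (2 ^ (i + 1))) ×ˢ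
        (Finset.Ico 0 (2 ^ (i + 2)))) := by
      rintro ⟨k, m, n⟩ hx
      rw [hSC, Finset.mem_filter, hTT, Finset.mem_filter, Finset.mem_product, Finset.mem_product,
        Finset.mem_Icc, Finset.mem_Icc, Finset.mem_Icc] at hx
      obtain ⟨⟨⟨⟨hk, hkY⟩, ⟨hm, hmY⟩, ⟨hn, hnY⟩⟩, hmn, hne, hlt, hE, hT⟩, hmi, hmi'⟩ := hx
      simp only at hk hkY hm hmY hn hnY hmn hne hlt hE hT hmi hmi'
      rw [Finset.mem_product, Finset.mem_product, Finset.mem_Icc, Finset.mem_Ico, Finset.mem_Ico]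
      refine ⟨⟨hk, hkY⟩, ⟨hmi, hmi'⟩, ⟨by show 0 ≤ n; omega, ?_⟩⟩
      show n < 2 ^ (i + 2)
      have : 2 ^ (i + 2) = 2 * 2 ^ (i + 1) := by rw [pow_succ]; ring
      omega
    have hbox := box_bound (Z := Z) (P := P j) hy0.le hy1 hz0.le hz1 hZ2 (hP1 j hj.1 hj.2).1 (R j) i
      (hR j hj.1 hj.2) (h1 j hj.1 hj.2)
      ((h2 j hj.1 hj.2).trans (pow_le_pow_right₀ (by norm_num) hi.1))
    have hk := euler_upper hcw0 (fun p => (hcw1 p).trans (by norm_num)) Y
    have hk2 := sum_yezb_le (y := y) (z := z) hZ2 hZY (hP1 j hj.1 hj.2).2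
    calc ∑ x ∈ SC j i, 2 / ((x.1 * x.2.1 * (x.2.1 + x.2.2) : ℕ) : ℝ) ≤ ∑ x ∈ SC j i, G x :=
          Finset.sum_le_sum hle
      _ ≤ ∑ x ∈ (Finset.Icc 1 Y) ×ˢ ((Finset.Ico (2 ^ i) (2 ^ (i + 1))) ×ˢ
        (Finset.Ico 0 (2 ^ (i + 2)))), G x :=
          Finset.sum_le_sum_of_subset_of_nonneg hsubset (fun x _ _ => hG0 x)
      _ = C * (∑ k ∈ Finset.Icc 1 Y, W cw k / k) * (2 / (4 : ℝ) ^ i *
          ∑ m ∈ Finset.Ico (2 ^ i) (2 ^ (i + 1)), ∑ n ∈ Finset.Ico 0 (2 ^ (i + 2)),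
            ∏ p ∈ PP (P j), (1 - tt Z (P j) y z p m n)) := by
          rw [Finset.sum_product]
          simp only [Finset.sum_product, hG]
          rw [Finset.mul_sum, Finset.sum_mul]
          apply Finset.sum_congr rfl
          intro k _
          simp only [Finset.mul_sum]
      _ ≤ C * Real.exp (∑ p ∈ PP Y, cw p / p + 9) * (2 / (4 : ℝ) ^ i *
          (12 * (4 : ℝ) ^ i * Real.exp (4 - 2 * LM Z (P j) - (3 - y - z - y * z) * SS Z (P j)))) := by
          apply mul_le_mul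
          · exact mul_le_mul_of_nonneg_left hk (Real.exp_pos _).le
          · exact mul_le_mul_of_nonneg_left hbox (by positivity)
          · apply mul_nonneg (by positivity)
            exact Finset.sum_nonneg fun m _ => Finset.sum_nonneg fun n _ => hprod0 m n
          · positivity
      _ = 24 * (C * Real.exp (∑ p ∈ PP Y, cw p / p + 9) *
          Real.exp (4 - 2 * LM Z (P j) - (3 - y - z - y * z) * SS Z (P j))) := by
          have : (4 : ℝ) ^ i ≠ 0 := by positivity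
          field_simp
          ring
      _ ≤ 24 * D := by
          apply mul_le_mul_of_nonneg_left _ (by norm_num)
          rw [hC, hD, ← Real.exp_add, ← Real.exp_add]
          apply Real.exp_le_exp.2
          have : ∑ p ∈ PP Y, cw p / p ≤ 1 + L Y - L Z - (1 - y * z) * SS Z (P j) := hk2
          nlinarith
  calc _ ≤ ∑ i ∈ Finset.Ico (2 ^ j) (2 ^ (j + 1)), 24 * D := Finset.sum_le_sum hmain
    _ = 24 * (2 : ℝ) ^ j * D := by
        rw [Finset.sum_const, Nat.card_Ico, nsmul_eq_mul]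
        have : 2 ^ (j + 1) - 2 ^ j = 2 ^ j := by rw [pow_succ]; omega
        rw [this]; push_cast; ring

end Pool.Agent.H500R2
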