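import Mathlib
import Pool.Agent.H500R2.KillSum

set_option autoImplicit false

namespace Pool.Agent.H500R2

open Finset

/-- weight with value `v` up to `Z` and `w` on `(Z, P]` -/
noncomputable def cz (Z P : ℕ) (v w : ℝ) (p : ℕ) : ℝ := if p ≤ Z then v else if p ≤ P then w else 1

lemma cz_nonneg {Z P : ℕ} {v w : ℝ} (hv : 0 ≤ v) (hw : 0 ≤ w) (p : ℕ) : 0 ≤ cz Z P v w p := by
  unfold cz; split_ifs
  · exact hv
  · exact hw
  · norm_num

lemma cz_le {Z P : ℕ} {v w : ℝ} (hv : v ≤ 3 / 2) (hw : w ≤ 3 / 2) (p : ℕ) :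
    cz Z P v w p ≤ 3 / 2 := by
  unfold cz; split_ifs
  · exact hv
  · exact hw
  · norm_num

lemma sum_cz {Z P Y : ℕ} {v w : ℝ} (hZY : Z ≤ Y) (hPY : P ≤ Y) :
    ∑ p ∈ PP Y, cz Z P v w p / p = L Y + (v - 1) * L Z + (w - 1) * SS Z P := by
  classical
  have e1 : ∀ p ∈ PP Y, cz Z P v w p / p = 1 / (p : ℝ) + (v - 1) * (if p ≤ Z then 1 / (p : ℝ) else 0)
      + (w - 1) * (if Z < p ∧ p ≤ P then 1 / (p : ℝ) else 0) := by
    intro p _
    unfold cz
    by_cases h3 : p ≤ Z
    · rw [if_pos h3, if_pos h3, if_neg (by omega)]; ring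
    · rw [if_neg h3, if_neg h3]
      by_cases h4 : p ≤ P
      · rw [if_pos h4, if_pos (by omega)]; ring
      · rw [if_neg h4, if_neg (by omega)]; ring
  rw [Finset.sum_congr rfl e1, Finset.sum_add_distrib, Finset.sum_add_distrib,
    ← Finset.mul_sum, ← Finset.mul_sum, ← Finset.sum_filter,
    ← Finset.sum_filter (fun p => Z < p ∧ p ≤ P)]
  have f1 : (PP Y).filter (fun p => p ≤ Z) = PP Z := by
    ext p; rw [Finset.mem_filter, mem_PP, mem_PP]
    constructor
    · rintro ⟨⟨a, _⟩, b⟩; exact ⟨a, b⟩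
    · rintro ⟨a, b⟩; exact ⟨⟨a, by omega⟩, b⟩
  have f2 : (PP Y).filter (fun p => Z < p ∧ p ≤ P) = (PP P).filter (fun p => Z < p) := by
    ext p; rw [Finset.mem_filter, mem_PP, Finset.mem_filter, mem_PP]
    constructor
    · rintro ⟨⟨a, _⟩, b, c⟩; exact ⟨⟨a, c⟩, b⟩
    · rintro ⟨⟨a, b⟩, c⟩; exact ⟨⟨a, by omega⟩, c, b⟩
  rw [f1, f2]
  rfl

lemma pow_le_exp' {w t : ℝ} {k : ℕ} (hw1 : 1 ≤ w) (h : t < (k : ℝ)) :
    1 ≤ w ^ k * Real.exp (-(t * Real.log w)) := by
  have hw0 : 0 < w := by linarith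
  have h1 : w ^ k = Real.exp (k * Real.log w) := by
    rw [Real.exp_nat_mul, Real.exp_log hw0]
  rw [h1, ← Real.exp_add]
  apply Real.one_le_exp
  have : 0 ≤ Real.log w := Real.log_nonneg hw1
  nlinarith

open scoped Classical in
theorem bad_sum (Z : ℕ) (P : ℕ → ℕ) (q J Y : ℕ) (z0 a2 b2 : ℝ) (h1 : 1 ≤ z0) (h2 : z0 ≤ 3 / 2)
    (hZY : Z ≤ Y) (hP : ∀ j, q ≤ j → j ≤ J → P j ≤ Y) :
    ∑ b ∈ (Finset.Icc 1 Y).filter (fun b => ¬ Con Z P q J a2 b2 b), 2 / (b : ℝ) ≤
    ∑ j ∈ Finset.Icc q J, 2 * Real.exp (9 + L Y + (z0 - 1) * SS Z (P j) -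
      (a2 * SS Z (P j) + b2) * Real.log z0) := by
  have hpt : ∀ b ∈ (Finset.Icc 1 Y).filter (fun b => ¬ Con Z P q J a2 b2 b), 2 / (b : ℝ) ≤
      ∑ j ∈ Finset.Icc q J, 2 * Real.exp (-((a2 * SS Z (P j) + b2) * Real.log z0)) *
        (W (cz Z (P j) 1 z0) b / b) := by
    intro b hb
    rw [Finset.mem_filter, Finset.mem_Icc] at hb
    obtain ⟨⟨hb1, hbY⟩, hc⟩ := hb
    unfold Con at hc
    push Not at hc
    obtain ⟨j, hj1, hj2, hj⟩ := hc
    have hb0 : (0 : ℝ) < b := by exact_mod_cast hb1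
    have hterm : 2 / (b : ℝ) ≤ 2 * Real.exp (-((a2 * SS Z (P j) + b2) * Real.log z0)) *
        (W (cz Z (P j) 1 z0) b / b) := by
      have hW : W (cz Z (P j) 1 z0) b = z0 ^ Om Z (P j) b := by
        apply W_eq_pow_Om
        · intro p _ _ h1 h2
          unfold cz
          rw [if_neg (by omega), if_pos h2]
        · intro p _ _ h
          unfold cz
          rcases h with h | h
          · rw [if_pos h]
          · by_cases h2 : p ≤ Z
            · rw [if_pos h2]
            · rw [if_neg h2, if_neg (by omega)]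
      rw [hW]
      have := pow_le_exp' h1 hj
      have e : 2 * Real.exp (-((a2 * SS Z (P j) + b2) * Real.log z0)) * (z0 ^ Om Z (P j) b / b) =
          (2 / b) * (z0 ^ Om Z (P j) b * Real.exp (-((a2 * SS Z (P j) + b2) * Real.log z0))) := by
        field_simp
      rw [e]
      have h3 : (0 : ℝ) ≤ 2 / b := by positivity
      nlinarith
    refine hterm.trans ?_
    apply Finset.single_le_sum (f := fun j => 2 * Real.exp (-((a2 * SS Z (P j) + b2) * Real.log z0)) *
        (W (cz Z (P j) 1 z0) b / b)) _ (Finset.mem_Icc.2 ⟨hj1, hj2⟩)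
    intro i _
    have := W_nonneg (cz_nonneg (Z := Z) (P := P i) (v := 1) (w := z0) (by norm_num) (by linarith)) b
    positivity
  refine (Finset.sum_le_sum hpt).trans ?_
  refine (Finset.sum_le_sum_of_subset_of_nonneg (Finset.filter_subset _ _) ?_).trans ?_
  · intro b _ _
    apply Finset.sum_nonneg
    intro i _
    have := W_nonneg (cz_nonneg (Z := Z) (P := P i) (v := 1) (w := z0) (by norm_num) (by linarith)) b
    positivity
  rw [Finset.sum_comm]
  apply Finset.sum_le_sum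
  intro j hj
  rw [Finset.mem_Icc] at hj
  rw [← Finset.mul_sum]
  have he := euler_upper (cz_nonneg (Z := Z) (P := P j) (v := 1) (w := z0) (by norm_num) (by linarith))
    (cz_le (by norm_num) h2) Y
  rw [sum_cz hZY (hP j hj.1 hj.2)] at he
  calc _ ≤ 2 * Real.exp (-((a2 * SS Z (P j) + b2) * Real.log z0)) *
        Real.exp (L Y + (1 - 1) * L Z + (z0 - 1) * SS Z (P j) + 9) :=
        mul_le_mul_of_nonneg_left he (by positivity)
    _ = _ := by
        rw [mul_assoc, ← Real.exp_add]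
        congr 2
        ring

lemma Om_two_mul {Z P u : ℕ} (hZ : 2 ≤ Z) (hu : u ≠ 0) : Om Z P (2 * u) = Om Z P u := by
  unfold Om
  apply Finset.sum_congr rfl
  intro p hp
  rw [Finset.mem_filter] at hp
  rw [Nat.factorization_mul (by norm_num) hu, Finsupp.add_apply, Nat.prime_two.factorization,
    Finsupp.single_apply, if_neg (by omega), zero_add]

lemma RE_two_mul {Z u : ℕ} (hZ : 2 ≤ Z) (hu : u ≠ 0) (h : Rough Z u) : RE Z (2 * u) := by
  constructor
  · rw [Nat.factorization_mul (by norm_num) hu, Finsupp.add_apply, Nat.prime_two.factorization,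
      Finsupp.single_apply, if_pos rfl, Nat.factorization_eq_zero_of_not_dvd]
    intro h2
    have := h 2 Nat.prime_two h2
    omega
  · intro p hp hpu
    rcases (Nat.Prime.dvd_mul hp).1 hpu with h1 | h1
    · left; exact (Nat.prime_dvd_prime_iff_eq hp Nat.prime_two).1 h1
    · right; exact h p hp h1

open scoped Classical in
theorem main_sum (Z : ℕ) (P : ℕ → ℕ) (q J Y : ℕ) (z1 a1 b1 : ℝ) (hZ : 2 ≤ Z) (h1 : 1 ≤ z1)
    (h2 : z1 ≤ 3 / 2) (hZY : Z ≤ Y) (hP : ∀ j, q ≤ j → j ≤ J → P j ≤ Y) :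
    (1 / 4) * (Real.exp (-(L Z + 9)) * Real.log ((Y / 4 : ℕ) : ℝ) -
      ∑ j ∈ Finset.Icc q J, Real.exp (9 + L Y - L Z + (z1 - 1) * SS Z (P j) -
      (a1 * SS Z (P j) + b1) * Real.log z1)) ≤
    ∑ e ∈ (Finset.Icc 1 Y).filter (fun e => 2 * e ≤ Y ∧ (RE Z e ∧ Con Z P q J a1 b1 e)),
      1 / (2 * (e : ℝ)) := by
  -- typical rough numbers
  have s1 : ∑ u ∈ (RS Z (Y / 4)).filter (fun u => Con Z P q J a1 b1 u), (1 / 4) * (1 / (u : ℝ)) ≤
      ∑ e ∈ (Finset.Icc 1 Y).filter (fun e => 2 * e ≤ Y ∧ (RE Z e ∧ Con Z P q J a1 b1 e)),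
      1 / (2 * (e : ℝ)) := by
    have hinj : Set.InjOn (fun u : ℕ => 2 * u)
        ((RS Z (Y / 4)).filter (fun u => Con Z P q J a1 b1 u) : Finset ℕ) := by
      intro a _ b _ hab
      simp only at hab
      omega
    have e1 : ∑ u ∈ (RS Z (Y / 4)).filter (fun u => Con Z P q J a1 b1 u), (1 / 4) * (1 / (u : ℝ)) =
        ∑ e ∈ ((RS Z (Y / 4)).filter (fun u => Con Z P q J a1 b1 u)).image (fun u : ℕ => 2 * u),
          1 / (2 * ((e : ℕ) : ℝ)) := by
      rw [Finset.sum_image hinj]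
      apply Finset.sum_congr rfl
      intro u hu
      rw [Finset.mem_filter, mem_RS] at hu
      have : (0 : ℝ) < u := by exact_mod_cast hu.1.1.1
      push_cast
      field_simp
      norm_num
    rw [e1]
    apply Finset.sum_le_sum_of_subset_of_nonneg
    · intro e he
      rw [Finset.mem_image] at he
      obtain ⟨u, hu, rfl⟩ := he
      rw [Finset.mem_filter, mem_RS] at hu
      obtain ⟨⟨⟨hu1, hu2⟩, hr⟩, hc⟩ := hu
      rw [Finset.mem_filter, Finset.mem_Icc]
      have : u * 4 ≤ Y := (Nat.le_div_iff_mul_le (by norm_num)).1 hu2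
      refine ⟨⟨by omega, by omega⟩, by omega, RE_two_mul hZ (by omega) hr, ?_⟩
      intro j hj1 hj2
      rw [Om_two_mul hZ (by omega)]
      exact hc j hj1 hj2
    · intro e _ _; positivity
  refine le_trans ?_ s1
  rw [← Finset.mul_sum]
  apply mul_le_mul_of_nonneg_left _ (by norm_num)
  have s2 := Finset.sum_filter_add_sum_filter_not (RS Z (Y / 4)) (fun u => Con Z P q J a1 b1 u)
    (fun u => 1 / (u : ℝ))
  have s3 := rough_lower Z (Y / 4)
  have s4 : Real.exp (-(L Z + 9)) * Real.log ((Y / 4 : ℕ) : ℝ) ≤ ∑ u ∈ RS Z (Y / 4), 1 / (u : ℝ) := by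
    rw [Real.exp_neg, inv_mul_le_iff₀ (Real.exp_pos _)]
    exact s3
  have s5 : ∑ u ∈ (RS Z (Y / 4)).filter (fun u => ¬ Con Z P q J a1 b1 u), 1 / (u : ℝ) ≤
      ∑ j ∈ Finset.Icc q J, Real.exp (9 + L Y - L Z + (z1 - 1) * SS Z (P j) -
      (a1 * SS Z (P j) + b1) * Real.log z1) := by
    have hpt : ∀ u ∈ (RS Z (Y / 4)).filter (fun u => ¬ Con Z P q J a1 b1 u), 1 / (u : ℝ) ≤
        ∑ j ∈ Finset.Icc q J, Real.exp (-((a1 * SS Z (P j) + b1) * Real.log z1)) *
          (W (cz Z (P j) 0 z1) u / u) := by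
      intro b hb
      rw [Finset.mem_filter, mem_RS] at hb
      obtain ⟨⟨⟨hb1, hbY⟩, hrough⟩, hc⟩ := hb
      unfold Con at hc
      push Not at hc
      obtain ⟨j, hj1, hj2, hj⟩ := hc
      have hb0 : (0 : ℝ) < b := by exact_mod_cast hb1
      have hterm : 1 / (b : ℝ) ≤ Real.exp (-((a1 * SS Z (P j) + b1) * Real.log z1)) *
          (W (cz Z (P j) 0 z1) b / b) := by
        have hW : W (cz Z (P j) 0 z1) b = z1 ^ Om Z (P j) b := by
          apply W_eq_pow_Om
          · intro p _ _ h1 h2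
            unfold cz
            rw [if_neg (by omega), if_pos h2]
          · intro p hp hpb h
            unfold cz
            have := hrough p hp hpb
            rw [if_neg (by omega), if_neg (by omega)]
        rw [hW]
        have := pow_le_exp' h1 hj
        have e : Real.exp (-((a1 * SS Z (P j) + b1) * Real.log z1)) * (z1 ^ Om Z (P j) b / b) =
            (1 / b) * (z1 ^ Om Z (P j) b * Real.exp (-((a1 * SS Z (P j) + b1) * Real.log z1))) := by
          field_simp
        rw [e]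
        have h3 : (0 : ℝ) ≤ 1 / b := by positivity
        nlinarith
      refine hterm.trans ?_
      apply Finset.single_le_sum (f := fun j => Real.exp (-((a1 * SS Z (P j) + b1) * Real.log z1)) *
          (W (cz Z (P j) 0 z1) b / b)) _ (Finset.mem_Icc.2 ⟨hj1, hj2⟩)
      intro i _
      have := W_nonneg (cz_nonneg (Z := Z) (P := P i) (v := 0) (w := z1) (by norm_num) (by linarith)) b
      positivity
    refine (Finset.sum_le_sum hpt).trans ?_
    have hsub : (RS Z (Y / 4)).filter (fun u => ¬ Con Z P q J a1 b1 u) ⊆ Finset.Icc 1 Y := by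
      intro u hu
      rw [Finset.mem_filter, mem_RS] at hu
      rw [Finset.mem_Icc]
      have := hu.1.1.2
      have := Nat.div_le_self Y 4
      omega
    refine (Finset.sum_le_sum_of_subset_of_nonneg hsub ?_).trans ?_
    · intro b _ _
      apply Finset.sum_nonneg
      intro i _
      have := W_nonneg (cz_nonneg (Z := Z) (P := P i) (v := 0) (w := z1) (by norm_num) (by linarith)) b
      positivity
    rw [Finset.sum_comm]
    apply Finset.sum_le_sum
    intro j hj
    rw [Finset.mem_Icc] at hj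
    rw [← Finset.mul_sum]
    have he := euler_upper (cz_nonneg (Z := Z) (P := P j) (v := 0) (w := z1) (by norm_num) (by linarith))
      (cz_le (by norm_num) h2) Y
    rw [sum_cz hZY (hP j hj.1 hj.2)] at he
    calc _ ≤ Real.exp (-((a1 * SS Z (P j) + b1) * Real.log z1)) *
          Real.exp (L Y + (0 - 1) * L Z + (z1 - 1) * SS Z (P j) + 9) :=
          mul_le_mul_of_nonneg_left he (by positivity)
      _ = _ := by
          rw [← Real.exp_add]
          congr 1
          ring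
  linarith

end Pool.Agent.H500R2
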