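import Mathlib
import Pool.Agent.H500R2.MainSum

set_option autoImplicit false

namespace Pool.Agent.H500R2

open Finset

lemma L_mono {a b : ℕ} (h : a ≤ b) : L a ≤ L b := by
  unfold L
  apply Finset.sum_le_sum_of_subset_of_nonneg
  · intro p hp
    rw [mem_PP] at hp ⊢
    exact ⟨hp.1, hp.2.trans h⟩
  · intro p _ _; positivity

lemma exp_L_le {C : ℝ} (hC : ∀ N : ℕ, 3 ≤ N → |L N - Real.log (Real.log N)| ≤ C) {N : ℕ} (hN : 3 ≤ N) :
    Real.exp (L N) ≤ Real.exp C * Real.log N := by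
  have h1 := (abs_le.1 (hC N hN)).2
  have h2 : 0 < Real.log N := Real.log_pos (by exact_mod_cast (by omega : 1 < N))
  calc Real.exp (L N) ≤ Real.exp (C + Real.log (Real.log N)) := Real.exp_le_exp.2 (by linarith)
    _ = _ := by rw [Real.exp_add, Real.exp_log h2]

lemma exp_neg_L_le {C : ℝ} (hC : ∀ N : ℕ, 3 ≤ N → |L N - Real.log (Real.log N)| ≤ C) {N : ℕ} (hN : 3 ≤ N) :
    Real.exp (-L N) ≤ Real.exp C / Real.log N := by
  have h1 := (abs_le.1 (hC N hN)).1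
  have h2 : 0 < Real.log N := Real.log_pos (by exact_mod_cast (by omega : 1 < N))
  calc Real.exp (-L N) ≤ Real.exp (C - Real.log (Real.log N)) := Real.exp_le_exp.2 (by linarith)
    _ = _ := by rw [Real.exp_sub, Real.exp_log h2]

/-- the sifting limit at scale `j` -/
def Pj (B j : ℕ) : ℕ := 2 ^ (2 ^ j / (B * (j + 1)))

section
variable {C : ℝ} (hC0 : 0 ≤ C) (hC : ∀ N : ℕ, 3 ≤ N → |L N - Real.log (Real.log N)| ≤ C)
  {B j : ℕ} (hB : 1 ≤ B) (hj : 2 * B * (j + 1) ≤ 2 ^ j)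
include hB hj

lemma aj_ge : 2 ≤ 2 ^ j / (B * (j + 1)) := by
  rw [Nat.le_div_iff_mul_le (by positivity)]
  calc 2 * (B * (j + 1)) = 2 * B * (j + 1) := by ring
    _ ≤ _ := hj

lemma Pj_ge : 3 ≤ Pj B j := by
  have h := aj_ge hB hj
  unfold Pj
  have : 2 ^ 2 ≤ 2 ^ (2 ^ j / (B * (j + 1))) := Nat.pow_le_pow_right (by norm_num) h
  omega

lemma Pj_le : Pj B j ≤ 2 ^ 2 ^ j := Nat.pow_le_pow_right (by norm_num) (Nat.div_le_self _ _)

lemma log_Pj : Real.log (Pj B j) = ((2 ^ j / (B * (j + 1)) : ℕ) : ℝ) * Real.log 2 := by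
  unfold Pj
  push_cast
  rw [Real.log_pow]

lemma aj_real : (2 : ℝ) ^ j ≤ 2 * B * (j + 1) * ((2 ^ j / (B * (j + 1)) : ℕ) : ℝ) := by
  have h := aj_ge hB hj
  have h1 := Nat.lt_div_mul_add (a := 2 ^ j) (b := B * (j + 1)) (by positivity)
  have h2 : 2 ^ j ≤ 2 * (2 ^ j / (B * (j + 1)) * (B * (j + 1))) := by
    have : 1 * (B * (j + 1)) ≤ 2 ^ j / (B * (j + 1)) * (B * (j + 1)) :=
      Nat.mul_le_mul_right _ (by omega)
    omega
  have h3 : ((2 ^ j : ℕ) : ℝ) ≤ ((2 * (2 ^ j / (B * (j + 1)) * (B * (j + 1))) : ℕ) : ℝ) := by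
    exact_mod_cast h2
  push_cast at h3
  push_cast
  linarith

include hC

include hC0 in
lemma L_Pj_le : L (Pj B j) ≤ j + C := by
  have h1 := (abs_le.1 (hC _ (Pj_ge hB hj))).2
  have h2 : 0 < Real.log (Pj B j) := Real.log_pos (by exact_mod_cast (lt_of_lt_of_le (by norm_num) (Pj_ge hB hj)))
  have h3 : Real.log (Pj B j) ≤ 2 ^ j := by
    rw [log_Pj hB hj]
    have : ((2 ^ j / (B * (j + 1)) : ℕ) : ℝ) ≤ 2 ^ j := by
      have := Nat.div_le_self (2 ^ j) (B * (j + 1))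
      exact_mod_cast this
    have hl : Real.log 2 ≤ 1 := by linarith [Real.log_two_lt_d9]
    have hl0 : 0 ≤ Real.log 2 := by linarith [Real.log_two_gt_d9]
    nlinarith [Nat.cast_nonneg (α := ℝ) (2 ^ j / (B * (j + 1)))]
  have h4 : Real.log (Real.log (Pj B j)) ≤ j := by
    calc _ ≤ Real.log (2 ^ j) := Real.log_le_log h2 h3
      _ = j * Real.log 2 := by rw [Real.log_pow]
      _ ≤ j * 1 := by
          apply mul_le_mul_of_nonneg_left _ (by positivity)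
          linarith [Real.log_two_lt_d9]
      _ = j := mul_one _
  linarith

lemma exp_neg_L_Pj : Real.exp (-L (Pj B j)) ≤ 4 * B * Real.exp C * ((j + 1) / 2 ^ j) := by
  have h1 := exp_neg_L_le hC (Pj_ge hB hj)
  refine h1.trans ?_
  rw [log_Pj hB hj]
  have h2 := aj_real hB hj
  have ha : (0 : ℝ) < ((2 ^ j / (B * (j + 1)) : ℕ) : ℝ) := by
    have := aj_ge hB hj
    exact_mod_cast (by omega : 0 < 2 ^ j / (B * (j + 1)))
  have hl : (1 : ℝ) / 2 ≤ Real.log 2 := by linarith [Real.log_two_gt_d9]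
  have hl0 : 0 < Real.log 2 := by linarith
  rw [div_le_iff₀ (by positivity)]
  have h2j : (0 : ℝ) < 2 ^ j := by positivity
  have e : 4 * (B : ℝ) * Real.exp C * ((j + 1) / 2 ^ j) *
      (((2 ^ j / (B * (j + 1)) : ℕ) : ℝ) * Real.log 2) =
      Real.exp C * ((2 * B * (j + 1) * ((2 ^ j / (B * (j + 1)) : ℕ) : ℝ)) / 2 ^ j * (2 * Real.log 2)) := by
    ring
  rw [e]
  have h3 : 1 ≤ (2 * B * (j + 1) * ((2 ^ j / (B * (j + 1)) : ℕ) : ℝ)) / 2 ^ j := by
    rw [le_div_iff₀ h2j]; linarith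
  have h4 : 1 ≤ 2 * Real.log 2 := by linarith
  have h5 : 1 ≤ (2 * B * (j + 1) * ((2 ^ j / (B * (j + 1)) : ℕ) : ℝ)) / 2 ^ j * (2 * Real.log 2) := by
    nlinarith
  nlinarith [Real.exp_pos C]

end

/-- the roughness bound -/
def Zq (q : ℕ) : ℕ := 2 ^ 2 ^ (q + 1)

lemma Zq_ge (q : ℕ) : 3 ≤ Zq q := by
  unfold Zq
  have h1 : 1 ≤ 2 ^ q := Nat.one_le_two_pow
  have h2 : 2 ≤ 2 ^ (q + 1) := by rw [pow_succ]; omega
  have : 2 ^ 2 ≤ 2 ^ 2 ^ (q + 1) := Nat.pow_le_pow_right (by norm_num) h2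
  omega

lemma log_Zq (q : ℕ) : Real.log (Zq q) = 2 ^ (q + 1) * Real.log 2 := by
  unfold Zq
  push_cast
  rw [Real.log_pow]
  push_cast; ring

lemma exp_L_Zq {C : ℝ} (hC : ∀ N : ℕ, 3 ≤ N → |L N - Real.log (Real.log N)| ≤ C) (q : ℕ) :
    Real.exp (L (Zq q)) ≤ 2 * Real.exp C * 2 ^ q := by
  refine (exp_L_le hC (Zq_ge q)).trans ?_
  rw [log_Zq]
  have hl : Real.log 2 ≤ 1 := by linarith [Real.log_two_lt_d9]
  have : (0 : ℝ) < 2 ^ q := by positivity
  have h : (2 : ℝ) ^ (q + 1) * Real.log 2 ≤ 2 * 2 ^ q := by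
    rw [pow_succ]; nlinarith
  nlinarith [Real.exp_pos C]

lemma exp_neg_L_Zq {C : ℝ} (hC : ∀ N : ℕ, 3 ≤ N → |L N - Real.log (Real.log N)| ≤ C) (q : ℕ) :
    Real.exp (-L (Zq q)) ≤ Real.exp C * ((1 : ℝ) / 2 ^ q) := by
  refine (exp_neg_L_le hC (Zq_ge q)).trans ?_
  rw [log_Zq]
  have hl : (1 : ℝ) / 2 ≤ Real.log 2 := by linarith [Real.log_two_gt_d9]
  have h2 : (0 : ℝ) < 2 ^ q := by positivity
  rw [div_eq_mul_one_div]
  apply mul_le_mul_of_nonneg_left _ (Real.exp_pos C).le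
  apply one_div_le_one_div_of_le h2
  rw [pow_succ]; nlinarith

lemma LM_le (Z P : ℕ) : LM Z P ≤ L Z := by
  unfold LM L
  apply Finset.sum_le_sum_of_subset_of_nonneg
  · intro p hp
    rw [Finset.mem_filter, mem_PP] at hp
    rw [mem_PP]
    exact ⟨hp.1.1, by omega⟩
  · intro p _ _; positivity

lemma LM_ge (Z P : ℕ) : LM Z P = L Z ∨ LM Z P = L P := by
  rcases Nat.le_total Z P with h | h
  · left
    unfold LM L
    apply Finset.sum_congr _ (fun _ _ => rfl)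
    ext p
    rw [Finset.mem_filter, mem_PP, mem_PP]
    constructor
    · rintro ⟨⟨a, b⟩, c⟩; exact ⟨a, by omega⟩
    · rintro ⟨a, b⟩; exact ⟨⟨a, by omega⟩, by omega⟩
  · right
    unfold LM L
    apply Finset.sum_congr _ (fun _ _ => rfl)
    ext p
    rw [Finset.mem_filter, mem_PP]
    constructor
    · rintro ⟨h, _⟩; exact h
    · rintro ⟨a, b⟩; exact ⟨⟨a, b⟩, by omega⟩

lemma ratio_mono {q j : ℕ} (h : q ≤ j) : ((j : ℝ) + 1) / 2 ^ j ≤ ((q : ℝ) + 1) / 2 ^ q := by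
  induction j, h using Nat.le_induction with
  | base => exact le_rfl
  | succ j hj ih =>
    refine le_trans ?_ ih
    rw [div_le_div_iff₀ (by positivity) (by positivity), pow_succ]
    push_cast
    have : (0 : ℝ) < 2 ^ j := by positivity
    nlinarith

section
variable {C : ℝ} (hC0 : 0 ≤ C) (hC : ∀ N : ℕ, 3 ≤ N → |L N - Real.log (Real.log N)| ≤ C)
  {B j q : ℕ} (hB : 1 ≤ B) (hj : 2 * B * (j + 1) ≤ 2 ^ j) (hqj : q ≤ j)
include hC0 hC hB hj hqj

/-- `exp (-LM)` is essentially `exp (-L Z)` -/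
lemma exp_neg_LM : Real.exp (-LM (Zq q) (Pj B j)) ≤
    8 * B * Real.exp (2 * C) * (q + 1) * Real.exp (-L (Zq q)) := by
  have hBr : (1 : ℝ) ≤ B := by exact_mod_cast hB
  have hq0 : (0 : ℝ) ≤ q := Nat.cast_nonneg q
  have hE : 1 ≤ Real.exp (2 * C) := Real.one_le_exp (by linarith)
  have hpos := Real.exp_pos (-L (Zq q))
  rcases LM_ge (Zq q) (Pj B j) with h | h
  · rw [h]
    have : 1 ≤ 8 * B * Real.exp (2 * C) * (q + 1) := by
      have h1 : 1 ≤ (B : ℝ) * Real.exp (2 * C) := by nlinarith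
      nlinarith
    nlinarith
  · rw [h]
    have h1 := exp_neg_L_Pj hC hB hj
    have h2 := ratio_mono hqj
    have h3 := exp_L_Zq hC q
    have h4 : Real.exp (-L (Zq q)) * Real.exp (L (Zq q)) = 1 := by
      rw [← Real.exp_add]; simp
    have h2q : (0 : ℝ) < 2 ^ q := by positivity
    calc Real.exp (-L (Pj B j)) ≤ 4 * B * Real.exp C * ((j + 1) / 2 ^ j) := h1
      _ ≤ 4 * B * Real.exp C * ((q + 1) / 2 ^ q) := by
          apply mul_le_mul_of_nonneg_left h2; positivity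
      _ = 4 * B * Real.exp C * ((q + 1) / 2 ^ q) * (Real.exp (-L (Zq q)) * Real.exp (L (Zq q))) := by
          rw [h4, mul_one]
      _ ≤ 4 * B * Real.exp C * ((q + 1) / 2 ^ q) * (Real.exp (-L (Zq q)) * (2 * Real.exp C * 2 ^ q)) := by
          apply mul_le_mul_of_nonneg_left _ (by positivity)
          exact mul_le_mul_of_nonneg_left h3 hpos.le
      _ = _ := by
          rw [two_mul C, Real.exp_add]
          field_simp
          ring

/-- decay in the scale -/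
lemma exp_neg_SS {r : ℝ} (hr0 : 0 < r) (hr1 : r ≤ 1) : Real.exp (-(r * SS (Zq q) (Pj B j))) ≤
    8 * B * Real.exp (2 * C) * (j + 1) * ((2 : ℝ) ^ (-r)) ^ (j - q) := by
  have h1 := SS_add_LM (Zq q) (Pj B j)
  have h2 := LM_le (Zq q) (Pj B j)
  have hBr : (1 : ℝ) ≤ B := by exact_mod_cast hB
  have hj0 : (0 : ℝ) ≤ j := Nat.cast_nonneg j
  have hE : 1 ≤ Real.exp (2 * C) := Real.one_le_exp (by linarith)
  have h3 : Real.exp (-SS (Zq q) (Pj B j)) ≤
      8 * B * Real.exp (2 * C) * (j + 1) * (2 : ℝ)⁻¹ ^ (j - q) := by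
    calc Real.exp (-SS (Zq q) (Pj B j)) ≤ Real.exp (-L (Pj B j) + L (Zq q)) :=
          Real.exp_le_exp.2 (by linarith)
      _ = Real.exp (-L (Pj B j)) * Real.exp (L (Zq q)) := Real.exp_add _ _
      _ ≤ (4 * B * Real.exp C * ((j + 1) / 2 ^ j)) * (2 * Real.exp C * 2 ^ q) :=
          mul_le_mul (exp_neg_L_Pj hC hB hj) (exp_L_Zq hC q) (Real.exp_pos _).le (by positivity)
      _ = _ := by
          obtain ⟨i, rfl⟩ := Nat.exists_eq_add_of_le hqj
          rw [two_mul C, Real.exp_add, Nat.add_sub_cancel_left, pow_add, inv_pow]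
          have : (0 : ℝ) < 2 ^ q := by positivity
          have : (0 : ℝ) < 2 ^ i := by positivity
          field_simp
          ring
  have h4 : Real.exp (-(r * SS (Zq q) (Pj B j))) = (Real.exp (-SS (Zq q) (Pj B j))) ^ r := by
    rw [← Real.exp_mul]; congr 1; ring
  rw [h4]
  have hK : 1 ≤ 8 * B * Real.exp (2 * C) * (j + 1) := by
    have h1 : 1 ≤ (B : ℝ) * Real.exp (2 * C) := by nlinarith
    nlinarith
  calc (Real.exp (-SS (Zq q) (Pj B j))) ^ r ≤
        (8 * B * Real.exp (2 * C) * (j + 1) * (2 : ℝ)⁻¹ ^ (j - q)) ^ r :=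
        Real.rpow_le_rpow (Real.exp_pos _).le h3 hr0.le
    _ = (8 * B * Real.exp (2 * C) * (j + 1)) ^ r * ((2 : ℝ)⁻¹ ^ (j - q)) ^ r :=
        Real.mul_rpow (by positivity) (by positivity)
    _ ≤ (8 * B * Real.exp (2 * C) * (j + 1)) * ((2 : ℝ)⁻¹ ^ (j - q)) ^ r := by
        apply mul_le_mul_of_nonneg_right _ (by positivity)
        calc _ ≤ (8 * B * Real.exp (2 * C) * (j + 1)) ^ (1 : ℝ) :=
              Real.rpow_le_rpow_of_exponent_le hK hr1
          _ = _ := Real.rpow_one _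
    _ = _ := by
        congr 1
        rw [← Real.rpow_natCast, ← Real.rpow_natCast, ← Real.rpow_mul (by norm_num),
          ← Real.rpow_mul (by norm_num), mul_comm ((j - q : ℕ) : ℝ) r, Real.inv_rpow (by norm_num),
          ← Real.rpow_neg (by norm_num)]
        congr 1; ring

end

end Pool.Agent.H500R2
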