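import Mathlib
import Pool.Agent.H500R2.Scale

set_option autoImplicit false

namespace Pool.Agent.H500R2

open Finset Filter Topology

section
variable {C : ℝ} (hC0 : 0 ≤ C) (hC : ∀ N : ℕ, 3 ≤ N → |L N - Real.log (Real.log N)| ≤ C)
  {B j q : ℕ} (hB : 1 ≤ B) (hj : 2 * B * (j + 1) ≤ 2 ^ j) (hqj : q ≤ j)
  {r : ℝ} (hr0 : 0 < r) (hr1 : r ≤ 1)
include hC0 hC hB hj hqj hr0 hr1

lemma easy_term (Y : ℕ) {u v : ℝ} (hu : u ≤ -r) (hv : v ≤ -1 - r) :
    Real.exp (9 + L Y + u * SS (Zq q) (Pj B j) + v * L (Zq q)) ≤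
      Real.exp 9 * (8 * B * Real.exp (2 * C) * (j + 1) * ((2 : ℝ) ^ (-r)) ^ (j - q)) *
      Real.exp (L Y - L (Zq q) - r * L (Zq q)) := by
  have hS := SS_nonneg (Zq q) (Pj B j)
  have hL : 0 ≤ L (Zq q) := Finset.sum_nonneg fun p _ => by positivity
  have h1 := exp_neg_SS hC0 hC hB hj hqj hr0 hr1
  calc _ ≤ Real.exp (9 + -(r * SS (Zq q) (Pj B j)) + (L Y - L (Zq q) - r * L (Zq q))) := by
        apply Real.exp_le_exp.2
        nlinarith
    _ = Real.exp 9 * Real.exp (-(r * SS (Zq q) (Pj B j))) * Real.exp (L Y - L (Zq q) - r * L (Zq q)) := by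
        rw [Real.exp_add, Real.exp_add]
    _ ≤ _ := by
        apply mul_le_mul_of_nonneg_right _ (Real.exp_pos _).le
        exact mul_le_mul_of_nonneg_left h1 (Real.exp_pos _).le

lemma kill_term (Y : ℕ) {y z a1 a2 c1 c2 : ℝ}
    (h2 : r ≤ 3 - y - z - 2 * (y * z) + a1 * Real.log y + a2 * Real.log z)
    (h3 : r ≤ 1 + c1 * Real.log y + c2 * Real.log z) :
    24 * (2 : ℝ) ^ j * Real.exp (14 + L Y - L (Zq q) - 2 * LM (Zq q) (Pj B j) -
      (4 - y - z - 2 * (y * z)) * SS (Zq q) (Pj B j) -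
      (a1 * SS (Zq q) (Pj B j) + c1 * L (Zq q)) * Real.log y -
      (a2 * SS (Zq q) (Pj B j) + c2 * L (Zq q)) * Real.log z) ≤
    (6144 * (B : ℝ) ^ 3 * Real.exp (5 * C + 14) * (q + 1) * (j + 1) ^ 2 * ((2 : ℝ) ^ (-r)) ^ (j - q)) *
      Real.exp (L Y - L (Zq q) - r * L (Zq q)) := by
  have hBr : (1 : ℝ) ≤ B := by exact_mod_cast hB
  have hS := SS_nonneg (Zq q) (Pj B j)
  have hL : 0 ≤ L (Zq q) := Finset.sum_nonneg fun p _ => by positivity
  have hLM := exp_neg_LM hC0 hC hB hj hqj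
  have hSS := exp_neg_SS hC0 hC hB hj hqj hr0 hr1
  have hP := exp_neg_L_Pj hC hB hj
  have hadd := SS_add_LM (Zq q) (Pj B j)
  set S := SS (Zq q) (Pj B j) with hSd
  set M := LM (Zq q) (Pj B j) with hMd
  set lz := L (Zq q) with hlz
  have h2j : (2 : ℝ) ^ j ≤ 4 * B * Real.exp C * (j + 1) * Real.exp (S + M) := by
    rw [hadd]
    have h1 : Real.exp (-L (Pj B j)) * Real.exp (L (Pj B j)) = 1 := by
      rw [← Real.exp_add]; simp
    have h0 : (0 : ℝ) < 2 ^ j := by positivity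
    have h4 : 1 ≤ 4 * B * Real.exp C * ((j + 1) / 2 ^ j) * Real.exp (L (Pj B j)) :=
      h1.symm.le.trans (mul_le_mul_of_nonneg_right hP (Real.exp_pos _).le)
    calc (2 : ℝ) ^ j = 2 ^ j * 1 := (mul_one _).symm
      _ ≤ 2 ^ j * (4 * B * Real.exp C * ((j + 1) / 2 ^ j) * Real.exp (L (Pj B j))) :=
          mul_le_mul_of_nonneg_left h4 h0.le
      _ = _ := by field_simp
  have e1 : Real.exp (S + M) * Real.exp (14 + L Y - lz - 2 * M - (4 - y - z - 2 * (y * z)) * S -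
      (a1 * S + c1 * lz) * Real.log y - (a2 * S + c2 * lz) * Real.log z) ≤
      Real.exp 14 * Real.exp (-M) * Real.exp (-(r * S)) * Real.exp (L Y - r * lz) := by
    rw [← Real.exp_add, ← Real.exp_add, ← Real.exp_add, ← Real.exp_add]
    apply Real.exp_le_exp.2
    nlinarith [mul_le_mul_of_nonneg_right h2 hS, mul_le_mul_of_nonneg_right h3 hL]
  calc 24 * (2 : ℝ) ^ j * Real.exp (14 + L Y - lz - 2 * M - (4 - y - z - 2 * (y * z)) * S -
      (a1 * S + c1 * lz) * Real.log y - (a2 * S + c2 * lz) * Real.log z)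
      ≤ 24 * (4 * B * Real.exp C * (j + 1) * Real.exp (S + M)) *
        Real.exp (14 + L Y - lz - 2 * M - (4 - y - z - 2 * (y * z)) * S -
      (a1 * S + c1 * lz) * Real.log y - (a2 * S + c2 * lz) * Real.log z) := by
        apply mul_le_mul_of_nonneg_right _ (Real.exp_pos _).le
        exact mul_le_mul_of_nonneg_left h2j (by norm_num)
    _ = 96 * B * Real.exp C * (j + 1) * (Real.exp (S + M) *
        Real.exp (14 + L Y - lz - 2 * M - (4 - y - z - 2 * (y * z)) * S -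
      (a1 * S + c1 * lz) * Real.log y - (a2 * S + c2 * lz) * Real.log z)) := by ring
    _ ≤ 96 * B * Real.exp C * (j + 1) *
        (Real.exp 14 * Real.exp (-M) * Real.exp (-(r * S)) * Real.exp (L Y - r * lz)) := by
        apply mul_le_mul_of_nonneg_left e1; positivity
    _ ≤ 96 * B * Real.exp C * (j + 1) *
        (Real.exp 14 * (8 * B * Real.exp (2 * C) * (q + 1) * Real.exp (-lz)) *
          (8 * B * Real.exp (2 * C) * (j + 1) * ((2 : ℝ) ^ (-r)) ^ (j - q)) * Real.exp (L Y - r * lz)) := by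
        apply mul_le_mul_of_nonneg_left _ (by positivity)
        apply mul_le_mul_of_nonneg_right _ (Real.exp_pos _).le
        apply mul_le_mul _ hSS (Real.exp_pos _).le (by positivity)
        exact mul_le_mul_of_nonneg_left hLM (Real.exp_pos _).le
    _ = _ := by
        have e2 : Real.exp (5 * C + 14) = Real.exp C * Real.exp 14 * Real.exp (2 * C) * Real.exp (2 * C) := by
          rw [← Real.exp_add, ← Real.exp_add, ← Real.exp_add]; congr 1; ring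
        have e3 : Real.exp (L Y - lz - r * lz) = Real.exp (-lz) * Real.exp (L Y - r * lz) := by
          rw [← Real.exp_add]; congr 1; ring
        rw [e2, e3]
        ring

end

lemma geo_sum {ρ : ℝ} (h0 : 0 ≤ ρ) (h1 : ρ < 1) : ∃ G : ℝ, 0 ≤ G ∧ ∀ q J : ℕ,
    ∑ j ∈ Finset.Icc q J, ((j - q : ℕ) + 1 : ℝ) ^ 2 * ρ ^ (j - q) ≤ G := by
  have hs : Summable (fun n : ℕ => ((n : ℝ) + 1) ^ 2 * ρ ^ n) := by
    have hρ : ‖ρ‖ < 1 := by rw [Real.norm_eq_abs, abs_of_nonneg h0]; exact h1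
    have s2 := summable_pow_mul_geometric_of_norm_lt_one 2 hρ
    have s1 := summable_pow_mul_geometric_of_norm_lt_one 1 hρ
    have s0 := summable_pow_mul_geometric_of_norm_lt_one 0 hρ
    refine ((s2.add (s1.mul_left 2)).add s0).congr fun n => ?_
    ring
  refine ⟨∑' n : ℕ, ((n : ℝ) + 1) ^ 2 * ρ ^ n, tsum_nonneg fun n => by positivity, fun q J => ?_⟩
  have hinj : Set.InjOn (fun j : ℕ => j - q) (Finset.Icc q J : Finset ℕ) := by
    intro a ha b hb hab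
    rw [Finset.coe_Icc, Set.mem_Icc] at ha hb
    simp only at hab
    omega
  have e1 : ∑ j ∈ Finset.Icc q J, ((j - q : ℕ) + 1 : ℝ) ^ 2 * ρ ^ (j - q) =
      ∑ n ∈ (Finset.Icc q J).image (fun j => j - q), ((n : ℝ) + 1) ^ 2 * ρ ^ n := by
    rw [Finset.sum_image hinj]
  rw [e1]
  exact hs.sum_le_tsum _ (fun n _ => by positivity)

lemma ev_lin (K : ℝ) : ∀ᶠ j : ℕ in atTop, K * ((j : ℝ) + 1) ≤ 2 ^ j := by
  have h1 := tendsto_pow_const_div_const_pow_of_one_lt 1 (r := (2 : ℝ)) (by norm_num)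
  have h0 := tendsto_pow_const_div_const_pow_of_one_lt 0 (r := (2 : ℝ)) (by norm_num)
  have h2 := (h1.add h0).const_mul K
  simp only [add_zero, mul_zero] at h2
  have h3 := h2.eventually (gt_mem_nhds (show (0 : ℝ) < 1 by norm_num))
  filter_upwards [h3] with j hj
  have h4 : (0 : ℝ) < 2 ^ j := by positivity
  have e : K * ((j : ℝ) ^ 1 / 2 ^ j + (j : ℝ) ^ 0 / 2 ^ j) = K * ((j : ℝ) + 1) / 2 ^ j := by
    rw [pow_one, pow_zero]; ring
  rw [e, div_lt_one h4] at hj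
  exact hj.le

lemma ev_cube {ρ : ℝ} (h0 : 0 < ρ) (h1 : ρ < 1) (K : ℝ) {δ : ℝ} (hδ : 0 < δ) :
    ∀ᶠ q : ℕ in atTop, K * ((q : ℝ) + 1) ^ 3 * ρ ^ q ≤ δ := by
  have h2 := tendsto_pow_const_mul_const_pow_of_abs_lt_one 3 (r := ρ) (by rw [abs_of_pos h0]; exact h1)
  have h3 := (tendsto_add_atTop_iff_nat 1).2 h2
  have h4 := h3.const_mul (K / ρ)
  simp only [mul_zero] at h4
  have h5 := h4.eventually (gt_mem_nhds hδ)
  filter_upwards [h5] with q hq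
  refine le_trans (le_of_eq ?_) hq.le
  push_cast
  rw [pow_succ ρ q]
  field_simp

lemma box_cond1 {C : ℝ} (hC0 : 0 ≤ C)
    (hC : ∀ N : ℕ, 3 ≤ N → |L N - Real.log (Real.log N)| ≤ C) {N0 j : ℕ}
    (hN : 6 * (1 + C) ≤ N0) (hN1 : 1 ≤ N0) (hj : 2 * (4 * N0) * (j + 1) ≤ 2 ^ j) :
    (Real.exp 1 + 1) * (3 * L (Pj (4 * N0) j)) ≤ ((2 * N0 * (j + 1) : ℕ) : ℝ) + 1 := by
  have h1 : L (Pj (4 * N0) j) ≤ j + C := L_Pj_le hC0 hC (by omega) hj
  have h0 : 0 ≤ L (Pj (4 * N0) j) := Finset.sum_nonneg fun p _ => by positivity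
  have he : Real.exp 1 + 1 ≤ 4 := by
    have := Real.exp_one_lt_d9
    linarith
  have he0 : 0 < Real.exp 1 := Real.exp_pos 1
  have hj0 : (0 : ℝ) ≤ j := Nat.cast_nonneg j
  have h2 : (Real.exp 1 + 1) * (3 * L (Pj (4 * N0) j)) ≤ 4 * (3 * (j + C)) :=
    mul_le_mul he (by linarith) (by linarith) (by norm_num)
  have h5 : 2 * (6 * (1 + C)) * ((j : ℝ) + 1) ≤ 2 * N0 * (j + 1) := by
    apply mul_le_mul_of_nonneg_right _ (by linarith)
    linarith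
  have h6 : 0 ≤ C * j := mul_nonneg hC0 hj0
  push_cast
  nlinarith

lemma box_cond2 {C : ℝ} (hC0 : 0 ≤ C)
    (hC : ∀ N : ℕ, 3 ≤ N → |L N - Real.log (Real.log N)| ≤ C) {N0 j : ℕ}
    (hN1 : 1 ≤ N0) (hj : 2 * (4 * N0) * (j + 1) ≤ 2 ^ j)
    (h3 : 4 * (6 * (1 + C) + 2) * ((j : ℝ) + 1) ≤ 2 ^ j) (hj1 : 1 ≤ j) :
    6 * (Pj (4 * N0) j : ℝ) ^ (2 * N0 * (j + 1)) * Real.exp (6 * L (Pj (4 * N0) j)) ≤
      (2 : ℝ) ^ 2 ^ j := by
  have h1' : L (Pj (4 * N0) j) ≤ j + C := L_Pj_le hC0 hC (by omega) hj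
  have e4 : 2 ^ j = 2 * 2 ^ (j - 1) := by
    rw [← pow_succ']; congr 1; omega
  -- power part
  have h2 : (Pj (4 * N0) j) ^ (2 * N0 * (j + 1)) ≤ 2 ^ 2 ^ (j - 1) := by
    unfold Pj
    rw [← pow_mul]
    apply Nat.pow_le_pow_right (by norm_num)
    have h3 : 2 ^ j / (4 * N0 * (j + 1)) * (4 * N0 * (j + 1)) ≤ 2 ^ j := Nat.div_mul_le_self _ _
    have h5 : 2 ^ j / (4 * N0 * (j + 1)) * (4 * N0 * (j + 1)) =
        2 * (2 ^ j / (4 * N0 * (j + 1)) * (2 * N0 * (j + 1))) := by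
      ring
    omega
  have h2' : (Pj (4 * N0) j : ℝ) ^ (2 * N0 * (j + 1)) ≤ (2 : ℝ) ^ 2 ^ (j - 1) := by exact_mod_cast h2
  have hj0 : (0 : ℝ) ≤ j := Nat.cast_nonneg j
  have h4 : (2 : ℝ) ^ j = 2 * 2 ^ (j - 1) := by exact_mod_cast e4
  have h5 : 6 * Real.exp (6 * L (Pj (4 * N0) j)) ≤ (2 : ℝ) ^ 2 ^ (j - 1) := by
    have e6 : (6 : ℝ) ≤ Real.exp 2 := by
      have h7 := Real.exp_one_gt_d9
      have : Real.exp 2 = Real.exp 1 * Real.exp 1 := by rw [← Real.exp_add]; norm_num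
      rw [this]; nlinarith
    calc 6 * Real.exp (6 * L (Pj (4 * N0) j)) ≤ Real.exp 2 * Real.exp (6 * L (Pj (4 * N0) j)) :=
          mul_le_mul_of_nonneg_right e6 (Real.exp_pos _).le
      _ = Real.exp (2 + 6 * L (Pj (4 * N0) j)) := (Real.exp_add _ _).symm
      _ ≤ Real.exp (((2 ^ (j - 1) : ℕ) : ℝ) * Real.log 2) := by
          apply Real.exp_le_exp.2
          have hl : (1 : ℝ) / 2 ≤ Real.log 2 := by linarith [Real.log_two_gt_d9]
          have h8 : (0 : ℝ) < 2 ^ (j - 1) := by positivity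
          have h9 : (2 : ℝ) ^ (j - 1) * (1 / 2) ≤ 2 ^ (j - 1) * Real.log 2 :=
            mul_le_mul_of_nonneg_left hl h8.le
          have h10 : 2 + 6 * L (Pj (4 * N0) j) ≤ (6 * (1 + C) + 2) * ((j : ℝ) + 1) := by
            have := mul_nonneg hC0 hj0
            nlinarith
          have h11 : ((2 ^ (j - 1) : ℕ) : ℝ) = (2 : ℝ) ^ (j - 1) := by push_cast; rfl
          rw [h11]
          linarith
      _ = _ := by
          rw [Real.exp_nat_mul, Real.exp_log (by norm_num)]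
  have h6 : (2 : ℝ) ^ 2 ^ j = 2 ^ 2 ^ (j - 1) * 2 ^ 2 ^ (j - 1) := by
    rw [← pow_add]
    congr 1
    omega
  rw [h6]
  calc 6 * (Pj (4 * N0) j : ℝ) ^ (2 * N0 * (j + 1)) * Real.exp (6 * L (Pj (4 * N0) j)) =
        (Pj (4 * N0) j : ℝ) ^ (2 * N0 * (j + 1)) * (6 * Real.exp (6 * L (Pj (4 * N0) j))) := by ring
    _ ≤ _ := mul_le_mul h2' h5 (by positivity) (by positivity)

/-- the range of `X` -/
def Yj (J : ℕ) : ℕ := 2 ^ 2 ^ (J + 1) - 1

lemma Yj_ge (J : ℕ) : 2 ^ 2 ^ J ≤ Yj J := by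
  unfold Yj
  have h2 : 2 ^ 2 ^ J < 2 ^ 2 ^ (J + 1) :=
    Nat.pow_lt_pow_right (by norm_num) (Nat.pow_lt_pow_right (by norm_num) (by omega))
  omega

lemma Yj_ge' (J : ℕ) : J ≤ Yj J := by
  refine le_trans ?_ (Yj_ge J)
  have h1 : J < 2 ^ J := Nat.lt_two_pow_self
  have h2 : 2 ^ J < 2 ^ 2 ^ J := Nat.lt_two_pow_self
  omega

lemma log_Yj (K : ℝ) : ∃ J0 : ℕ, ∀ J, J0 ≤ J → K ≤ Real.log (Yj J) := by
  have h : Tendsto (fun J : ℕ => Real.log (Yj J)) atTop atTop := by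
    apply Real.tendsto_log_atTop.comp
    apply tendsto_atTop_mono (f := fun J : ℕ => (J : ℝ))
    · intro J; exact_mod_cast Yj_ge' J
    · exact tendsto_natCast_atTop_atTop
  obtain ⟨J0, hJ0⟩ := eventually_atTop.1 (h.eventually_ge_atTop K)
  exact ⟨J0, hJ0⟩

lemma log_quarter {Y : ℕ} (hY : 64 ≤ Y) : Real.log Y ≤ 2 * Real.log ((Y / 4 : ℕ) : ℝ) := by
  have h1 : Y ≤ (Y / 4) ^ 2 := by
    have h2 : Y < 4 * (Y / 4) + 4 := by omega
    have h3 : 16 ≤ Y / 4 := by omega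
    nlinarith
  have h2 : (Y : ℝ) ≤ ((Y / 4 : ℕ) : ℝ) ^ 2 := by exact_mod_cast h1
  have h0 : (0 : ℝ) < Y := by exact_mod_cast (by omega : 0 < Y)
  calc Real.log Y ≤ Real.log (((Y / 4 : ℕ) : ℝ) ^ 2) := Real.log_le_log h0 h2
    _ = _ := by rw [Real.log_pow]; push_cast; ring

lemma harm_le (Y : ℕ) : ∑ X ∈ Finset.Icc 1 Y, 1 / (X : ℝ) ≤ 1 + Real.log Y := by
  have h1 := harmonic_le_one_add_log Y
  have h2 : ((harmonic Y : ℚ) : ℝ) = ∑ n ∈ Finset.Icc 1 Y, (1 : ℝ) / n := by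
    rw [harmonic_eq_sum_Icc]; push_cast
    apply Finset.sum_congr rfl
    intro n _; rw [one_div]
  rw [← h2]; exact h1

end Pool.Agent.H500R2
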