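import Mathlib
import Pool.Agent.H500R2.Final

set_option autoImplicit false

namespace Pool.Agent.H500R2

open Finset Filter Topology

lemma exp_rLZ {C : ℝ} (hC0 : 0 ≤ C) (hC : ∀ N : ℕ, 3 ≤ N → |L N - Real.log (Real.log N)| ≤ C) (q : ℕ)
    {r : ℝ} (hr0 : 0 < r) (hr1 : r ≤ 1) :
    Real.exp (-(r * L (Zq q))) ≤ Real.exp C * ((2 : ℝ) ^ (-r)) ^ q := by
  have h4 : Real.exp (-(r * L (Zq q))) = (Real.exp (-L (Zq q))) ^ r := by
    rw [← Real.exp_mul]; congr 1; ring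
  rw [h4]
  have h3 := exp_neg_L_Zq hC q
  have hK : 1 ≤ Real.exp C := Real.one_le_exp hC0
  calc (Real.exp (-L (Zq q))) ^ r ≤ (Real.exp C * (1 / 2 ^ q)) ^ r :=
        Real.rpow_le_rpow (Real.exp_pos _).le h3 hr0.le
    _ = (Real.exp C) ^ r * (1 / 2 ^ q) ^ r :=
        Real.mul_rpow (by positivity) (by positivity)
    _ ≤ Real.exp C * (1 / 2 ^ q) ^ r := by
        apply mul_le_mul_of_nonneg_right _ (by positivity)
        calc _ ≤ (Real.exp C) ^ (1 : ℝ) := Real.rpow_le_rpow_of_exponent_le hK hr1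
          _ = _ := Real.rpow_one _
    _ = _ := by
        congr 1
        rw [one_div, ← inv_pow, ← Real.rpow_natCast, ← Real.rpow_natCast, ← Real.rpow_mul (by norm_num),
          ← Real.rpow_mul (by norm_num), mul_comm (q : ℝ) r, Real.inv_rpow (by norm_num),
          ← Real.rpow_neg (by norm_num)]
        congr 1; ring

lemma sq_le {q j : ℕ} (h : q ≤ j) : ((j : ℝ) + 1) ^ 2 ≤ ((q : ℝ) + 1) ^ 2 * (((j - q : ℕ) : ℝ) + 1) ^ 2 := by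
  obtain ⟨i, rfl⟩ := Nat.exists_eq_add_of_le h
  rw [Nat.add_sub_cancel_left, ← mul_pow]
  apply pow_le_pow_left₀ (by positivity)
  push_cast
  have : (0 : ℝ) ≤ (q : ℝ) * i := by positivity
  nlinarith

lemma aux1 {q j : ℝ} (hq : 0 ≤ q) (hj : 0 ≤ j) : j + 1 ≤ (q + 1) * (j + 1) ^ 2 := by
  have h1 : 0 ≤ q * (j + 1) ^ 2 := by positivity
  nlinarith

lemma aux2 {a b S L1 L2 c d : ℝ} (ha : a ≤ b) (hc : c ≤ d) (hS : 0 ≤ S) (hL : 0 ≤ L2) :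
    a * S + c * L2 ≤ b * S + d * L2 := by
  have h1 := mul_le_mul_of_nonneg_right ha hS
  have h2 := mul_le_mul_of_nonneg_right hc hL
  linarith

theorem final {y z z0 z1 a1 a2 c1 c2 r : ℝ} (hy0 : 0 < y) (hy1 : y ≤ 1) (hz0 : 0 < z) (hz1 : z ≤ 1)
    (h01 : 1 ≤ z0) (h02 : z0 ≤ 3 / 2) (h11 : 1 ≤ z1) (h12 : z1 ≤ 3 / 2) (ha : a1 ≤ a2) (hc : c1 ≤ c2)
    (hr0 : 0 < r) (hr1 : r ≤ 1)
    (k1 : r ≤ 1 + c1 * Real.log y + c2 * Real.log z)
    (k2 : r ≤ 3 - y - z - 2 * (y * z) + a1 * Real.log y + a2 * Real.log z)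
    (k3 : r ≤ a2 * Real.log z0 - (z0 - 1)) (k4 : r ≤ c2 * Real.log z0 - 1)
    (k5 : r ≤ a1 * Real.log z1 - (z1 - 1)) (k6 : r ≤ c1 * Real.log z1) :
    ∃ ε : ℝ, ε > 0 ∧ ∀ M : ℕ, ∃ N : ℕ, M ≤ N ∧
      ∃ A : Finset ℕ, A ⊆ Finset.Icc 1 N ∧
        (∀ a ∈ A, ∀ b ∈ A, a ≠ b → ¬ (a + b ∣ a * b)) ∧
        ((1 : ℝ) / 2 + ε) * (N : ℝ) ≤ (A.card : ℝ) := by
  classical
  obtain ⟨C, hC0, hC⟩ := mertens_L
  obtain ⟨N0, hN0'⟩ := exists_nat_ge (6 * (1 + C))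
  have hN1 : 1 ≤ N0 := by
    have : (1 : ℝ) ≤ N0 := by linarith
    exact_mod_cast this
  obtain ⟨B, hBdef⟩ : ∃ B, B = 4 * N0 := ⟨_, rfl⟩
  have hB : 1 ≤ B := by omega
  obtain ⟨ρ, hρ⟩ : ∃ ρ : ℝ, ρ = (2 : ℝ) ^ (-r) := ⟨_, rfl⟩
  have hρ0 : 0 < ρ := by rw [hρ]; exact Real.rpow_pos_of_pos (by norm_num) _
  have hρ1 : ρ < 1 := by rw [hρ]; exact Real.rpow_lt_one_of_one_lt_of_neg (by norm_num) (by linarith)
  obtain ⟨G, hG0, hG⟩ := geo_sum hρ0.le hρ1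
  obtain ⟨K1, hK1⟩ : ∃ K1 : ℝ, K1 = 6144 * (B : ℝ) ^ 3 * Real.exp (5 * C + 14) := ⟨_, rfl⟩
  obtain ⟨K2, hK2⟩ : ∃ K2 : ℝ, K2 = Real.exp 9 * (8 * B * Real.exp (2 * C)) := ⟨_, rfl⟩
  have hK10 : 0 ≤ K1 := by rw [hK1]; positivity
  have hK20 : 0 ≤ K2 := by rw [hK2]; positivity
  -- choose q
  have ev1 := ev_lin (2 * B)
  have ev2 := ev_lin (4 * (6 * (1 + C) + 2))
  have ev3 := ev_cube hρ0 hρ1 ((K1 + 3 * K2) * G * Real.exp (2 * C)) (δ := (1 / 16) * Real.exp (-9))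
    (by positivity)
  rw [eventually_atTop] at ev1 ev2
  obtain ⟨q1, hq1⟩ := ev1
  obtain ⟨q2, hq2⟩ := ev2
  obtain ⟨q, hq, hq3⟩ := (ev3.and (eventually_ge_atTop (max (max q1 q2) 1))).exists
  have hqq1 : q1 ≤ q := le_trans (le_trans (le_max_left _ _) (le_max_left _ _)) hq3
  have hqq2 : q2 ≤ q := le_trans (le_trans (le_max_right _ _) (le_max_left _ _)) hq3
  have hqq3 : 1 ≤ q := le_trans (le_max_right _ _) hq3
  have hjB : ∀ j, q ≤ j → 2 * B * (j + 1) ≤ 2 ^ j := by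
    intro j hj
    have := hq1 j (hqq1.trans hj)
    exact_mod_cast this
  have hLZ0 : 0 ≤ L (Zq q) := Finset.sum_nonneg fun p _ => by positivity
  -- the constant
  obtain ⟨κ, hκ⟩ : ∃ κ : ℝ, κ = Real.exp (-9) * Real.exp (-L (Zq q)) := ⟨_, rfl⟩
  have hκ0 : 0 < κ := by rw [hκ]; positivity
  obtain ⟨ε, hε⟩ : ∃ ε : ℝ, ε = κ / 64 := ⟨_, rfl⟩
  have hε0 : 0 < ε := by rw [hε]; positivity
  refine ⟨ε, hε0, fun M => ?_⟩
  by_contra hcon
  push Not at hcon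
  obtain ⟨HM, hHM⟩ : ∃ HM : ℝ, HM = ∑ X ∈ Finset.Icc 1 M, 1 / (X : ℝ) := ⟨_, rfl⟩
  have hHM0 : 0 ≤ HM := by rw [hHM]; exact Finset.sum_nonneg fun x _ => by positivity
  obtain ⟨J0, hJ0⟩ := log_Yj ((64 / κ) * (HM + ε + 1))
  obtain ⟨J, hJ⟩ : ∃ J, J = max (max J0 (q + 1)) 64 := ⟨_, rfl⟩
  have hJ1 : J0 ≤ J := by rw [hJ]; exact le_trans (le_max_left _ _) (le_max_left _ _)
  have hJ2 : q + 1 ≤ J := by rw [hJ]; exact le_trans (le_max_right _ _) (le_max_left _ _)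
  have hJ3 : 64 ≤ J := by rw [hJ]; exact le_max_right _ _
  obtain ⟨Y, hY⟩ : ∃ Y, Y = Yj J := ⟨_, rfl⟩
  have hYlog : (64 / κ) * (HM + ε + 1) ≤ Real.log Y := by rw [hY]; exact hJ0 J hJ1
  have hY64 : 64 ≤ Y := by rw [hY]; exact hJ3.trans (Yj_ge' J)
  have hYq := log_quarter hY64
  have h2J : 2 ^ 2 ^ J ≤ Y := by rw [hY]; exact Yj_ge J
  have hZY : Zq q ≤ Y := by
    refine le_trans ?_ h2J
    unfold Zq
    exact Nat.pow_le_pow_right (by norm_num) (Nat.pow_le_pow_right (by norm_num) hJ2)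
  have hPY : ∀ j, q ≤ j → j ≤ J → Pj B j ≤ Y := by
    intro j hj1 hj2
    refine le_trans (Pj_le hB (hjB j hj1)) (le_trans ?_ h2J)
    exact Nat.pow_le_pow_right (by norm_num) (Nat.pow_le_pow_right (by norm_num) hj2)
  have hYlt : Y < 2 ^ 2 ^ (J + 1) := by
    rw [hY]; unfold Yj
    have : 0 < 2 ^ 2 ^ (J + 1) := by positivity
    omega
  -- the sets
  have hET : ∀ n, (RE (Zq q) n ∧ Con (Zq q) (Pj B) q J a1 (c1 * L (Zq q)) n) →
      Con (Zq q) (Pj B) q J a2 (c2 * L (Zq q)) n := by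
    rintro n ⟨_, hn⟩ j hj1 hj2
    exact (hn j hj1 hj2).trans (aux2 (L1 := 0) ha hc (SS_nonneg (Zq q) (Pj B j)) hLZ0)
  have hEodd : ∀ n, (RE (Zq q) n ∧ Con (Zq q) (Pj B) q J a1 (c1 * L (Zq q)) n) → ¬ Odd n := by
    rintro n ⟨hn, _⟩ ho
    have : ¬ 2 ∣ n := by
      intro h; rw [Nat.odd_iff] at ho; omega
    have h0 := Nat.factorization_eq_zero_of_not_dvd this
    rw [hn.1] at h0
    omega
  have hcomb := combin (Con (Zq q) (Pj B) q J a2 (c2 * L (Zq q)))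
    (fun n => RE (Zq q) n ∧ Con (Zq q) (Pj B) q J a1 (c1 * L (Zq q)) n) hEodd ε hε0.le M Y (by
      intro X hX _
      have hsub : AX (Con (Zq q) (Pj B) q J a2 (c2 * L (Zq q)))
          (fun n => RE (Zq q) n ∧ Con (Zq q) (Pj B) q J a1 (c1 * L (Zq q)) n) X ⊆ Finset.Icc 1 X := by
        intro n hn
        rw [mem_AX] at hn
        rw [Finset.mem_Icc]; exact hn.1
      exact (hcon X hX _ hsub (AX_adm hET X)).le)
  rw [← hHM] at hcomb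
  obtain ⟨A1, hA1⟩ : ∃ A1 : ℝ, A1 = ∑ e ∈ (Finset.Icc 1 Y).filter (fun e => 2 * e ≤ Y ∧
    (RE (Zq q) e ∧ Con (Zq q) (Pj B) q J a1 (c1 * L (Zq q)) e)), 1 / (2 * (e : ℝ)) := ⟨_, rfl⟩
  obtain ⟨A2, hA2⟩ : ∃ A2 : ℝ, A2 = ∑ e ∈ (Finset.Icc 1 Y).filter (fun e =>
    (RE (Zq q) e ∧ Con (Zq q) (Pj B) q J a1 (c1 * L (Zq q)) e) ∧
      Kill (Con (Zq q) (Pj B) q J a2 (c2 * L (Zq q))) e), 2 / (e : ℝ) := ⟨_, rfl⟩
  obtain ⟨A3, hA3⟩ : ∃ A3 : ℝ, A3 = ∑ b ∈ (Finset.Icc 1 Y).filter (fun b =>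
    ¬ Con (Zq q) (Pj B) q J a2 (c2 * L (Zq q)) b), 2 / (b : ℝ) := ⟨_, rfl⟩
  have hcomb2 : A1 ≤ A2 + A3 + (HM + ε * ∑ X ∈ Finset.Icc 1 Y, 1 / (X : ℝ)) := by
    rw [hA1, hA2, hA3]
    convert hcomb
  have hmain := main_sum (Zq q) (Pj B) q J Y z1 a1 (c1 * L (Zq q)) (by have := Zq_ge q; omega)
    h11 h12 hZY hPY
  have hbad := bad_sum (Zq q) (Pj B) q J Y z0 a2 (c2 * L (Zq q)) h01 h02 hZY hPY
  have hZbig : 3 * 2 ^ 2 ^ q ≤ Zq q := by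
    unfold Zq
    have e : 2 ^ 2 ^ (q + 1) = 2 ^ 2 ^ q * 2 ^ 2 ^ q := by
      rw [← pow_add]; congr 1; rw [pow_succ]; ring
    rw [e]
    apply Nat.mul_le_mul_right
    have h1 : 2 ≤ 2 ^ q := by
      calc 2 = 2 ^ 1 := by norm_num
        _ ≤ 2 ^ q := Nat.pow_le_pow_right (by norm_num) hqq3
    have h2 : 2 ^ 2 ≤ 2 ^ 2 ^ q := Nat.pow_le_pow_right (by norm_num) h1
    omega
  have hkill := kill_sum (Zq q) (Pj B) q J Y y z a1 (c1 * L (Zq q)) a2 (c2 * L (Zq q))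
    hy0 hy1 hz0 hz1 hZbig hZY hYlt (fun j => 2 * N0 * (j + 1))
    (fun j hj1 hj2 => ⟨by have := Pj_ge hB (hjB j hj1); omega, hPY j hj1 hj2⟩)
    (fun j _ _ => by rw [mul_assoc]; exact even_two_mul _)
    (fun j hj1 _ => by
      have h := hjB j hj1
      rw [hBdef] at h ⊢
      exact box_cond1 hC0 hC hN0' hN1 h)
    (fun j hj1 _ => by
      have h := hjB j hj1
      rw [hBdef] at h ⊢
      exact box_cond2 hC0 hC hN1 h (hq2 j (hqq2.trans hj1)) (hqq3.trans hj1))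
  -- termwise bounds
  obtain ⟨S, hS⟩ : ∃ S : ℝ, S = L Y - L (Zq q) - r * L (Zq q) := ⟨_, rfl⟩
  obtain ⟨U, hU⟩ : ∃ U : ℕ → ℝ, ∀ j, U j = ((q : ℝ) + 1) * ((j : ℝ) + 1) ^ 2 * ρ ^ (j - q) *
    Real.exp S := ⟨fun j => ((q : ℝ) + 1) * ((j : ℝ) + 1) ^ 2 * ρ ^ (j - q) * Real.exp S, fun _ => rfl⟩
  have hU0 : ∀ j, 0 ≤ U j := by intro j; rw [hU]; positivity
  have t1 : ∀ j ∈ Finset.Icc q J, 24 * (2 : ℝ) ^ j * Real.exp (14 + L Y - L (Zq q) - 2 * LM (Zq q) (Pj B j) -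
      (4 - y - z - 2 * (y * z)) * SS (Zq q) (Pj B j) -
      (a1 * SS (Zq q) (Pj B j) + c1 * L (Zq q)) * Real.log y -
      (a2 * SS (Zq q) (Pj B j) + c2 * L (Zq q)) * Real.log z) ≤ K1 * U j := by
    intro j hj
    rw [Finset.mem_Icc] at hj
    refine (kill_term hC0 hC hB (hjB j hj.1) hj.1 hr0 hr1 Y k2 k1).trans (le_of_eq ?_)
    rw [hK1, hU, hS, hρ]; ring
  have t2 : ∀ (u v : ℝ), u ≤ -r → v ≤ -1 - r → ∀ j ∈ Finset.Icc q J,
      Real.exp (9 + L Y + u * SS (Zq q) (Pj B j) + v * L (Zq q)) ≤ K2 * U j := by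
    intro u v hu hv j hj
    rw [Finset.mem_Icc] at hj
    refine (easy_term hC0 hC hB (hjB j hj.1) hj.1 hr0 hr1 Y hu hv).trans ?_
    rw [← hS, ← hρ, hU]
    have hq0 : (0 : ℝ) ≤ q := Nat.cast_nonneg q
    have hj0 : (0 : ℝ) ≤ j := Nat.cast_nonneg j
    have h1 : (j : ℝ) + 1 ≤ ((q : ℝ) + 1) * ((j : ℝ) + 1) ^ 2 := aux1 hq0 hj0
    have h2 : Real.exp 9 * (8 * B * Real.exp (2 * C) * (j + 1) * ρ ^ (j - q)) * Real.exp S =
        (K2 * (ρ ^ (j - q) * Real.exp S)) * ((j : ℝ) + 1) := by rw [hK2]; ring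
    have h3 : K2 * (((q : ℝ) + 1) * ((j : ℝ) + 1) ^ 2 * ρ ^ (j - q) * Real.exp S) =
        (K2 * (ρ ^ (j - q) * Real.exp S)) * (((q : ℝ) + 1) * ((j : ℝ) + 1) ^ 2) := by ring
    rw [h2, h3]
    exact mul_le_mul_of_nonneg_left h1 (by positivity)
  have s1 := Finset.sum_le_sum t1
  have s2 : ∑ j ∈ Finset.Icc q J, 2 * Real.exp (9 + L Y + (z0 - 1) * SS (Zq q) (Pj B j) -
      (a2 * SS (Zq q) (Pj B j) + c2 * L (Zq q)) * Real.log z0) ≤
      2 * (K2 * ∑ j ∈ Finset.Icc q J, U j) := by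
    rw [Finset.mul_sum, Finset.mul_sum]
    apply Finset.sum_le_sum
    intro j hj
    apply mul_le_mul_of_nonneg_left _ (by norm_num)
    refine le_trans (le_of_eq ?_) (t2 ((z0 - 1) - a2 * Real.log z0) (-(c2 * Real.log z0)) (by linarith)
      (by linarith) j hj)
    congr 1; ring
  have s3 : ∑ j ∈ Finset.Icc q J, Real.exp (9 + L Y - L (Zq q) + (z1 - 1) * SS (Zq q) (Pj B j) -
      (a1 * SS (Zq q) (Pj B j) + c1 * L (Zq q)) * Real.log z1) ≤ ∑ j ∈ Finset.Icc q J, K2 * U j := by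
    apply Finset.sum_le_sum
    intro j hj
    refine le_trans (le_of_eq ?_) (t2 ((z1 - 1) - a1 * Real.log z1) (-1 - c1 * Real.log z1) (by linarith)
      (by linarith) j hj)
    congr 1; ring
  have s4 : ∑ j ∈ Finset.Icc q J, U j ≤ ((q : ℝ) + 1) ^ 3 * Real.exp S * G := by
    calc _ ≤ ∑ j ∈ Finset.Icc q J, ((q : ℝ) + 1) ^ 3 * Real.exp S *
          ((((j - q : ℕ) : ℝ) + 1) ^ 2 * ρ ^ (j - q)) := by
          apply Finset.sum_le_sum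
          intro j hj
          rw [Finset.mem_Icc] at hj
          rw [hU]
          have h1 := sq_le hj.1
          have h2 : (0 : ℝ) ≤ ((q : ℝ) + 1) * (ρ ^ (j - q) * Real.exp S) := by positivity
          have h3 := mul_le_mul_of_nonneg_left h1 h2
          calc _ = ((q : ℝ) + 1) * (ρ ^ (j - q) * Real.exp S) * ((j : ℝ) + 1) ^ 2 := by ring
            _ ≤ _ := h3
            _ = _ := by ring
      _ = ((q : ℝ) + 1) ^ 3 * Real.exp S * ∑ j ∈ Finset.Icc q J,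
          ((((j - q : ℕ) : ℝ) + 1) ^ 2 * ρ ^ (j - q)) := by rw [Finset.mul_sum]
      _ ≤ _ := by
          apply mul_le_mul_of_nonneg_left (hG q J); positivity
  have s5 : Real.exp S ≤ Real.exp (2 * C) * ρ ^ q * Real.exp (-L (Zq q)) * Real.log Y := by
    have e1 : Real.exp S = Real.exp (L Y) * Real.exp (-L (Zq q)) * Real.exp (-(r * L (Zq q))) := by
      rw [hS, ← Real.exp_add, ← Real.exp_add]; congr 1
    have h1 := exp_L_le hC (N := Y) (by omega)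
    have h2 := exp_rLZ hC0 hC q hr0 hr1
    have hlogY : 0 ≤ Real.log Y := Real.log_nonneg (by exact_mod_cast (by omega : 1 ≤ Y))
    rw [e1]
    calc _ ≤ (Real.exp C * Real.log Y) * Real.exp (-L (Zq q)) * (Real.exp C * ((2 : ℝ) ^ (-r)) ^ q) := by
          apply mul_le_mul _ h2 (Real.exp_pos _).le (by positivity)
          exact mul_le_mul_of_nonneg_right h1 (Real.exp_pos _).le
      _ = _ := by
          rw [two_mul C, Real.exp_add, ← hρ]; ring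
  -- total error
  have htot : (K1 + 3 * K2) * ∑ j ∈ Finset.Icc q J, U j ≤ (κ / 16) * Real.log Y := by
    have hlogY : 0 ≤ Real.log Y := Real.log_nonneg (by exact_mod_cast (by omega : 1 ≤ Y))
    calc _ ≤ (K1 + 3 * K2) * (((q : ℝ) + 1) ^ 3 * (Real.exp (2 * C) * ρ ^ q * Real.exp (-L (Zq q)) *
          Real.log Y) * G) := by
          apply mul_le_mul_of_nonneg_left _ (by positivity)
          refine s4.trans ?_
          apply mul_le_mul_of_nonneg_right _ hG0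
          exact mul_le_mul_of_nonneg_left s5 (by positivity)
      _ = ((K1 + 3 * K2) * G * Real.exp (2 * C) * ((q : ℝ) + 1) ^ 3 * ρ ^ q) *
          (Real.exp (-L (Zq q)) * Real.log Y) := by ring
      _ ≤ ((1 / 16) * Real.exp (-9)) * (Real.exp (-L (Zq q)) * Real.log Y) := by
          apply mul_le_mul_of_nonneg_right hq (by positivity)
      _ = _ := by rw [hκ]; ring
  have hharm := harm_le Y
  have hκ' : Real.exp (-(L (Zq q) + 9)) = κ := by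
    rw [hκ, ← Real.exp_add]; congr 1; ring
  rw [hκ'] at hmain
  have hmain2 : (1 / 4) * (κ * Real.log ((Y / 4 : ℕ) : ℝ) -
      ∑ j ∈ Finset.Icc q J, Real.exp (9 + L Y - L (Zq q) + (z1 - 1) * SS (Zq q) (Pj B j) -
      (a1 * SS (Zq q) (Pj B j) + c1 * L (Zq q)) * Real.log z1)) ≤ A1 := by
    rw [hA1]
    convert hmain
  have hkill2 : A2 ≤ ∑ j ∈ Finset.Icc q J, 24 * (2 : ℝ) ^ j * Real.exp (14 + L Y - L (Zq q) -
      2 * LM (Zq q) (Pj B j) - (4 - y - z - 2 * (y * z)) * SS (Zq q) (Pj B j) -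
      (a1 * SS (Zq q) (Pj B j) + c1 * L (Zq q)) * Real.log y -
      (a2 * SS (Zq q) (Pj B j) + c2 * L (Zq q)) * Real.log z) := by
    rw [hA2]
    convert hkill
  have hbad2 : A3 ≤ ∑ j ∈ Finset.Icc q J, 2 * Real.exp (9 + L Y + (z0 - 1) * SS (Zq q) (Pj B j) -
      (a2 * SS (Zq q) (Pj B j) + c2 * L (Zq q)) * Real.log z0) := by
    rw [hA3]
    convert hbad
  clear hmain hkill hbad hcomb
  rw [← Finset.mul_sum] at s1 s3
  have hUsum : 0 ≤ ∑ j ∈ Finset.Icc q J, U j := Finset.sum_nonneg fun j _ => hU0 j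
  have hlogY : 0 ≤ Real.log Y := Real.log_nonneg (by exact_mod_cast (by omega : 1 ≤ Y))
  have f1 : κ * Real.log Y ≤ κ * (2 * Real.log ((Y / 4 : ℕ) : ℝ)) :=
    mul_le_mul_of_nonneg_left hYq hκ0.le
  have f2 : ε * ∑ X ∈ Finset.Icc 1 Y, 1 / (X : ℝ) ≤ ε * (1 + Real.log Y) :=
    mul_le_mul_of_nonneg_left hharm hε0.le
  have f3 : 64 * (HM + ε + 1) ≤ κ * Real.log Y := by
    have h := mul_le_mul_of_nonneg_left hYlog hκ0.le
    have e : κ * (64 / κ * (HM + ε + 1)) = 64 * (HM + ε + 1) := by field_simp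
    linarith
  have f4 : ε * Real.log Y = κ * Real.log Y / 64 := by rw [hε]; ring
  have f5 : K2 * ∑ j ∈ Finset.Icc q J, U j ≥ 0 := mul_nonneg hK20 hUsum
  rw [add_mul] at htot
  rw [mul_add, mul_one] at f2
  linarith

end Pool.Agent.H500R2
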