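import Mathlib
import Pool.Agent.H500R2.Final2

set_option autoImplicit false

namespace Pool.Agent.H500R2

lemma log_a : -(9163 / 10000 : ℝ) ≤ Real.log (2 / 5) := by
  have h : Real.log (5 / 2) ≤ 9163 / 10000 := by
    rw [Real.log_le_iff_le_exp (by norm_num)]
    refine le_trans ?_ (Real.sum_le_exp_of_nonneg (by norm_num) 12)
    norm_num [Finset.sum_range_succ, Nat.factorial]
  have e : Real.log (2 / 5) = -Real.log (5 / 2) := by
    rw [← Real.log_inv]; norm_num
  rw [e]; linarith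

lemma log_b : -(28769 / 100000 : ℝ) ≤ Real.log (3 / 4) := by
  have h : Real.log (4 / 3) ≤ 28769 / 100000 := by
    rw [Real.log_le_iff_le_exp (by norm_num)]
    refine le_trans ?_ (Real.sum_le_exp_of_nonneg (by norm_num) 9)
    norm_num [Finset.sum_range_succ, Nat.factorial]
  have e : Real.log (3 / 4) = -Real.log (4 / 3) := by
    rw [← Real.log_inv]; norm_num
  rw [e]; linarith

lemma log_c : (28815 / 100000 : ℝ) ≤ Real.log (667 / 500) := by
  rw [Real.le_log_iff_exp_le (by norm_num)]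
  refine le_trans (Real.exp_bound' (by norm_num) (by norm_num) (n := 8) (by norm_num)) ?_
  norm_num [Finset.sum_range_succ, Nat.factorial]

lemma log_d : (1 / 200001 : ℝ) ≤ Real.log (200001 / 200000) := by
  have := Real.one_sub_inv_le_log_of_pos (x := (200001 / 200000 : ℝ)) (by norm_num)
  refine le_trans ?_ this
  norm_num

theorem erdos327 :
    ∃ ε : ℝ, ε > 0 ∧ ∀ M : ℕ, ∃ N : ℕ, M ≤ N ∧
      ∃ A : Finset ℕ, A ⊆ Finset.Icc 1 N ∧
        (∀ a ∈ A, ∀ b ∈ A, a ≠ b → ¬ (a + b ∣ a * b)) ∧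
        ((1 : ℝ) / 2 + ε) * (N : ℝ) ≤ (A.card : ℝ) := by
  have ha := log_a
  have hb := log_b
  have hc := log_c
  have hd := log_d
  apply final (y := 2 / 5) (z := 3 / 4) (z0 := 667 / 500) (z1 := 200001 / 200000)
    (a1 := 100001 / 100000) (a2 := 2319 / 2000) (c1 := 1 / 2000) (c2 := 3473 / 1000)
    (r := 1 / 10 ^ 11) <;> norm_num <;> linarith

end Pool.Agent.H500R2
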